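import Pool.Agent.H72.RM.PD

/-!
# Module IndAll: the basis of a saturated group is independent modulo all powers

As `pd_ind` (file `H72/RM/PD.lean`) with an arbitrary exponent `N ≥ 1`: `y ≠ 0` (the `b i` are units), so
`y = (y' : Kˣ)`, `y'^N = ∏ (b i)^(n i) ∈ Λ'`, hence `y' ∈ Λ'`; by `hgen` `y' = t ∏ (b i)^(m i)`, `t` of finite
order, so `∏ (b i)^(n i - N m i)` has finite order and `n i = N m i` by `hind`.
-/

set_option autoImplicit false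

namespace Pool.Agent.H72.RG

open Pool.Agent.H72.RM

theorem ind_all {K : Type} [Field K] (Λ Λ' : Subgroup Kˣ)
    (hΛ' : ∀ x : Kˣ, x ∈ Λ' ↔ ∃ N : ℕ, 1 ≤ N ∧ x ^ N ∈ Λ) {r : ℕ} (b : Fin r → Kˣ)
    (hb : ∀ i, b i ∈ Λ')
    (hgen : ∀ x ∈ Λ', ∃ m : Fin r → ℤ, IsOfFinOrder (x * (∏ i, b i ^ (m i))⁻¹))
    (hind : ∀ m : Fin r → ℤ, IsOfFinOrder (∏ i, b i ^ (m i)) → m = 0) (N : ℕ) (hN : 1 ≤ N)
    (n : Fin r → ℤ) (y : K) (h : y ^ N = ∏ i, ((b i : Kˣ) : K) ^ (n i)) (i : Fin r) :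
    (N : ℤ) ∣ n i := by
  have hN0 : N ≠ 0 := by omega
  have hy : y ≠ 0 := by
    rintro rfl
    rw [zero_pow hN0] at h
    have h1 : ∏ i, ((b i : Kˣ) : K) ^ (n i) ≠ 0 :=
      Finset.prod_ne_zero_iff.2 fun i _ => zpow_ne_zero _ (b i).ne_zero
    exact h1 h.symm
  have hy' : (Units.mk0 y hy) ^ N = ∏ i, b i ^ (n i) := by
    apply Units.ext
    rw [Units.val_pow_eq_pow_val, Units.val_mk0, h, Units.coe_prod]
    exact Finset.prod_congr rfl fun i _ => (Units.val_zpow_eq_zpow_val _ _).symm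
  have hprod : ∏ i, b i ^ (n i) ∈ Λ' := Subgroup.prod_mem _ fun i _ => Subgroup.zpow_mem _ (hb i) _
  have hyΛ : Units.mk0 y hy ∈ Λ' := by
    rw [← hy', hΛ'] at hprod
    obtain ⟨M, hM, hM2⟩ := hprod
    rw [hΛ']
    exact ⟨N * M, Nat.mul_pos (by omega) hM, by rwa [pow_mul]⟩
  obtain ⟨m, hm⟩ := hgen _ hyΛ
  have h1 : (Units.mk0 y hy * (∏ i, b i ^ (m i))⁻¹) ^ N =
      ∏ i, b i ^ ((n - (N : ℤ) • m) i) := by
    rw [mul_pow, hy', inv_pow, ← Finset.prod_pow, ← Finset.prod_inv_distrib,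
      ← Finset.prod_mul_distrib]
    refine Finset.prod_congr rfl fun i _ => ?_
    rw [Pi.sub_apply, Pi.smul_apply, smul_eq_mul, zpow_sub, mul_comm (N : ℤ) (m i), zpow_mul,
      zpow_natCast]
  have h2 := hind _ (h1 ▸ hm.pow)
  have h3 := congrFun h2 i
  rw [Pi.sub_apply, Pi.smul_apply, smul_eq_mul, Pi.zero_apply, sub_eq_zero] at h3
  exact ⟨m i, h3⟩

end Pool.Agent.H72.RG
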