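import Pool.Agent.H72.RG.PTower

/-!
# Module STower: descent to a bounded level

For `p ∈ S` let `c_p`, `R_p` be the constants of `p_tower` (for the set `(S : Set ℕ)`), `c = min (1, min_p c_p)`
(`S` may be empty), `R = ∏_{q ∈ S} q^(R_q)`. `N = ∏_{q ∈ S} q^(k_q)` (`k_q = N.factorization q`). By induction on
`T ⊆ S` (`Finset.induction_on` for subsets, or on the list of elements): if `γ ∈ GammaS`, `y ∈ RF Ω b n N`,
`y ≠ 0`, `absLogHeight₁ (γ y) < c` then there are `γ' ∈ GammaS`, `y' ≠ 0` with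
`y' ∈ RF Ω b n ((∏_{q ∈ T} q^(R_q)) * ∏_{q ∈ S \ T} q^(k_q))` and `γ y = γ' y'`. Step from `T` to `insert p T`,
`p ∈ S \ T`: `N₀ = (∏_{q ∈ T} q^(R_q)) ∏_{q ∈ S \ insert p T} q^(k_q)` is prime to `p` (distinct primes), apply
`p_tower` with `k = k_p`, `n' = n`. For `T = S` this is the claim.
-/

set_option autoImplicit false
set_option linter.unusedSectionVars false

open NumberField IntermediateField

namespace Pool.Agent.H72.RG

open Pool.Agent.H72.RM

variable {K Ω : Type} [Field K] [NumberField K] [Field Ω] [CharZero Ω] [IsAlgClosed Ω]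
  [Algebra K Ω] [IsGalois K Ω] {r : ℕ} {b : Fin r → K}

theorem s_tower (S : Finset ℕ)
    (hD : ∀ p ∈ S, ∃ (_ : Fact p.Prime) (ι : Ω →+* PadicAlgCl p) (h₀ J : ℕ),
      SData K Ω p (PadicAlgCl p) b ι h₀ J) :
    ∃ (c : ℝ) (R : ℕ), 0 < c ∧ 1 ≤ R ∧ ∀ n : ℕ, 1 ≤ n → (∀ q ∈ S, ¬ q ∣ n) → ∀ N : ℕ, 1 ≤ N →
      (∀ q : ℕ, q.Prime → q ∣ N → q ∈ S) → ∀ γ y : Ω, γ ∈ GammaS Ω b (S : Set ℕ) →
      y ∈ RF Ω b n N → y ≠ 0 → absLogHeight₁ (γ * y) < c →
      ∃ γ' ∈ GammaS Ω b (S : Set ℕ), ∃ y' ∈ RF Ω b n R, y' ≠ 0 ∧ γ * y = γ' * y' := by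
  have h1 : ∀ p ∈ S, ∃ (c : ℝ) (R : ℕ), 0 < c ∧ p.Prime ∧ ∀ n' N₀ : ℕ, 1 ≤ n' → 1 ≤ N₀ →
      ¬ p ∣ n' → ¬ p ∣ N₀ → ∀ (k : ℕ) (γ y : Ω), γ ∈ GammaS Ω b (S : Set ℕ) →
      y ∈ RF Ω b n' (p ^ k * N₀) → y ≠ 0 → absLogHeight₁ (γ * y) < c →
      ∃ γ' ∈ GammaS Ω b (S : Set ℕ), ∃ y' ∈ RF Ω b n' (p ^ R * N₀),
        y' ≠ 0 ∧ γ * y = γ' * y' := by
    intro p hpS
    obtain ⟨hp, ι, h₀, J, D⟩ := hD p hpS
    obtain ⟨c, R, hc, h⟩ := p_tower D (S : Set ℕ) (Finset.mem_coe.mpr hpS)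
    exact ⟨c, R, hc, hp.out, h⟩
  choose! cf Rf hcf hpr hstep using h1
  have h2 : ∃ c : ℝ, 0 < c ∧ ∀ p ∈ S, c ≤ cf p := by
    clear hD hstep
    induction S using Finset.induction_on with
    | empty => exact ⟨1, one_pos, fun p hp => absurd hp (Finset.notMem_empty p)⟩
    | insert a T ha ih =>
      obtain ⟨c, hc, hcT⟩ := ih (fun p hp => hcf p (Finset.mem_insert_of_mem hp))
        (fun p hp => hpr p (Finset.mem_insert_of_mem hp))
      refine ⟨min c (cf a), lt_min hc (hcf a (Finset.mem_insert_self a T)), fun p hp => ?_⟩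
      rcases Finset.mem_insert.mp hp with rfl | hp
      · exact min_le_right _ _
      · exact (min_le_left _ _).trans (hcT p hp)
  obtain ⟨c, hc, hcS⟩ := h2
  refine ⟨c, ∏ q ∈ S, q ^ Rf q, hc, ?_, ?_⟩
  · exact Nat.one_le_iff_ne_zero.mpr (Finset.prod_ne_zero_iff.mpr
      fun q hq => pow_ne_zero _ (hpr q hq).ne_zero)
  · intro n hn hnS N hN hNS γ y hγ hy hy0 hh
    have hNprod : ∏ q ∈ S, q ^ N.factorization q = N := by
      have h3 := Nat.prod_factorization_pow_eq_self (n := N) (by omega)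
      rw [Finsupp.prod_of_support_subset N.factorization (s := S)] at h3
      · exact h3
      · intro q hq
        have h4 := Nat.mem_primeFactors.mp (by simpa using hq)
        exact hNS q h4.1 h4.2.1
      · intro q _
        exact pow_zero q
    have key : ∀ T : Finset ℕ, T ⊆ S →
        ∃ γ' ∈ GammaS Ω b (S : Set ℕ), ∃ y' ∈ RF Ω b n
          ((∏ q ∈ T, q ^ Rf q) * ∏ q ∈ S \ T, q ^ N.factorization q),
          y' ≠ 0 ∧ γ * y = γ' * y' := by
      intro T
      induction T using Finset.induction_on with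
      | empty =>
        intro _
        refine ⟨γ, hγ, y, ?_, hy0, rfl⟩
        rw [Finset.prod_empty, one_mul, Finset.sdiff_empty, hNprod]
        exact hy
      | insert p T hpT ih =>
        intro hTS
        have hpS : p ∈ S := hTS (Finset.mem_insert_self p T)
        have hTS' : T ⊆ S := fun q hq => hTS (Finset.mem_insert_of_mem hq)
        obtain ⟨γ₁, hγ₁, y₁, hy₁, hy₁0, heq⟩ := ih hTS'
        set N₀ : ℕ := (∏ q ∈ T, q ^ Rf q) * ∏ q ∈ S \ insert p T, q ^ N.factorization q with hN₀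
        have hpp := hpr p hpS
        have hpos : ∀ q ∈ S, 0 < q := fun q hq => (hpr q hq).pos
        have hN₀1 : 1 ≤ N₀ := by
          rw [hN₀]
          refine Nat.mul_pos (Finset.prod_pos fun q hq => pow_pos (hpos q (hTS' hq)) _)
            (Finset.prod_pos fun q hq => pow_pos (hpos q (Finset.mem_sdiff.mp hq).1) _)
        have hne : ∀ q ∈ S, q ≠ p → ∀ k : ℕ, ¬ p ∣ q ^ k := by
          intro q hq hqp k hdiv
          exact hqp (((Nat.prime_dvd_prime_iff_eq hpp (hpr q hq)).mp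
            (hpp.dvd_of_dvd_pow hdiv)).symm)
        have hN₀p : ¬ p ∣ N₀ := by
          intro hdiv
          rw [hN₀] at hdiv
          rcases (Nat.Prime.dvd_mul hpp).mp hdiv with h | h
          · obtain ⟨q, hq, hqd⟩ := (Prime.dvd_finsetProd_iff hpp.prime _).mp h
            exact hne q (hTS' hq) (fun h5 => hpT (h5 ▸ hq)) _ hqd
          · obtain ⟨q, hq, hqd⟩ := (Prime.dvd_finsetProd_iff hpp.prime _).mp h
            have hq' := Finset.mem_sdiff.mp hq
            exact hne q hq'.1 (fun h5 => hq'.2 (h5 ▸ Finset.mem_insert_self _ _)) _ hqd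
        have hsplit : (∏ q ∈ T, q ^ Rf q) * ∏ q ∈ S \ T, q ^ N.factorization q =
            p ^ N.factorization p * N₀ := by
          have h6 : S \ T = insert p (S \ insert p T) := by
            ext q
            simp only [Finset.mem_sdiff, Finset.mem_insert, not_or]
            constructor
            · rintro ⟨h7, h8⟩
              by_cases h9 : q = p
              · exact Or.inl h9
              · exact Or.inr ⟨h7, h9, h8⟩
            · rintro (h7 | ⟨h7, h8, h9⟩)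
              · rw [h7]
                exact ⟨hpS, hpT⟩
              · exact ⟨h7, h9⟩
          rw [h6, Finset.prod_insert (by simp), hN₀]
          ring
        rw [hsplit] at hy₁
        have hh₁ : absLogHeight₁ (γ₁ * y₁) < cf p := by
          rw [← heq]
          exact lt_of_lt_of_le hh (hcS p hpS)
        obtain ⟨γ₂, hγ₂, y₂, hy₂, hy₂0, heq₂⟩ := hstep p hpS n N₀ hn hN₀1 (hnS p hpS) hN₀p
          (N.factorization p) γ₁ y₁ hγ₁ hy₁ hy₁0 hh₁
        refine ⟨γ₂, hγ₂, y₂, ?_, hy₂0, heq.trans heq₂⟩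
        have h10 : (∏ q ∈ insert p T, q ^ Rf q) *
            ∏ q ∈ S \ insert p T, q ^ N.factorization q = p ^ Rf p * N₀ := by
          rw [Finset.prod_insert hpT, hN₀]
          ring
        rw [h10]
        exact hy₂
    obtain ⟨γ', hγ', y', hy', hy'0, heq⟩ := key S (Finset.Subset.refl S)
    refine ⟨γ', hγ', y', ?_, hy'0, heq⟩
    rw [Finset.sdiff_self, Finset.prod_empty, mul_one] at hy'
    exact hy'

end Pool.Agent.H72.RG
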