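import Pool.Agent.H72.RG.GlobLoc
import Pool.Agent.H72.RG.STower
import Pool.Agent.H72.RG.IndAll
import Pool.Agent.H72.RM.BaseA
import Pool.Agent.H72.RM.BaseB
import Pool.Agent.H72.RM.Sat
import Pool.Agent.H72.RM.Basis
import Pool.Agent.H72.RM.PD
import Pool.Agent.H72.RM.Cover

/-!
# Final assembly (MP_187c26_nt, radicals with exponents composed of an arbitrary finite set of primes)

`final_O`: the theorem for a finitely generated subgroup `Λ` of `Kˣ` and an algebraic closure `Ω` of `K`.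
`final_S`: the theorem for a finitely generated subgroup `Λ` of `Ωˣ` (apply `final_O` to the field
generated by `Λ`).
-/

set_option autoImplicit false
set_option linter.unusedSectionVars false

open NumberField IntermediateField

namespace Pool.Agent.H72.RG

open Pool.Agent.H72.RM

section

variable {K Ω : Type} [Field K] [NumberField K] [Field Ω] [CharZero Ω] [IsAlgClosed Ω]
  [Algebra K Ω] [IsGalois K Ω]

theorem sdata_of (p : ℕ) [Fact p.Prime] {r : ℕ}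
    (Λ Λ' : Subgroup Kˣ) (hΛ' : ∀ x : Kˣ, x ∈ Λ' ↔ ∃ N : ℕ, 1 ≤ N ∧ x ^ N ∈ Λ) (b : Fin r → Kˣ)
    (hb : ∀ i, b i ∈ Λ')
    (hgen : ∀ x ∈ Λ', ∃ m : Fin r → ℤ, IsOfFinOrder (x * (∏ i, b i ^ (m i))⁻¹))
    (hind : ∀ m : Fin r → ℤ, IsOfFinOrder (∏ i, b i ^ (m i)) → m = 0) :
    ∃ (ι : Ω →+* PadicAlgCl p) (h₀ J : ℕ),
      SData K Ω p (PadicAlgCl p) (fun i => ((b i : Kˣ) : K)) ι h₀ J := by
  have : CharZero (PadicAlgCl p) := charZero_C p (PadicAlgCl p)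
  obtain ⟨φ⟩ : Nonempty (K →+* PadicAlgCl p) := inferInstance
  have : Algebra.IsAlgebraic K Ω := inferInstance
  obtain ⟨ι, -⟩ := pd_lift (Ω := Ω) φ
  have hb0 : ∀ i, (fun i => ((b i : Kˣ) : K)) i ≠ 0 := fun i => (b i).ne_zero
  have htor : ∀ (i : Fin r) (k : ℕ), 1 ≤ k → (fun i => ((b i : Kˣ) : K)) i ^ k ≠ 1 := by
    intro i k hk h
    have h1 : b i ^ k = 1 := by
      apply Units.ext
      rw [Units.val_pow_eq_pow_val]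
      exact h
    have h2 : IsOfFinOrder (∏ j, b j ^ ((Pi.single i (k : ℤ) : Fin r → ℤ) j)) := by
      rw [pd_single, zpow_natCast, h1]
      exact IsOfFinOrder.one
    have h3 := congrFun (hind _ h2) i
    rw [Pi.single_eq_same] at h3
    have h4 : (k : ℤ) = 0 := h3
    omega
  obtain ⟨h₀, J, h1, h2, h3⟩ := glob_loc (p := p) ι (fun i => ((b i : Kˣ) : K)) hb0 htor
  refine ⟨ι, h₀, J, ⟨hb0, ?_, h1, h2, h3⟩⟩
  intro N hN m y hy i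
  exact ind_all Λ Λ' hΛ' b hb hgen hind N hN m y hy i

theorem gam_of_mem_O {r : ℕ} (Λ Λ' : Subgroup Kˣ)
    (hΛ' : ∀ x : Kˣ, x ∈ Λ' ↔ ∃ N : ℕ, 1 ≤ N ∧ x ^ N ∈ Λ) (b : Fin r → Kˣ)
    (hgen : ∀ x ∈ Λ', ∃ m : Fin r → ℤ, IsOfFinOrder (x * (∏ i, b i ^ (m i))⁻¹))
    (S : Finset ℕ) (γ : Ωˣ)
    (hγ : ∃ N : ℕ, 1 ≤ N ∧ (∀ q : ℕ, q.Prime → q ∣ N → q ∈ S) ∧
        ∃ t : Ωˣ, (∃ n : ℕ, 1 ≤ n ∧ t ^ n = 1) ∧
          ∃ x ∈ Λ, γ ^ N * t = Units.map (algebraMap K Ω).toMonoidHom x) :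
    (γ : Ω) ∈ GammaS Ω (fun i => ((b i : Kˣ) : K)) (S : Set ℕ) := by
  obtain ⟨N, hN, hNS, t, ⟨n, hn, htn⟩, x, hx, hγx⟩ := hγ
  have hx' : x ∈ Λ' := (hΛ' x).2 ⟨1, le_rfl, by rwa [pow_one]⟩
  obtain ⟨m, hm⟩ := hgen x hx'
  obtain ⟨k, hk, hk1⟩ := isOfFinOrder_iff_pow_eq_one.1 hm
  set u : Kˣ := x * (∏ i, b i ^ (m i))⁻¹ with hu
  set U : Ωˣ := Units.map (algebraMap K Ω).toMonoidHom u with hU
  have hUk : U ^ k = 1 := by
    rw [hU, ← map_pow, hk1, map_one]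
  have hxu : x = u * ∏ i, b i ^ (m i) := by
    rw [hu, inv_mul_cancel_right]
  refine ⟨N, hN, hNS, ((t * U⁻¹ : Ωˣ) : Ω), ⟨n * k, Nat.mul_pos hn hk, ?_⟩, m, ?_⟩
  · rw [← Units.val_pow_eq_pow_val, mul_pow, pow_mul, htn, one_pow, one_mul, inv_pow,
      mul_comm n k, pow_mul, hUk, one_pow, inv_one, Units.val_one]
  · have h1 : γ ^ N * (t * U⁻¹) =
        ∏ i, (Units.map (algebraMap K Ω).toMonoidHom (b i)) ^ (m i) := by
      rw [← mul_assoc, hγx, hxu, map_mul, map_prod, mul_comm U, mul_inv_cancel_right]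
      refine Finset.prod_congr rfl fun i _ => ?_
      rw [map_zpow]
    have h2 := congrArg (fun z : Ωˣ => (z : Ω)) h1
    simp only [Units.val_mul, Units.coe_prod, Units.val_pow_eq_pow_val,
      Units.val_zpow_eq_zpow_val] at h2
    simpa using h2

theorem not_div_O {r : ℕ} (Λ Λ' : Subgroup Kˣ)
    (hΛ' : ∀ x : Kˣ, x ∈ Λ' ↔ ∃ N : ℕ, 1 ≤ N ∧ x ^ N ∈ Λ) (b : Fin r → Kˣ)
    (hb : ∀ i, b i ∈ Λ') (Γ : Subgroup Ωˣ)
    (hΛΓ : ∀ x ∈ Λ, Units.map (algebraMap K Ω).toMonoidHom x ∈ Γ)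
    (a : Ωˣ) (ha : ∀ n : ℕ, 1 ≤ n → a ^ n ∉ Γ) :
    (a : Ω) ∉ DivG Ω (fun i => ((b i : Kˣ) : K)) := by
  rintro ⟨N, hN, m, hm⟩
  have hx : ∏ i, b i ^ (m i) ∈ Λ' := Subgroup.prod_mem _ fun i _ => Subgroup.zpow_mem _ (hb i) _
  obtain ⟨M, hM, hxM⟩ := (hΛ' _).1 hx
  apply ha (N * M) (Nat.mul_pos hN hM)
  have h1 : a ^ N = Units.map (algebraMap K Ω).toMonoidHom
      (∏ i, b i ^ (m i)) := by
    apply Units.ext
    rw [Units.val_pow_eq_pow_val, hm, map_prod, Units.coe_prod]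
    refine Finset.prod_congr rfl fun i _ => ?_
    rw [map_zpow, Units.val_zpow_eq_zpow_val]
    rfl
  rw [pow_mul, h1, ← map_pow]
  exact hΛΓ _ hxM

theorem final_O (Λ : Subgroup Kˣ) (hΛ : Λ.FG) (S : Finset ℕ)
    (hS : S.Nonempty) (hprime : ∀ p ∈ S, p.Prime) :
    ∃ c : ℝ, 0 < c ∧ ∀ Γ : Subgroup Ωˣ,
      (∀ x ∈ Λ, Units.map (algebraMap K Ω).toMonoidHom x ∈ Γ) →
      (∀ γ ∈ Γ, ∃ N : ℕ, 1 ≤ N ∧ (∀ q : ℕ, q.Prime → q ∣ N → q ∈ S) ∧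
        ∃ t : Ωˣ, (∃ n : ℕ, 1 ≤ n ∧ t ^ n = 1) ∧
          ∃ x ∈ Λ, γ ^ N * t = Units.map (algebraMap K Ω).toMonoidHom x) →
      ∀ a : Ωˣ, (a : Ω) ∈ IntermediateField.adjoin K {y : Ω | ∃ γ ∈ Γ, y = (γ : Ω)} →
        (∀ n : ℕ, 1 ≤ n → a ^ n ∉ Γ) → c ≤ absLogHeight₁ (a : Ω) := by
  classical
  obtain ⟨Λ', hΛ'fg, hΛ'⟩ := sat_fg K Λ hΛ
  obtain ⟨r, b, hb, hgen, hind⟩ := sat_basis Λ' hΛ'fg
  have hb0 : ∀ i, (fun i => ((b i : Kˣ) : K)) i ≠ 0 := fun i => (b i).ne_zero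
  have hD : ∀ p ∈ S, ∃ (_ : Fact p.Prime) (ι : Ω →+* PadicAlgCl p)
      (h₀ J : ℕ), SData K Ω p (PadicAlgCl p)
        (fun i => ((b i : Kˣ) : K)) ι h₀ J := by
    intro p hp
    have hF : Fact p.Prime := ⟨hprime p hp⟩
    obtain ⟨ι, h₀, J, hD⟩ := sdata_of (Ω := Ω) p Λ Λ' hΛ' b hb hgen hind
    exact ⟨hF, ι, h₀, J, hD⟩
  obtain ⟨c1, R, hc1, hR, h1⟩ := s_tower S hD
  obtain ⟨p0, hp0⟩ := hS
  obtain ⟨κ, hκ, hκ'⟩ := base_bog (Ω := Ω) (fun i => ((b i : Kˣ) : K))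
    R hR p0 (hprime p0 hp0)
  obtain ⟨c2, hc2, h2⟩ := base_final (Ω := Ω) (fun i => ((b i : Kˣ) : K)) hb0 κ hκ
  refine ⟨min c1 c2, lt_min hc1 hc2, ?_⟩
  intro Γ hΛΓ hΓ a ha hasat
  by_contra hlt
  push Not at hlt
  obtain ⟨n, N, hn, hN, hnS, hNS, haRF⟩ := rad_cover (S := (S : Set ℕ)) hb0
    {y : Ω | ∃ γ ∈ Γ, y = (γ : Ω)} (by
      rintro _ ⟨γ, hγ, rfl⟩
      exact gam_of_mem_O Λ Λ' hΛ' b hgen S γ (hΓ γ hγ)) a ha
  have hone : (1 : Ω) ∈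
      GammaS Ω (fun i => ((b i : Kˣ) : K)) (S : Set ℕ) :=
    gam_of_pow 1 le_rfl (fun q hq hq1 => absurd (Nat.dvd_one.1 hq1) hq.one_lt.ne') 0 (by simp)
  obtain ⟨γ', hγ', y', hy', hy'0, hay⟩ := h1 n hn (fun q hq => hnS q hq (hprime q hq)) N hN hNS
    1 a hone haRF a.ne_zero (by rw [one_mul]; exact lt_of_lt_of_le hlt (min_le_left _ _))
  have hnd := not_div_O Λ Λ' hΛ' b hb Γ hΛΓ a hasat
  have h3 := h2 (RF Ω (fun i => ((b i : Kˣ) : K)) n R)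
    (fun x hx hx0 hxt => hκ' n hn (hnS p0 hp0 (hprime p0 hp0)) x hx hx0 hxt) γ' y'
    (gam_div hγ') hy' hy'0 (by rw [← hay, one_mul]; exact hnd)
  rw [← hay, one_mul] at h3
  exact absurd (lt_of_lt_of_le hlt (min_le_right _ _)) (not_lt.2 h3)

theorem final_S (Λ : Subgroup Ωˣ) (hΛ : Λ.FG) (S : Finset ℕ) (hprime : ∀ p ∈ S, p.Prime) :
    ∃ c : ℝ, 0 < c ∧ ∀ Γ : Subgroup Ωˣ, Λ ≤ Γ →
      (∀ γ ∈ Γ, ∃ N : ℕ, 1 ≤ N ∧ (∀ q : ℕ, q.Prime → q ∣ N → q ∈ S) ∧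
        ∃ t : Ωˣ, (∃ n : ℕ, 1 ≤ n ∧ t ^ n = 1) ∧ γ ^ N * t ∈ Λ) →
      ∀ a : Ωˣ, (a : Ω) ∈ IntermediateField.adjoin K {y : Ω | ∃ γ ∈ Γ, y = (γ : Ω)} →
        (∀ n : ℕ, 1 ≤ n → a ^ n ∉ Γ) → c ≤ absLogHeight₁ (a : Ω) := by
  classical
  obtain ⟨T, hT⟩ := hΛ
  -- the field generated by `Λ`
  let K₀ : IntermediateField K Ω := IntermediateField.adjoin K ((fun x : Ωˣ => (x : Ω)) '' (T : Set Ωˣ))
  have hfin : FiniteDimensional K K₀ := by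
    have : Finite ((fun x : Ωˣ => (x : Ω)) '' (T : Set Ωˣ)) := by
      have h1 : ((fun x : Ωˣ => (x : Ω)) '' (T : Set Ωˣ)).Finite := (Finset.finite_toSet T).image _
      exact h1.to_subtype
    exact IntermediateField.finiteDimensional_adjoin fun x _ => Algebra.IsIntegral.isIntegral x
  have hfinQ : FiniteDimensional ℚ K₀ := Module.Finite.trans K K₀
  have hNF : NumberField K₀ := { to_charZero := inferInstance, to_finiteDimensional := hfinQ }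
  have hmem : ∀ x ∈ T, (x : Ω) ∈ K₀ := fun x hx =>
    IntermediateField.subset_adjoin K _ ⟨x, hx, rfl⟩
  let f : K₀ˣ →* Ωˣ := Units.map (algebraMap K₀ Ω).toMonoidHom
  let lft : {y : Ωˣ // y ∈ T} → K₀ˣ := fun x =>
    Units.mk0 (⟨(x.1 : Ω), hmem x.1 x.2⟩ : K₀) (by
      intro h
      exact x.1.ne_zero (congrArg (fun z : K₀ => (z : Ω)) h))
  have hlft : ∀ x, f (lft x) = x.1 := by
    intro x
    apply Units.ext
    rfl
  let T₀ : Finset K₀ˣ := T.attach.image lft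
  let Λ₀ : Subgroup K₀ˣ := Subgroup.closure (T₀ : Set K₀ˣ)
  have hΛ₀ : Λ₀.FG := ⟨T₀, rfl⟩
  have himg : f '' (T₀ : Set K₀ˣ) = (T : Set Ωˣ) := by
    ext y
    constructor
    · rintro ⟨x, hx, rfl⟩
      obtain ⟨z, -, rfl⟩ := Finset.mem_image.1 (Finset.mem_coe.1 hx)
      rw [hlft]
      exact z.2
    · intro hy
      refine ⟨lft ⟨y, hy⟩, ?_, hlft _⟩
      exact Finset.mem_coe.2 (Finset.mem_image.2 ⟨⟨y, hy⟩, Finset.mem_attach _ _, rfl⟩)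
  have hmap : Λ₀.map f = Λ := by
    rw [MonoidHom.map_closure, himg, hT]
  have hprime' : ∀ p ∈ insert 2 S, p.Prime := by
    intro p hp
    rcases Finset.mem_insert.1 hp with rfl | hp
    · exact Nat.prime_two
    · exact hprime p hp
  obtain ⟨c, hc, h⟩ := final_O (K := K₀) (Ω := Ω) Λ₀ hΛ₀ (insert 2 S)
    ⟨2, Finset.mem_insert_self 2 S⟩ hprime'
  refine ⟨c, hc, fun Γ hΛΓ hΓ a ha hasat => h Γ ?_ ?_ a ?_ hasat⟩
  · intro x hx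
    apply hΛΓ
    rw [← hmap]
    exact ⟨x, hx, rfl⟩
  · intro γ hγ
    obtain ⟨N, hN, hNS, t, ht, hγt⟩ := hΓ γ hγ
    rw [← hmap] at hγt
    obtain ⟨x, hx, hx2⟩ := hγt
    exact ⟨N, hN, fun q hq hqN => Finset.mem_insert_of_mem (hNS q hq hqN), t, ht, x, hx, hx2.symm⟩
  · have h1 : IntermediateField.adjoin K {y : Ω | ∃ γ ∈ Γ, y = (γ : Ω)} ≤
        (IntermediateField.adjoin K₀ {y : Ω | ∃ γ ∈ Γ, y = (γ : Ω)}).restrictScalars K := by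
      rw [IntermediateField.adjoin_le_iff]
      intro y hy
      exact IntermediateField.subset_adjoin K₀ _ hy
    exact h1 ha

end

end Pool.Agent.H72.RG
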