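import Pool.Agent.H72.RM.Defs

/-!
# Module PowTrick: a power of `g` that moves `z` and fixes `z^p`

`sum_pow`: for `p^2 ∣ q`: `(1 + q)^i = 1 + i q + q^2 (..) ≡ 1 + i q mod p^2..`, more simply
`(1 + q)^i ≡ 1 mod p^2`, so `∑_{i<p} (1 + q)^i ≡ p mod p^2`, i.e. `= p (1 + p t)`.
`pow_trick`: `z` is a primitive `p^(n+J)`-th root of unity, `n ≥ 2`. `g z = ω z`, `ω^(p^J) = 1` (since `g` fixes
`z^(p^J)`), so `ω = z^q` with `p^n ∣ q` and `g z = z^(1+q)`, `p^2 ∣ q`. Put `h = 1 + q`.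
`g^(p^i) z = z^(h^(p^i))`, and `h^(p^J) ≡ 1 mod p^(n+J)` (`q ≡ 0 mod p^n`; e.g. induction:
`a ≡ 1 mod p^s`, `s ≥ 1` implies `a^p ≡ 1 mod p^(s+1)`, `Nat.ModEq.pow`-like lemma
`dvd_sub_pow_of_dvd_sub`), so `g^(p^J) z = z`. Let `i` be maximal with `g^(p^i) z ≠ z` (`i = 0` qualifies,
`i < J`), `g' = g^(p^i)`: `g' z = z^(1+q')` with `1 + q' = h^(p^i)`, `p^2 ∣ q'`, and `g'^p z = z`. Let
`ω' = z^(q')`, `ω' ≠ 1`. `g'^p z = z^((1+q')^p) = z` and `(1+q')^p - 1 = q' ∑_{i<p} (1+q')^i = q' p (1 + p t)`,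
so `ω'^(p (1 + p t)) = 1`; as `ω'` has `p`-power order and `1 + p t` is prime to `p`, `ω'^p = 1`, i.e.
`g' (z^p) = (z^(1+q'))^p = ω'^p z^p = z^p`.
-/

set_option autoImplicit false
set_option linter.unusedVariables false

namespace Pool.Agent.H72.RG

theorem one_add_pow_form (q i : ℕ) : ∃ s : ℕ, (1 + q) ^ i = 1 + q * s := by
  induction i with
  | zero => exact ⟨0, by simp⟩
  | succ i ih =>
    obtain ⟨s, hs⟩ := ih
    refine ⟨1 + s + q * s, ?_⟩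
    rw [pow_succ, hs]
    ring

theorem sum_pow_form (q n : ℕ) : ∃ s : ℕ, ∑ i ∈ Finset.range n, (1 + q) ^ i = n + q * s := by
  induction n with
  | zero => exact ⟨0, by simp⟩
  | succ n ih =>
    obtain ⟨s, hs⟩ := ih
    obtain ⟨t, ht⟩ := one_add_pow_form q n
    refine ⟨s + t, ?_⟩
    rw [Finset.sum_range_succ, hs, ht]
    ring

theorem sum_pow (p q : ℕ) (hp : p.Prime) (hq : p ^ 2 ∣ q) :
    ∃ t : ℕ, ∑ i ∈ Finset.range p, (1 + q) ^ i = p * (1 + p * t) := by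
  obtain ⟨s, hs⟩ := sum_pow_form q p
  obtain ⟨c, rfl⟩ := hq
  refine ⟨c * s, ?_⟩
  rw [hs]
  ring

theorem pow_sub_one_form (q p : ℕ) :
    (1 + q) ^ p = 1 + q * ∑ i ∈ Finset.range p, (1 + q) ^ i := by
  induction p with
  | zero => simp
  | succ p ih =>
    have e : (1 + q) ^ (p + 1) = (1 + q) ^ p + q * (1 + q) ^ p := by ring
    rw [e, Finset.sum_range_succ, mul_add, ← add_assoc, ← ih]

theorem pow_pow_form (p : ℕ) (n c : ℕ) (hn : 1 ≤ n) (J : ℕ) :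
    ∃ d : ℕ, (1 + p ^ n * c) ^ (p ^ J) = 1 + p ^ (n + J) * d := by
  induction J with
  | zero => exact ⟨c, by simp⟩
  | succ J ih =>
    obtain ⟨d, hd⟩ := ih
    obtain ⟨s, hs⟩ := sum_pow_form (p ^ (n + J) * d) p
    obtain ⟨m, hm⟩ : ∃ m, n + J = m + 1 := ⟨n + J - 1, by omega⟩
    refine ⟨d * (1 + p ^ m * d * s), ?_⟩
    rw [pow_succ, pow_mul, hd, pow_sub_one_form, hs, ← add_assoc, hm]
    ring

theorem pow_trick {k Ω : Type} [Field k] [Field Ω] [Algebra k Ω] (p : ℕ) [Fact p.Prime]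
    (n J : ℕ) (hn : 2 ≤ n) (hJ : 1 ≤ J) (z : Ω) (hz : IsPrimitiveRoot z (p ^ (n + J)))
    (g : Ω ≃ₐ[k] Ω) (h1 : g (z ^ (p ^ J)) = z ^ (p ^ J)) (h2 : g z ≠ z) :
    ∃ i : ℕ, (g ^ i) (z ^ p) = z ^ p ∧ (g ^ i) z ≠ z := by
  classical
  have hp : p.Prime := Fact.out
  have hppos : 0 < p := hp.pos
  -- `g z = z ^ a`
  have hgz : (g z) ^ (p ^ (n + J)) = 1 := by
    rw [← map_pow, hz.pow_eq_one, map_one]
  have : NeZero (p ^ (n + J)) := ⟨(pow_pos hppos _).ne'⟩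
  obtain ⟨a, -, ha⟩ := hz.eq_pow_of_pow_eq_one hgz
  have hmod : a * p ^ J ≡ 1 * p ^ J [MOD p ^ n * p ^ J] := by
    have e1 : z ^ (a * p ^ J) = z ^ (p ^ J) := by
      rw [pow_mul, ha, ← map_pow, h1]
    rw [← pow_add, one_mul]
    have h3 := (hz.isOfFinOrder (pow_pos hppos _).ne').pow_eq_pow_iff_modEq
      (n := a * p ^ J) (m := p ^ J)
    rw [← hz.eq_orderOf] at h3
    exact h3.1 e1
  have hmod2 : a ≡ 1 [MOD p ^ n] := Nat.ModEq.mul_right_cancel' (pow_pos hppos J).ne' hmod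
  obtain ⟨c, rfl⟩ : ∃ c, a = 1 + p ^ n * c := by
    have ha1 : 1 ≤ a := by
      rcases Nat.eq_zero_or_pos a with h0 | h0
      · exfalso
        rw [h0] at hmod2
        have h4 : p ^ n ∣ 1 := (Nat.modEq_zero_iff_dvd).1 hmod2.symm
        have h5 : p ^ n = 1 := Nat.dvd_one.1 h4
        have h6 : p = 1 := by
          rcases Nat.pow_eq_one.1 h5 with h | h
          · exact h
          · omega
        exact hp.one_lt.ne' h6
      · exact h0
    obtain ⟨c, hc⟩ := (Nat.modEq_iff_dvd' ha1).1 hmod2.symm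
    exact ⟨c, by omega⟩
  have hiter : ∀ m : ℕ, (g ^ m) z = z ^ ((1 + p ^ n * c) ^ m) := by
    intro m
    induction m with
    | zero => simp
    | succ m ih =>
      rw [pow_succ', AlgEquiv.mul_apply, ih, map_pow, ← ha, ← pow_mul, pow_succ']
  have hJ' : (g ^ (p ^ J)) z = z := by
    rw [hiter]
    obtain ⟨d, hd⟩ := pow_pow_form p n c (by omega) J
    rw [hd, pow_add, pow_mul, hz.pow_eq_one, one_pow, pow_one, mul_one]
  have hex : ∃ i, (g ^ (p ^ i)) z = z := ⟨J, hJ'⟩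
  obtain ⟨i, hi⟩ : ∃ i, Nat.find hex = i + 1 := by
    refine ⟨Nat.find hex - 1, ?_⟩
    have : Nat.find hex ≠ 0 := by
      intro h0
      have := Nat.find_spec hex
      rw [h0] at this
      simp at this
      exact h2 this
    omega
  have hi1 : (g ^ (p ^ (i + 1))) z = z := by
    have := Nat.find_spec hex
    rwa [hi] at this
  have hi0 : (g ^ (p ^ i)) z ≠ z := Nat.find_min hex (by omega)
  refine ⟨p ^ i, ?_, hi0⟩
  obtain ⟨d, hd⟩ : ∃ d : ℕ, (1 + p ^ n * c) ^ (p ^ i) = 1 + p ^ 2 * d := by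
    obtain ⟨d, hd⟩ := pow_pow_form p n c (by omega) i
    obtain ⟨m, hm⟩ : ∃ m, n + i = 2 + m := ⟨n + i - 2, by omega⟩
    exact ⟨p ^ m * d, by rw [hd, hm, pow_add, mul_assoc]⟩
  obtain ⟨t, ht⟩ := sum_pow p (p ^ 2 * d) hp (dvd_mul_right _ _)
  rw [hiter, pow_succ, pow_mul, hd, pow_sub_one_form, ht] at hi1
  have hz0 : z ≠ 0 := hz.ne_zero (pow_pos hppos _).ne'
  have hone : z ^ (p ^ 2 * d * (p * (1 + p * t))) = 1 := by
    rw [pow_add, pow_one] at hi1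
    exact mul_left_cancel₀ hz0 (by rw [hi1, mul_one])
  have hdvd : p ^ (n + J) ∣ p ^ 2 * d * p := by
    have h3 := hz.dvd_of_pow_eq_one _ hone
    rw [← mul_assoc] at h3
    refine Nat.Coprime.dvd_of_dvd_mul_right ?_ h3
    refine Nat.Coprime.pow_left _ ?_
    simp
  have hone' : z ^ (p ^ 2 * d * p) = 1 := (hz.pow_eq_one_iff_dvd _).2 hdvd
  rw [map_pow, hiter, hd, ← pow_mul, add_mul, one_mul, pow_add, hone', mul_one]

end Pool.Agent.H72.RG
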