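import Pool.Agent.H72.RG.LfFacts

/-!
# Module DescB: descent in the direction of the radicals

`L = Lf b F (p^(n+1)) (p^M)`, `n + 1 ≤ M`, stable (`lf2_stable`), generated over `K` by `F`, `ζ`, `β`
(`lf2_gen`).
1. Roots of unity: if `ε ∈ L` and `ε^(p^k) = 1` for some `k` then `ε^(p^M) = 1`: otherwise a power of `ε` is a
   primitive `p^(M+1)`-th root of unity in `L`, but `θ'` fixes `L` and moves it.
2. `σ j y = ε_j y` with `ε_j^(p^s) = 1`, `ε_j = σ j y / y ∈ L`, so `ε_j^(p^M) = 1`, `ε_j` is a power of `ζ` and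
   `σ j ε_j = ε_j`. `(σ j)^p` fixes `F`, `ζ` and `β i` (`σ j (ξ j) = ξ j`: `ξ j` is a `p`-th root of unity, a power
   of `ζ`; `(ξ j)^p = 1`), hence `y`: `y = (σ j)^p y = ε_j^p y`, `ε_j^p = 1`, `ε_j = (ξ j)^(k_j)`.
   Put `m j = -k_j`, `y' = y ∏ (β i)^(m i)`: `σ j y' = ε_j (ξ j)^(-k_j) y' = y'`.
3. `y' ∈ Lf b F (p^n) (p^M)`: `mem_adjoin_of_fixed`: let `ρ : Ω ≃ₐ[K] Ω` fix `F`, all `x` with `x^(p^M) = 1` and
   all `x` with `x^(p^n) = b i`. Then `ρ` fixes `(β i)^p`, so `ρ (β i) = ω_i β i`, `ω_i^p = 1`,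
   `ω_i = (ξ i)^(c_i)`. So `ρ` and the product of the `(σ i)^(c_i)` (in any order, e.g. a list product;
   each `σ j` fixes all `p`-th roots of unity) agree on `F`, `ζ`, `β i`, hence on `L ∋ y'`, and all `σ j` fix
   `y'`. (For instance: prove by induction on a finset `T` that if `ρ` fixes `β i` for `i ∉ T` then `ρ y' = y'`,
   replacing `ρ` by `(σ j)^(-c_j) ρ`.)
-/

set_option autoImplicit false
set_option linter.unusedSectionVars false

open NumberField IntermediateField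

namespace Pool.Agent.H72.RG

open Pool.Agent.H72.RM

variable {K Ω : Type} [Field K] [Field Ω] [CharZero Ω] [IsAlgClosed Ω] [Algebra K Ω]
  [IsGalois K Ω] {r : ℕ}

theorem desc_b (p : ℕ) [Fact p.Prime] (b : Fin r → K) (hb : ∀ i, b i ≠ 0)
    (F : IntermediateField K Ω) (hF : ∀ σ : Ω ≃ₐ[K] Ω, ∀ x ∈ F, σ x ∈ F) (n M : ℕ)
    (hnM : n + 1 ≤ M) (θ' : Ω ≃ₐ[K] Ω)
    (hθ'L : ∀ x ∈ Lf b F (p ^ (n + 1)) (p ^ M), θ' x = x)
    (hθ'ζ : ∀ ζ : Ω, IsPrimitiveRoot ζ (p ^ (M + 1)) → θ' ζ ≠ ζ)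
    (ζ : Ω) (hζ : IsPrimitiveRoot ζ (p ^ M)) (β : Fin r → Ω)
    (hβ : ∀ i, β i ^ (p ^ (n + 1)) = algebraMap K Ω (b i)) (σ : Fin r → (Ω ≃ₐ[K] Ω))
    (hσF : ∀ j, ∀ x ∈ F, σ j x = x) (hσζ : ∀ j, σ j ζ = ζ) (ξ : Fin r → Ω)
    (hξ : ∀ j, IsPrimitiveRoot (ξ j) p)
    (hσβ : ∀ j i, σ j (β i) = (if i = j then ξ j else 1) * β i) (y : Ω)
    (hy : y ∈ Lf b F (p ^ (n + 1)) (p ^ M)) (hy0 : y ≠ 0) (s : ℕ)
    (hys : ∀ j, (σ j y) ^ (p ^ s) = y ^ (p ^ s)) :
    ∃ m : Fin r → ℤ, y * ∏ i, (β i) ^ (m i) ∈ Lf b F (p ^ n) (p ^ M) := by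
  classical
  have hpp : p.Prime := Fact.out
  have hNZ : NeZero (p ^ M) := ⟨(pow_pos hpp.pos M).ne'⟩
  have hNZp : NeZero p := ⟨hpp.pos.ne'⟩
  have hβ0 : ∀ i, β i ≠ 0 := by
    intro i h0
    have h1 := hβ i
    rw [h0, zero_pow (pow_pos hpp.pos _).ne'] at h1
    exact hb i ((map_eq_zero (algebraMap K Ω)).1 h1.symm)
  have hgen := lf2_gen b hb F (p ^ (n + 1)) (p ^ M) (pow_pos hpp.pos _) (pow_pos hpp.pos _)
    (pow_dvd_pow p hnM) ζ hζ β hβ
  have hst := lf2_stable b F hF (p ^ (n + 1)) (p ^ M)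
  have hβL : ∀ i, β i ∈ Lf b F (p ^ (n + 1)) (p ^ M) := fun i =>
    IntermediateField.subset_adjoin K _ (Or.inr (Or.inr ⟨i, hβ i⟩))
  -- an automorphism fixing the generators fixes the field
  have hagree : ∀ g : Ω ≃ₐ[K] Ω, (∀ x ∈ F, g x = x) → g ζ = ζ → (∀ i, g (β i) = β i) →
      ∀ x ∈ Lf b F (p ^ (n + 1)) (p ^ M), g x = x := by
    intro g h1 h2 h3 x hx
    rw [hgen] at hx
    refine fixed_of_mem_adjoin _ (g : Ω →ₐ[K] Ω) ?_ x hx
    rintro z (hz | hz | ⟨i, rfl⟩)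
    · exact h1 z hz
    · rw [Set.mem_singleton_iff] at hz
      rw [hz]
      exact h2
    · exact h3 i
  -- roots of unity of the field
  have hroot : ∀ ε ∈ Lf b F (p ^ (n + 1)) (p ^ M), ∀ k : ℕ, ε ^ (p ^ k) = 1 →
      ε ^ (p ^ M) = 1 := by
    intro ε hε k hk
    obtain ⟨j, hj1, hj2⟩ := (Nat.dvd_prime_pow hpp).1 (orderOf_dvd_of_pow_eq_one hk)
    by_cases hjM : j ≤ M
    · rw [← orderOf_dvd_iff_pow_eq_one, hj2]
      exact pow_dvd_pow p hjM
    · exfalso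
      have h1 : IsPrimitiveRoot ε (p ^ j) := by
        rw [← hj2]
        exact IsPrimitiveRoot.orderOf ε
      have h2 : IsPrimitiveRoot (ε ^ (p ^ (j - (M + 1)))) (p ^ (M + 1)) := by
        refine h1.pow (pow_pos hpp.pos _) ?_
        rw [← pow_add]
        congr 1
        omega
      exact hθ'ζ _ h2 (hθ'L _ (pow_mem hε _))
  -- the `p^M`-th roots of unity are fixed by all `σ j`
  have hσroot : ∀ j, ∀ x : Ω, x ^ (p ^ M) = 1 → σ j x = x := by
    intro j x hx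
    obtain ⟨l, -, rfl⟩ := hζ.eq_pow_of_pow_eq_one hx
    rw [map_pow, hσζ]
  have hpM : ∀ x : Ω, x ^ p = 1 → x ^ (p ^ M) = 1 := by
    intro x hx
    have h1 : p ^ M = p * p ^ (M - 1) := by
      rw [← pow_succ']
      congr 1
      omega
    rw [h1, pow_mul, hx, one_pow]
  have hσξ : ∀ j, σ j (ξ j) = ξ j := fun j => hσroot j _ (hpM _ (hξ j).pow_eq_one)
  have hσβt : ∀ j i (t : ℕ), ((σ j) ^ t) (β i) = (if i = j then ξ j else 1) ^ t * β i := by
    intro j i t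
    induction t with
    | zero => rw [pow_zero, pow_zero, one_mul, AlgEquiv.one_apply]
    | succ t ih =>
      rw [pow_succ', AlgEquiv.mul_apply, ih, map_mul, map_pow, hσβ]
      have h1 : σ j (if i = j then ξ j else 1) = (if i = j then ξ j else 1) := by
        split_ifs
        · exact hσξ j
        · exact map_one _
      rw [h1]
      ring
  have hσFt : ∀ j (t : ℕ), ∀ x ∈ F, ((σ j) ^ t) x = x := by
    intro j t x hx
    induction t with
    | zero => rw [pow_zero, AlgEquiv.one_apply]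
    | succ t ih => rw [pow_succ', AlgEquiv.mul_apply, ih, hσF j x hx]
  have hσrt : ∀ j (t : ℕ), ∀ x : Ω, x ^ (p ^ M) = 1 → ((σ j) ^ t) x = x := by
    intro j t x hx
    induction t with
    | zero => rw [pow_zero, AlgEquiv.one_apply]
    | succ t ih => rw [pow_succ', AlgEquiv.mul_apply, ih, hσroot j x hx]
  -- the quotients `σ j y / y`
  have key : ∀ j, ∃ k : ℕ, σ j y = ξ j ^ k * y := by
    intro j
    obtain ⟨ε, hε⟩ : ∃ ε, ε = σ j y / y := ⟨_, rfl⟩
    have hεy : σ j y = ε * y := by rw [hε, div_mul_cancel₀ _ hy0]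
    have hεL : ε ∈ Lf b F (p ^ (n + 1)) (p ^ M) := by
      rw [hε]
      exact div_mem (hst (σ j) y hy) hy
    have hεs : ε ^ (p ^ s) = 1 := by
      rw [hε, div_pow, hys j, div_self (pow_ne_zero _ hy0)]
    have hεM := hroot ε hεL s hεs
    have hεt : ∀ t : ℕ, ((σ j) ^ t) y = ε ^ t * y := by
      intro t
      induction t with
      | zero => rw [pow_zero, pow_zero, one_mul, AlgEquiv.one_apply]
      | succ t ih =>
        rw [pow_succ', AlgEquiv.mul_apply, ih, map_mul, map_pow, hσroot j ε hεM, hεy]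
        ring
    have h1 : ((σ j) ^ p) y = y := by
      refine hagree ((σ j) ^ p) (hσFt j p) (hσrt j p ζ hζ.pow_eq_one) (fun i => ?_) y hy
      rw [hσβt]
      split_ifs
      · rw [(hξ j).pow_eq_one, one_mul]
      · rw [one_pow, one_mul]
    rw [hεt] at h1
    have h2 : ε ^ p = 1 := mul_right_cancel₀ hy0 (by rw [h1, one_mul])
    obtain ⟨k, -, hk⟩ := (hξ j).eq_pow_of_pow_eq_one h2
    exact ⟨k, by rw [hk, hεy]⟩
  choose k hk using key
  have hξ0 : ∀ j, ξ j ≠ 0 := fun j => (hξ j).ne_zero hpp.pos.ne'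
  refine ⟨fun i => - (k i : ℤ), ?_⟩
  obtain ⟨y', hy'⟩ : ∃ y', y' = y * ∏ i, (β i) ^ (- (k i : ℤ)) := ⟨_, rfl⟩
  rw [← hy']
  have hy'L : y' ∈ Lf b F (p ^ (n + 1)) (p ^ M) := by
    rw [hy']
    exact mul_mem hy (prod_mem fun i _ => zpow_mem (hβL i) _)
  have hσy' : ∀ j, σ j y' = y' := by
    intro j
    rw [hy', map_mul, hk j, map_prod]
    have h1 : ∀ i, σ j ((β i) ^ (- (k i : ℤ))) =
        (if i = j then (ξ j) ^ (- (k j : ℤ)) else 1) * (β i) ^ (- (k i : ℤ)) := by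
      intro i
      rw [map_zpow₀, hσβ, mul_zpow]
      congr 1
      split_ifs with h
      · rw [h]
      · exact one_zpow _
    rw [Finset.prod_congr rfl fun i _ => h1 i, Finset.prod_mul_distrib, Finset.prod_ite_eq',
      if_pos (Finset.mem_univ j), zpow_neg, zpow_natCast]
    field_simp [hξ0 j]
  have hσy't : ∀ j (t : ℕ), ((σ j) ^ t) y' = y' := by
    intro j t
    induction t with
    | zero => rw [pow_zero, AlgEquiv.one_apply]
    | succ t ih => rw [pow_succ', AlgEquiv.mul_apply, ih, hσy' j]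
  -- the induction
  have hind : ∀ T : Finset (Fin r), ∀ ρ : Ω ≃ₐ[K] Ω, (∀ x ∈ F, ρ x = x) →
      (∀ x : Ω, x ^ (p ^ M) = 1 → ρ x = x) → (∀ i, ρ (β i ^ p) = β i ^ p) →
      (∀ i, i ∉ T → ρ (β i) = β i) → ρ y' = y' := by
    intro T
    induction T using Finset.induction_on with
    | empty =>
      intro ρ h1 h2 h3 h4
      exact hagree ρ h1 (h2 ζ hζ.pow_eq_one) (fun i => h4 i (Finset.notMem_empty i)) y' hy'L
    | insert j T hj ih =>
      intro ρ h1 h2 h3 h4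
      have h5 : (ρ (β j) / β j) ^ p = 1 := by
        rw [div_pow, ← map_pow, h3, div_self (pow_ne_zero _ (hβ0 j))]
      have h6 : ((ρ (β j) / β j)⁻¹) ^ p = 1 := by rw [inv_pow, h5, inv_one]
      obtain ⟨c, -, hc⟩ := (hξ j).eq_pow_of_pow_eq_one h6
      have h7 : ρ (β j) = (ρ (β j) / β j) * β j := by rw [div_mul_cancel₀ _ (hβ0 j)]
      have h8 : ((σ j) ^ c * ρ) y' = y' := by
        refine ih ((σ j) ^ c * ρ) ?_ ?_ ?_ ?_
        · intro x hx
          rw [AlgEquiv.mul_apply, h1 x hx, hσFt j c x hx]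
        · intro x hx
          rw [AlgEquiv.mul_apply, h2 x hx, hσrt j c x hx]
        · intro i
          rw [AlgEquiv.mul_apply, h3 i, map_pow, hσβt, mul_pow, ← pow_mul, mul_comm c p,
            pow_mul]
          split_ifs
          · rw [(hξ j).pow_eq_one, one_pow, one_mul]
          · rw [one_pow, one_pow, one_mul]
        · intro i hi
          by_cases hij : i = j
          · subst hij
            rw [AlgEquiv.mul_apply, h7, map_mul, hσrt i c _ (hpM _ h5), hσβt, if_pos rfl, hc,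
              ← mul_assoc, mul_inv_cancel₀, one_mul]
            intro h0
            rw [h0, zero_pow hpp.pos.ne'] at h5
            exact zero_ne_one h5
          · rw [AlgEquiv.mul_apply, h4 i (by simp [hij, hi]), hσβt, if_neg hij, one_pow,
              one_mul]
      rw [AlgEquiv.mul_apply] at h8
      exact ((σ j) ^ c).injective (by rw [h8, hσy't])
  have hfinal : ∀ ρ : Ω ≃ₐ[K] Ω, (∀ z ∈ ((F : Set Ω) ∪ ({x | x ^ (p ^ M) = 1} ∪
      {x | ∃ i, x ^ (p ^ n) = algebraMap K Ω (b i)})), ρ z = z) → ρ y' = y' := by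
    intro ρ h1
    refine hind Finset.univ ρ (fun x hx => h1 x (Or.inl hx))
      (fun x hx => h1 x (Or.inr (Or.inl hx))) (fun i => ?_) (fun i hi => ?_)
    · refine h1 _ (Or.inr (Or.inr ⟨i, ?_⟩))
      rw [← pow_mul, ← pow_succ', hβ]
    · exact absurd (Finset.mem_univ i) hi
  exact mem_adjoin_of_fixed _ y' hfinal

end Pool.Agent.H72.RG
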