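import Pool.Agent.H72.RM.Defs

/-!
# Module KumAb: descent of radicals along tame and abelian extensions

`kum_tame`: `ε = τ x / x`, `ε^(p^j) = 1`, so `τ ε = ε` and `τ^i x = ε^i x` by induction; `i = N₀`:
`ε^(N₀) = 1`. As `N₀` is prime to `p^j`, `ε = 1`.
`kum_ab`: if `x = 0` then `b = 0` and `z = 0` works (`h₀ - 1 ≥ 1`). Let `x ≠ 0`; for `ρ : Ω ≃ₐ[k] Ω` put
`ε_ρ = ρ x / x`, so `ε_ρ^N = 1` (`ρ` fixes `b`). Let `s = ε_σ`. `σ (ρ x) = ρ (σ x)` gives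
`ε_ρ^(h₀) s = ρ(s) ε_ρ`, so `ρ(s) = ε_ρ^(h₀-1) s`. Put `z = x^(h₀-1) s⁻¹`: `ρ z = z` for all `ρ`, so `z` comes
from `k` (`mem_of_fixed` with `F = ⊥`), and `z^N = (x^N)^(h₀-1) = b^(h₀-1)`.
-/

set_option autoImplicit false

namespace Pool.Agent.H72.RG

open Pool.Agent.H72.RM

theorem kum_tame {Ω : Type} [Field Ω] (τ : Ω ≃+* Ω) (p : ℕ) [Fact p.Prime] (N₀ : ℕ)
    (hN : ¬ p ∣ N₀) (j : ℕ) (x : Ω) (hx : x ≠ 0) (h1 : (τ x) ^ (p ^ j) = x ^ (p ^ j))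
    (h2 : ∀ ε : Ω, ε ^ (p ^ j) = 1 → τ ε = ε) (h3 : (τ ^ N₀) x = x) : τ x = x := by
  have hp : p.Prime := Fact.out
  set ε : Ω := τ x / x with hε
  have hε1 : ε ^ (p ^ j) = 1 := by
    rw [hε, div_pow, h1, div_self (pow_ne_zero _ hx)]
  have hτx : τ x = ε * x := by rw [hε, div_mul_cancel₀ _ hx]
  have hτε : τ ε = ε := h2 ε hε1
  have hit : ∀ i : ℕ, (τ ^ i) x = ε ^ i * x := by
    intro i
    induction i with
    | zero => simp
    | succ i ih =>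
      have h4 : (τ ^ (i + 1)) x = τ ((τ ^ i) x) := by
        rw [pow_succ']
        rfl
      rw [h4, ih, map_mul, map_pow, hτε, hτx, pow_succ]
      ring
  have h5 : ε ^ N₀ = 1 := by
    have h6 := hit N₀
    rw [h3] at h6
    exact (mul_left_eq_self₀.1 h6.symm).resolve_right hx
  have hco : Nat.Coprime N₀ (p ^ j) :=
    Nat.Coprime.pow_right j ((Nat.Prime.coprime_iff_not_dvd hp).2 hN).symm
  have h7 : ε = 1 := by
    have h8 : orderOf ε ∣ Nat.gcd N₀ (p ^ j) :=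
      Nat.dvd_gcd (orderOf_dvd_of_pow_eq_one h5) (orderOf_dvd_of_pow_eq_one hε1)
    rw [Nat.Coprime.gcd_eq_one hco] at h8
    exact orderOf_eq_one_iff.1 (Nat.dvd_one.1 h8)
  rw [hτx, h7, one_mul]

theorem kum_ab {k Ω : Type} [Field k] [Field Ω] [Algebra k Ω] [IsGalois k Ω]
    (F : IntermediateField k Ω) (σ : Ω ≃ₐ[k] Ω)
    (hcomm : ∀ ρ : Ω ≃ₐ[k] Ω, ∀ x ∈ F, σ (ρ x) = ρ (σ x)) (N : ℕ) (hN : 1 ≤ N) (h₀ : ℕ)
    (hh : 2 ≤ h₀) (hσ : ∀ ε : Ω, ε ^ N = 1 → σ ε = ε ^ h₀) (x : Ω) (hx : x ∈ F) (b : k)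
    (hb : x ^ N = algebraMap k Ω b) : ∃ z : k, z ^ N = b ^ (h₀ - 1) := by
  by_cases hx0 : x = 0
  · refine ⟨0, ?_⟩
    have hb0 : b = 0 := by
      rw [hx0, zero_pow (by omega)] at hb
      exact (map_eq_zero (algebraMap k Ω)).1 hb.symm
    rw [hb0, zero_pow (by omega), zero_pow (by omega)]
  · obtain ⟨h, rfl⟩ : ∃ h, h₀ = h + 1 := ⟨h₀ - 1, by omega⟩
    rw [Nat.add_sub_cancel]
    have hroot : ∀ ρ : Ω ≃ₐ[k] Ω, (ρ x / x) ^ N = 1 := by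
      intro ρ
      rw [div_pow, ← map_pow, hb, AlgEquiv.commutes, ← hb, div_self (pow_ne_zero _ hx0)]
    have hρx : ∀ ρ : Ω ≃ₐ[k] Ω, ρ x = (ρ x / x) * x := fun ρ => (div_mul_cancel₀ _ hx0).symm
    set s : Ω := σ x / x with hs
    have hs0 : s ≠ 0 := div_ne_zero ((map_ne_zero σ).2 hx0) hx0
    have hsN : s ^ N = 1 := hroot σ
    set z : Ω := x ^ h * s⁻¹ with hz
    have hzfix : ∀ ρ : Ω ≃ₐ[k] Ω, ρ z = z := by
      intro ρ
      set e : Ω := ρ x / x with he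
      have he0 : e ≠ 0 := div_ne_zero ((map_ne_zero ρ).2 hx0) hx0
      have hrx : ρ x = e * x := hρx ρ
      have hsx : σ x = s * x := hρx σ
      have h1 : σ e = e ^ (h + 1) := hσ e (hroot ρ)
      have h2 := hcomm ρ x hx
      rw [hrx, map_mul, h1, hsx, map_mul, hrx] at h2
      have h3 : ρ s = e ^ h * s := by
        have h4 : e * x ≠ 0 := mul_ne_zero he0 hx0
        apply mul_right_cancel₀ h4
        rw [← h2, pow_succ]
        ring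
      rw [hz, map_mul, map_pow, map_inv₀, hrx, h3, mul_pow, mul_inv]
      have h5 : e ^ h ≠ 0 := pow_ne_zero _ he0
      field_simp
    have hzbot : z ∈ (⊥ : IntermediateField k Ω) :=
      mem_of_fixed ⊥ z fun ρ _ => hzfix ρ
    obtain ⟨w, hw⟩ := IntermediateField.mem_bot.1 hzbot
    refine ⟨w, ?_⟩
    apply (algebraMap k Ω).injective
    rw [map_pow, hw, hz, mul_pow, inv_pow, hsN, inv_one, mul_one, map_pow, ← hb, ← pow_mul,
      ← pow_mul, mul_comm]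

end Pool.Agent.H72.RG
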