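import Mathlib

/-!
# Module CharSep: characters of `(ℤ/p^n)^r` separate points from subgroups

Let `G = (Fin r → ZMod (p^n)) ⧸ A`, a finite abelian group, and `v̄ ≠ 0` the class of `v`. There is an additive
character `ψ : G → ℂ` with `ψ v̄ ≠ 1` (`AddChar.exists_apply_ne_zero` or similar; or
`CommGroup.exists_apply_ne_one_of_hasEnoughRootsOfUnity`). Pull it back to `Fin r → ZMod (p^n)`; the value at
the unit vector `e_i` is a `p^n`-th root of unity `exp(2πi m_i / p^n)`
(`Complex.isPrimitiveRoot_exp`, `IsPrimitiveRoot.eq_pow_of_pow_eq_one`), so `ψ a = ζ^(∑ m_i a_i)`,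
`ζ = exp(2πi/p^n)`, and `ζ^c = 1` iff `c = 0` in `ZMod (p^n)`.
Alternative without characters: `R = ZMod (p^n)` is a principal ideal ring (quotient of `ℤ`) and
self-injective; or use the Smith normal form of the sublattice of `ℤ^r` which is the preimage of `A`.
-/

set_option autoImplicit false

namespace Pool.Agent.H72.RG

theorem char_sep (p n r : ℕ) [Fact p.Prime] (A : AddSubgroup (Fin r → ZMod (p ^ n)))
    (v : Fin r → ZMod (p ^ n)) (hv : v ∉ A) :
    ∃ m : Fin r → ℤ, (∀ a ∈ A, ∑ i, (m i : ZMod (p ^ n)) * a i = 0) ∧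
      ∑ i, (m i : ZMod (p ^ n)) * v i ≠ 0 := by
  classical
  have hp0 : 0 < p ^ n := pow_pos (Fact.out : p.Prime).pos n
  haveI : NeZero (p ^ n) := ⟨hp0.ne'⟩
  haveI : Finite ((Fin r → ZMod (p ^ n)) ⧸ A) := inferInstance
  have hv' : (QuotientAddGroup.mk v : (Fin r → ZMod (p ^ n)) ⧸ A) ≠ 0 := by
    intro h
    exact hv ((QuotientAddGroup.eq_zero_iff v).1 h)
  obtain ⟨ψ, hψ⟩ := (AddChar.exists_apply_ne_zero).2 hv'
  set χ : (Fin r → ZMod (p ^ n)) → ℂ := fun a => ψ (QuotientAddGroup.mk a) with hχ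
  have hadd : ∀ a b, χ (a + b) = χ a * χ b := by
    intro a b
    simp only [hχ]
    rw [QuotientAddGroup.mk_add, AddChar.map_add_eq_mul]
  have hzero : χ 0 = 1 := by
    simp only [hχ]
    rw [QuotientAddGroup.mk_zero, AddChar.map_zero_eq_one]
  have hnsmul : ∀ (k : ℕ) a, χ (k • a) = χ a ^ k := by
    intro k a
    simp only [hχ]
    rw [QuotientAddGroup.mk_nsmul, AddChar.map_nsmul_eq_pow]
  have hsum : ∀ (s : Finset (Fin r)) (f : Fin r → (Fin r → ZMod (p ^ n))), χ (∑ i ∈ s, f i) = ∏ i ∈ s, χ (f i) := by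
    intro s f
    induction s using Finset.induction_on with
    | empty => simpa using hzero
    | insert a s ha ih => rw [Finset.sum_insert ha, Finset.prod_insert ha, hadd, ih]
  have hζ : IsPrimitiveRoot (Complex.exp (2 * Real.pi * Complex.I / ((p ^ n : ℕ) : ℂ))) (p ^ n) :=
    Complex.isPrimitiveRoot_exp (p ^ n) hp0.ne'
  set ζ := Complex.exp (2 * Real.pi * Complex.I / ((p ^ n : ℕ) : ℂ)) with hζdef
  have hroot : ∀ i, ∃ k : ℕ, ζ ^ k = χ (Pi.single i 1) := by
    intro i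
    have h1 : χ (Pi.single i (1 : ZMod (p ^ n))) ^ (p ^ n) = 1 := by
      rw [← hnsmul]
      have : (p ^ n) • (Pi.single i (1 : ZMod (p ^ n)) : Fin r → ZMod (p ^ n)) = 0 := by
        ext j
        simp only [Pi.smul_apply, Pi.zero_apply, nsmul_eq_mul, CharP.cast_eq_zero, zero_mul]
      rw [this, hzero]
    obtain ⟨k, _, hk⟩ := hζ.eq_pow_of_pow_eq_one h1
    exact ⟨k, hk⟩
  choose k hk using hroot
  have hval : ∀ a : Fin r → ZMod (p ^ n), χ a = ζ ^ (∑ i, k i * (a i).val) := by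
    intro a
    have h1 : a = ∑ i, (a i).val • (Pi.single i (1 : ZMod (p ^ n)) : Fin r → ZMod (p ^ n)) := by
      ext j
      rw [Finset.sum_apply]
      simp only [Pi.smul_apply, Pi.single_apply, nsmul_eq_mul, ZMod.natCast_val, ZMod.cast_id', id_eq, mul_ite, mul_one, mul_zero]
      simp
    conv_lhs => rw [h1]
    rw [hsum, ← Finset.prod_pow_eq_pow_sum]
    refine Finset.prod_congr rfl fun i _ => ?_
    rw [hnsmul, ← hk i, ← pow_mul]
  have hcast : ∀ a : Fin r → ZMod (p ^ n),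
      ((∑ i, k i * (a i).val : ℕ) : ZMod (p ^ n)) = ∑ i, (((k i : ℤ)) : ZMod (p ^ n)) * a i := by
    intro a
    push_cast
    refine Finset.sum_congr rfl fun i _ => ?_
    rw [ZMod.natCast_zmod_val]
  refine ⟨fun i => (k i : ℤ), ?_, ?_⟩
  · intro a ha
    rw [← hcast, ZMod.natCast_eq_zero_iff, ← hζ.pow_eq_one_iff_dvd, ← hval]
    simp only [hχ]
    rw [(QuotientAddGroup.eq_zero_iff a).2 ha, AddChar.map_zero_eq_one]
  · intro h
    rw [← hcast, ZMod.natCast_eq_zero_iff, ← hζ.pow_eq_one_iff_dvd, ← hval] at h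
    exact hψ h

end Pool.Agent.H72.RG
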