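import Pool.Agent.H72.RM.Defs
import Pool.Agent.H72.RG.CharSep

/-!
# Module KumDef: Kummer automorphisms with a bounded defect `D₀`

Let `n ≥ 1` or `n = 0` (then `ζ = 1`, `β i ∈ k`, take `σ = 1`; the general argument also works). For
`σ : Ω ≃ₐ[k] Ω` fixing `F` pointwise, `(σ (β i))^(p^n) = (β i)^(p^n)`, so `σ (β i) = ζ^(a_i) β i` with a unique
`a_i ∈ ZMod (p^n)`. As `σ ζ = ζ`, the set `A` of all the vectors `(a_i)` is an additive subgroup of
`Fin r → ZMod (p^n)` (closed under addition and, being finite, or by `σ⁻¹`, negation), see the proof of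
`kum_surj` (file `H72/RM/KumSurj.lean`) for the same construction. If `v = (D₀ a_i)` is in `A` we are done.
Otherwise `char_sep` gives `m : Fin r → ℤ` with `∑ m_i a_i = 0` on `A` and `∑ m_i D₀ a_i ≠ 0`. Put
`x = ∏ (β i)^(m i)`. `σ x = ζ^(∑ m_i a_i) x = x` for all `σ` fixing `F`, so `x ∈ F` (`mem_of_fixed`), and
`x^(p^n) = ∏ (b i)^(m i)`. By `ind` `p^n ∣ D₀ m_i` for all `i`, so `∑ m_i D₀ a_i = 0` in `ZMod (p^n)`:
contradiction.
-/

set_option autoImplicit false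

namespace Pool.Agent.H72.RG

open Pool.Agent.H72.RM

theorem kum_defect {k Ω : Type} [Field k] [Field Ω] [Algebra k Ω] [IsGalois k Ω] (p : ℕ)
    [Fact p.Prime] {r : ℕ} (b : Fin r → k) (hb : ∀ i, b i ≠ 0) (F : IntermediateField k Ω)
    (D₀ n : ℕ)
    (ind : ∀ m : Fin r → ℤ, ∀ x ∈ F, x ^ (p ^ n) = ∏ i, (algebraMap k Ω (b i)) ^ (m i) →
      ∀ i, (p : ℤ) ^ n ∣ D₀ * m i)
    (ζ : Ω) (hζ : IsPrimitiveRoot ζ (p ^ n)) (hζF : ζ ∈ F) (β : Fin r → Ω)
    (hβ : ∀ i, β i ^ (p ^ n) = algebraMap k Ω (b i)) (a : Fin r → ℕ) :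
    ∃ σ : Ω ≃ₐ[k] Ω, (∀ x ∈ F, σ x = x) ∧ ∀ i, σ (β i) = ζ ^ (D₀ * a i) * β i := by
  have hp : p.Prime := Fact.out
  have hN0 : 0 < p ^ n := pow_pos hp.pos n
  have : NeZero (p ^ n) := ⟨hN0.ne'⟩
  have hζ0 : ζ ≠ 0 := hζ.ne_zero hN0.ne'
  have hβ0 : ∀ i, β i ≠ 0 := by
    intro i h0
    have h1 := hβ i
    rw [h0, zero_pow hN0.ne'] at h1
    exact hb i ((map_eq_zero (algebraMap k Ω)).1 h1.symm)
  have hmod : ∀ x : ℕ, ζ ^ (x % p ^ n) = ζ ^ x := by
    intro x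
    conv_rhs => rw [← Nat.mod_add_div x (p ^ n), pow_add, pow_mul, hζ.pow_eq_one, one_pow,
      mul_one]
  have hadd : ∀ x y : ZMod (p ^ n), ζ ^ (x + y).val = ζ ^ x.val * ζ ^ y.val := by
    intro x y
    rw [ZMod.val_add, hmod, pow_add]
  have hneg : ∀ x : ZMod (p ^ n), ζ ^ (-x).val * ζ ^ x.val = 1 := by
    intro x
    rw [← hadd, neg_add_cancel, ZMod.val_zero, pow_zero]
  -- the subgroup of realized vectors
  let A : AddSubgroup (Fin r → ZMod (p ^ n)) :=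
    { carrier := {v | ∃ σ : Ω ≃ₐ[k] Ω, (∀ x ∈ F, σ x = x) ∧
        ∀ i, σ (β i) = ζ ^ (v i).val * β i}
      zero_mem' := by
        refine ⟨AlgEquiv.refl, fun x _ => rfl, fun i => ?_⟩
        rw [Pi.zero_apply, ZMod.val_zero, pow_zero, one_mul]
        rfl
      add_mem' := by
        rintro u v ⟨σ, hσ1, hσ2⟩ ⟨τ, hτ1, hτ2⟩
        refine ⟨τ.trans σ, fun x hx => ?_, fun i => ?_⟩
        · rw [AlgEquiv.trans_apply, hτ1 x hx, hσ1 x hx]
        · rw [AlgEquiv.trans_apply, hτ2 i, map_mul, map_pow, hσ1 ζ hζF, hσ2 i, Pi.add_apply,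
            hadd]
          ring
      neg_mem' := by
        rintro u ⟨σ, hσ1, hσ2⟩
        have h1 : ∀ x ∈ F, σ.symm x = x := by
          intro x hx
          rw [AlgEquiv.symm_apply_eq, hσ1 x hx]
        refine ⟨σ.symm, h1, fun i => ?_⟩
        have h2 := congrArg σ.symm (hσ2 i)
        rw [AlgEquiv.symm_apply_apply, map_mul, map_pow, h1 ζ hζF] at h2
        rw [Pi.neg_apply]
        conv_rhs => rw [h2]
        rw [← mul_assoc, hneg, one_mul] }
  have hAmem : ∀ v : Fin r → ZMod (p ^ n), v ∈ A ↔ ∃ σ : Ω ≃ₐ[k] Ω, (∀ x ∈ F, σ x = x) ∧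
        ∀ i, σ (β i) = ζ ^ (v i).val * β i := fun v => Iff.rfl
  by_cases hA : (fun i => ((D₀ * a i : ℕ) : ZMod (p ^ n))) ∈ A
  · obtain ⟨σ, hσ1, hσ2⟩ := (hAmem _).1 hA
    refine ⟨σ, hσ1, fun i => ?_⟩
    rw [hσ2 i, ZMod.val_natCast, hmod]
  · exfalso
    obtain ⟨m, hm, hm2⟩ := char_sep p n r A _ hA
    have hvec : ∀ σ : Ω ≃ₐ[k] Ω, (∀ x ∈ F, σ x = x) → ∃ v : Fin r → ZMod (p ^ n), v ∈ A ∧
        ∀ i, σ (β i) = ζ ^ (v i).val * β i := by
      intro σ hσ
      have h1 : ∀ i, ∃ j : ℕ, j < p ^ n ∧ σ (β i) = ζ ^ j * β i := by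
        intro i
        have h2 : (σ (β i) / β i) ^ (p ^ n) = 1 := by
          rw [div_pow, ← map_pow, hβ i, AlgEquiv.commutes, ← hβ i]
          exact div_self (pow_ne_zero _ (hβ0 i))
        obtain ⟨j, hj, hj2⟩ := hζ.eq_pow_of_pow_eq_one h2
        refine ⟨j, hj, ?_⟩
        rw [hj2, div_mul_cancel₀ _ (hβ0 i)]
      choose j hj1 hj2 using h1
      refine ⟨fun i => (j i : ZMod (p ^ n)), ?_, fun i => ?_⟩
      · rw [hAmem]
        refine ⟨σ, hσ, fun i => ?_⟩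
        rw [ZMod.val_natCast, hmod, hj2 i]
      · rw [ZMod.val_natCast, hmod, hj2 i]
    set x : Ω := ∏ i, β i ^ (m i) with hx
    have hxF : x ∈ F := by
      refine mem_of_fixed F x (fun σ hσ => ?_)
      obtain ⟨v, hvA, hv⟩ := hvec σ hσ
      have hc := hm v hvA
      have h3 : σ x = (∏ i, ζ ^ (((v i).val : ℤ) * m i)) * x := by
        rw [hx, map_prod, ← Finset.prod_mul_distrib]
        refine Finset.prod_congr rfl (fun i _ => ?_)
        rw [map_zpow₀, hv i, mul_zpow, ← zpow_natCast, ← zpow_mul]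
      have h4 : (∏ i, ζ ^ (((v i).val : ℤ) * m i))
          = ζ ^ (∑ i, ((v i).val : ℤ) * m i) := by
        have h5 : ∀ s : Finset (Fin r),
            (∏ i ∈ s, ζ ^ (((v i).val : ℤ) * m i))
            = ζ ^ (∑ i ∈ s, ((v i).val : ℤ) * m i) := by
          intro s
          induction s using Finset.induction_on with
          | empty => simp
          | insert i s hi ih =>
            rw [Finset.prod_insert hi, Finset.sum_insert hi, ih, zpow_add₀ hζ0]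
        exact h5 Finset.univ
      have h6 : ((p ^ n : ℕ) : ℤ) ∣ ∑ i, ((v i).val : ℤ) * m i := by
        rw [← ZMod.intCast_zmod_eq_zero_iff_dvd]
        push_cast
        simp only [ZMod.natCast_val, ZMod.cast_id', id_eq]
        rw [← hc]
        exact Finset.sum_congr rfl (fun i _ => mul_comm _ _)
      obtain ⟨t, ht⟩ := h6
      rw [h3, h4, ht, zpow_mul, zpow_natCast, hζ.pow_eq_one, one_zpow, one_mul]
    have hxp : x ^ (p ^ n) = ∏ i, (algebraMap k Ω (b i)) ^ (m i) := by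
      rw [hx, ← Finset.prod_pow]
      refine Finset.prod_congr rfl (fun i _ => ?_)
      rw [← hβ i, ← zpow_natCast (β i ^ (m i)) (p ^ n), ← zpow_mul,
        ← zpow_natCast (β i) (p ^ n), ← zpow_mul, mul_comm]
    have hdiv := ind m x hxF hxp
    apply hm2
    have h7 : ∀ i, (m i : ZMod (p ^ n)) * ((D₀ * a i : ℕ) : ZMod (p ^ n)) = 0 := by
      intro i
      have h8 : ((p ^ n : ℕ) : ℤ) ∣ (D₀ : ℤ) * m i := by
        rw [Nat.cast_pow]
        exact hdiv i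
      have h9 := (ZMod.intCast_zmod_eq_zero_iff_dvd ((D₀ : ℤ) * m i) (p ^ n)).2 h8
      push_cast at h9 ⊢
      calc (m i : ZMod (p ^ n)) * ((D₀ : ZMod (p ^ n)) * (a i : ZMod (p ^ n)))
          = ((D₀ : ZMod (p ^ n)) * (m i : ZMod (p ^ n))) * (a i : ZMod (p ^ n)) := by ring
        _ = 0 := by rw [h9, zero_mul]
    exact Finset.sum_eq_zero (fun i _ => h7 i)

end Pool.Agent.H72.RG
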