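import Pool.Agent.H72.RG.SData
import Pool.Agent.H72.RG.KumDef
import Pool.Agent.H72.RG.KumAb

/-!
# Module KumGlob: global Kummer automorphisms with bounded defect

Apply `kum_defect` with `k = K`, `F = IntermediateField.adjoin K (RF Ω b n' N₀ ∪ {x | x^(p^M) = 1})`,
`D₀ = h₀ - 1` (`ζ ∈ F` as `n ≤ M`).
`ind`: let `x ∈ F`, `x^(p^n) = ∏ (b i)^(m i)`; `x ≠ 0`. Let `F_c = IntermediateField.adjoin K {x | ∃ N ≥ 1, x^N = 1}`.
(i) `x ∈ F_c`: let `τ : Ω ≃ₐ[K] Ω` fix all roots of unity. For `w` with `w^(N₀) = b i`: `τ w = ω w`,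
`ω^(N₀) = 1`, `τ ω = ω`, so `τ^(N₀) w = w`; so `τ^(N₀)` fixes all generators of `F`, hence `x`. `kum_tame`
(`τ` as a ring automorphism, `j = n`): `τ x = x`. Conclude by `mem_adjoin_of_fixed`.
(ii) `kum_ab` with `F = F_c`, `N = p^n`, `σ` from `D.cyc n`: any two automorphisms commute on roots of unity
(each acts as a power map on the roots of unity of a given order), hence on `F_c`. So there is `z : K` with
`z^(p^n) = (∏ (b i)^(m i))^(h₀-1) = ∏ (b i)^((h₀-1) m i)`.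
(iii) `D.ind (p^n)`: `p^n ∣ (h₀ - 1) m i`.
-/

set_option autoImplicit false
set_option linter.unusedSectionVars false

open NumberField IntermediateField

namespace Pool.Agent.H72.RG

open Pool.Agent.H72.RM

variable {p : ℕ} [Fact p.Prime] {C : Type} [NormedField C] [NormedAlgebra ℚ_[p] C]
  {K Ω : Type} [Field K] [Field Ω] [CharZero Ω] [IsAlgClosed Ω] [Algebra K Ω]
  [IsGalois K Ω] {r : ℕ} {b : Fin r → K} {ι : Ω →+* C} {h₀ J : ℕ}

/-- two automorphisms commute on the field generated by the roots of unity -/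
private theorem comm_on_cyc {k Ω : Type} [Field k] [Field Ω] [Algebra k Ω] (σ ρ : Ω ≃ₐ[k] Ω)
    (x : Ω) (hx : x ∈ IntermediateField.adjoin k {x : Ω | ∃ N : ℕ, 1 ≤ N ∧ x ^ N = 1}) :
    σ (ρ x) = ρ (σ x) := by
  induction hx using IntermediateField.adjoin_induction with
  | mem y hy =>
    obtain ⟨N, hN, hyN⟩ := hy
    have hd : 0 < orderOf y := orderOf_pos_iff.2 (isOfFinOrder_iff_pow_eq_one.2 ⟨N, hN, hyN⟩)
    have hprim : IsPrimitiveRoot y (orderOf y) := IsPrimitiveRoot.orderOf y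
    have hne : NeZero (orderOf y) := ⟨hd.ne'⟩
    have key : ∀ τ : Ω ≃ₐ[k] Ω, ∃ j : ℕ, τ y = y ^ j := by
      intro τ
      have h1 : (τ y) ^ (orderOf y) = 1 := by
        rw [← map_pow, pow_orderOf_eq_one, map_one]
      obtain ⟨j, _, hj⟩ := hprim.eq_pow_of_pow_eq_one h1
      exact ⟨j, hj.symm⟩
    obtain ⟨i, hi⟩ := key σ
    obtain ⟨j, hj⟩ := key ρ
    rw [hj, hi, map_pow, map_pow, hi, hj, ← pow_mul, ← pow_mul, mul_comm]
  | algebraMap y => rw [ρ.commutes, σ.commutes, ρ.commutes]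
  | add y z _ _ hy hz => simp only [map_add, hy, hz]
  | inv y _ hy => simp only [map_inv₀, hy]
  | mul y z _ _ hy hz => simp only [map_mul, hy, hz]

private theorem algEquiv_pow_fix {k Ω : Type} [Field k] [Field Ω] [Algebra k Ω]
    (τ : Ω ≃ₐ[k] Ω) (y : Ω) (h : τ y = y) (N : ℕ) : (τ ^ N) y = y := by
  induction N with
  | zero => rfl
  | succ N ih =>
    rw [pow_succ, AlgEquiv.mul_apply, h, ih]

private theorem algEquiv_pow_smul {k Ω : Type} [Field k] [Field Ω] [Algebra k Ω]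
    (τ : Ω ≃ₐ[k] Ω) (w ω : Ω) (hw : τ w = ω * w) (hω : τ ω = ω) (N : ℕ) :
    (τ ^ N) w = ω ^ N * w := by
  induction N with
  | zero => simp
  | succ N ih =>
    rw [pow_succ, AlgEquiv.mul_apply, hw, map_mul, algEquiv_pow_fix τ ω hω, ih, pow_succ]
    ring

private theorem ringEquiv_pow_apply {k Ω : Type} [Field k] [Field Ω] [Algebra k Ω]
    (τ : Ω ≃ₐ[k] Ω) (N : ℕ) (x : Ω) : ((τ : Ω ≃+* Ω) ^ N) x = (τ ^ N) x := by
  induction N generalizing x with
  | zero => rfl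
  | succ N ih =>
    rw [pow_succ, pow_succ, RingAut.mul_apply, AlgEquiv.mul_apply, ih]
    rfl

theorem kum_glob (D : SData K Ω p C b ι h₀ J) (n' N₀ : ℕ) (hn' : 1 ≤ n') (hN₀ : 1 ≤ N₀)
    (hN : ¬ p ∣ N₀) (n M : ℕ) (hnM : n ≤ M) (ζ : Ω) (hζ : IsPrimitiveRoot ζ (p ^ n))
    (β : Fin r → Ω) (hβ : ∀ i, β i ^ (p ^ n) = algebraMap K Ω (b i)) (a : Fin r → ℕ) :
    ∃ σ : Ω ≃ₐ[K] Ω, (∀ x ∈ RF Ω b n' N₀, σ x = x) ∧ (∀ ε : Ω, ε ^ (p ^ M) = 1 → σ ε = ε) ∧
      ∀ i, σ (β i) = ζ ^ ((h₀ - 1) * a i) * β i := by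
  have hp : p.Prime := Fact.out
  have hpn : 1 ≤ p ^ n := pow_pos hp.pos n
  set F : IntermediateField K Ω :=
    IntermediateField.adjoin K ((RF Ω b n' N₀ : Set Ω) ∪ {x | x ^ (p ^ M) = 1}) with hF
  have hFM : ∀ ε : Ω, ε ^ (p ^ M) = 1 → ε ∈ F := fun ε hε =>
    IntermediateField.subset_adjoin K _ (Or.inr hε)
  have hFR : ∀ x ∈ RF Ω b n' N₀, x ∈ F := fun x hx =>
    IntermediateField.subset_adjoin K _ (Or.inl hx)
  have hζF : ζ ∈ F := by
    apply hFM
    obtain ⟨e, he⟩ := Nat.exists_eq_add_of_le hnM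
    rw [he, pow_add, pow_mul, hζ.pow_eq_one, one_pow]
  have hind : ∀ m : Fin r → ℤ, ∀ x ∈ F,
      x ^ (p ^ n) = ∏ i, (algebraMap K Ω (b i)) ^ (m i) → ∀ i, (p : ℤ) ^ n ∣ (h₀ - 1 : ℕ) * m i := by
    intro m x hxF hx
    have hbm0 : (∏ i, (b i) ^ (m i)) ≠ 0 :=
      Finset.prod_ne_zero_iff.2 fun i _ => zpow_ne_zero _ (D.ne i)
    have hxb : x ^ (p ^ n) = algebraMap K Ω (∏ i, (b i) ^ (m i)) := by
      rw [hx, map_prod]
      exact Finset.prod_congr rfl fun i _ => (map_zpow₀ _ _ _).symm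
    have hx0 : x ≠ 0 := by
      intro h0
      rw [h0, zero_pow (by omega)] at hxb
      exact hbm0 ((map_eq_zero (algebraMap K Ω)).1 hxb.symm)
    -- step (i): `x` is in the field generated by the roots of unity
    have hxc : x ∈ IntermediateField.adjoin K {x : Ω | ∃ N : ℕ, 1 ≤ N ∧ x ^ N = 1} := by
      refine mem_adjoin_of_fixed _ x fun τ hτ => ?_
      have hroot : ∀ (ε : Ω) (N : ℕ), 1 ≤ N → ε ^ N = 1 → τ ε = ε := fun ε N h1 h2 =>
        hτ ε ⟨N, h1, h2⟩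
      have h3 : (τ ^ N₀) x = x := by
        have h4 : ∀ y ∈ RF Ω b n' N₀, (τ ^ N₀) y = y := by
          intro y hy
          refine fixed_of_mem_adjoin _ ((τ ^ N₀ : Ω ≃ₐ[K] Ω) : Ω →ₐ[K] Ω) ?_ y hy
          intro w hw
          change (τ ^ N₀) w = w
          rcases hw with hw | hw | ⟨i, hw⟩
          · exact algEquiv_pow_fix τ w (hroot w n' hn' hw) N₀
          · exact algEquiv_pow_fix τ w (hroot w N₀ hN₀ hw) N₀
          · have hw0 : w ≠ 0 := by
              intro h0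
              rw [h0, zero_pow (by omega)] at hw
              exact D.ne i ((map_eq_zero (algebraMap K Ω)).1 hw.symm)
            have h5 : (τ w / w) ^ N₀ = 1 := by
              rw [div_pow, ← map_pow, hw, AlgEquiv.commutes, ← hw,
                div_self (pow_ne_zero _ hw0)]
            rw [algEquiv_pow_smul τ w (τ w / w) (div_mul_cancel₀ _ hw0).symm
              (hroot _ N₀ hN₀ h5), h5, one_mul]
        refine fixed_of_mem_adjoin _ ((τ ^ N₀ : Ω ≃ₐ[K] Ω) : Ω →ₐ[K] Ω) ?_ x hxF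
        intro w hw
        change (τ ^ N₀) w = w
        rcases hw with hw | hw
        · exact h4 w hw
        · exact algEquiv_pow_fix τ w (hroot w (p ^ M) (pow_pos hp.pos M) hw) N₀
      refine kum_tame (τ : Ω ≃+* Ω) p N₀ hN n x hx0 ?_ ?_ ?_
      · change (τ x) ^ (p ^ n) = x ^ (p ^ n)
        rw [← map_pow, hxb, AlgEquiv.commutes]
      · intro ε hε
        exact hroot ε (p ^ n) hpn hε
      · rw [ringEquiv_pow_apply]
        exact h3
    -- step (ii)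
    obtain ⟨σ, hσ⟩ := D.cyc n
    obtain ⟨z, hz⟩ := kum_ab _ σ (fun ρ y hy => comm_on_cyc σ ρ y hy) (p ^ n) hpn h₀ D.h_ge hσ
      x hxc (∏ i, (b i) ^ (m i)) hxb
    -- step (iii)
    have h6 : z ^ (p ^ n) = ∏ i, (b i) ^ (((h₀ - 1 : ℕ) : ℤ) * m i) := by
      rw [hz, ← Finset.prod_pow]
      refine Finset.prod_congr rfl fun i _ => ?_
      rw [mul_comm, zpow_mul, zpow_natCast]
    have h7 := D.ind (p ^ n) hpn _ z h6
    intro i
    have h8 := h7 i
    rwa [Nat.cast_pow] at h8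
  obtain ⟨σ, hσ1, hσ2⟩ := kum_defect p b D.ne F (h₀ - 1) n hind ζ hζ hζF β hβ a
  exact ⟨σ, fun x hx => hσ1 x (hFR x hx), fun ε hε => hσ1 ε (hFM ε hε), hσ2⟩

end Pool.Agent.H72.RG
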