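import Pool.Agent.H72.RG.MConj
import Pool.Agent.H72.RG.DescB
import Pool.Agent.H72.RG.KumGlob

/-!
# Module StepB: lowering the level of the radicals by one

`comm_b`: `τ⁻¹ β = δ⁻¹ β` (`τ δ = δ`), `τ⁻¹ (ε β) = ε δ⁻¹ β`, `θ (ε δ⁻¹ β) = θ(δ)⁻¹ θ (ε β) = θ(δ)⁻¹ β`
(as `ε β = θ⁻¹ β`), `τ (θ(δ)⁻¹ β) = θ(δ)⁻¹ δ β`.
`step_b`: write `h₀ - 1 = p^c₁ u`, `p ∤ u` (`D.h_ge`), `e = J + c₁ + 1`; `c`, `s`, `n₀` from `m_conj D e`;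
`n₁ = n₀ + J + c₁`. For `n ≥ n₁` let `n₂ = n - J - c₁ ≥ n₀`, so `n + 1 = n₂ + e`,
`M := n + 1 + J = n₂ + J + e`. `F = RF Ω b n' N₀` (stable: `rf_stable`), `θ₀` from `m_conj` at `n₂`. Let `ζ` be a
primitive `p^M`-th root of unity, `ζ₁ = ζ^(p^J)` (primitive `p^(n+1)`-th), `β i ^ (p^(n+1)) = b i`.
`kum_glob` (`n := n + 1`, `M := M`, `ζ := ζ₁`, `a = Pi.single j 1`) gives `τ_j` fixing `F` and all `p^M`-th roots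
of unity, `τ_j (β j) = δ β j`, `δ = ζ₁^(h₀-1)`, `τ_j (β i) = β i` for `i ≠ j`. Let
`σ j = τ_j * θ₀ * τ_j⁻¹ * θ₀⁻¹`.
* `σ j` fixes `F` (both factors do) and `ζ` (`θ₀⁻¹ ζ` is a power of `ζ`, fixed by `τ_j`).
* `comm_b` (`δ`, `θ₀⁻¹ (β i) = ε β i`, `θ₀ δ` are powers of `ζ` times ..: `ε^(p^(n+1)) = 1`, so all of
  `δ, ε, θ₀ δ` are `p^M`-th roots of unity, fixed by `τ_j`): `σ j (β j) = ξ (β j)`, `ξ = δ / θ₀ δ`, and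
  `σ j (β i) = β i` for `i ≠ j` (`δ = 1`).
* `ξ` is a primitive `p`-th root of unity: `δ = ζ^(p^(J+c₁) u)` is a primitive `p^(M-J-c₁)`-th root of unity,
  `M - J - c₁ = n₂ + J + 1`, so `θ₀ δ ≠ δ`, and `δ^p` is a `p^(n₂+J)`-th root of unity, in
  `Lf b F (p^(n₂)) (p^(n₂+J))`, fixed by `θ₀`; so `ξ^p = 1`, `ξ ≠ 1`.
* `m_conj` with `τ = 1` and `τ = τ_j`: `(θ₀ y)^(p^s) = y^(p^s)`, `(τ_j θ₀ τ_j⁻¹ y)^(p^s) = y^(p^s)`. Applying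
  `θ₀⁻¹` to the first: `(θ₀⁻¹ y)^(p^s) = y^(p^s)`, and then
  `(σ j y)^(p^s) = (τ_j θ₀ τ_j⁻¹) ((θ₀⁻¹ y)^(p^s)) = (τ_j θ₀ τ_j⁻¹) (y^(p^s)) = y^(p^s)`.
* `desc_b` with `θ'` from `m_conj` (or `D.loc 0`) at level `n + 1` (`n + 1 ≥ n₀`; take `n₁` large enough also
  for this): it fixes `Lf b F (p^(n+1)) (p^(n+1+J))` and moves the primitive `p^(n+1+J+1)`-th roots of unity.
  `γ' = (∏ (β i)^(m i))⁻¹`, `γ'^(p^(n+1)) = ∏ (b i)^(-m i)`.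
-/

set_option autoImplicit false
set_option linter.unusedSectionVars false

open NumberField IntermediateField

namespace Pool.Agent.H72.RG

open Pool.Agent.H72.RM

theorem comm_b {K Ω : Type} [Field K] [Field Ω] [Algebra K Ω] (τ θ : Ω ≃ₐ[K] Ω) (β δ ε : Ω)
    (hδ : δ ≠ 0) (h1 : τ β = δ * β) (h2 : τ δ = δ) (h3 : θ⁻¹ β = ε * β) (h4 : τ ε = ε)
    (h5 : τ (θ δ) = θ δ) : (τ * θ * τ⁻¹ * θ⁻¹) β = δ / θ δ * β := by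
  have hinv : ∀ (g : Ω ≃ₐ[K] Ω) (x y : Ω), g x = y → g⁻¹ y = x := by
    intro g x y h
    rw [← h]
    exact g.symm_apply_apply x
  have hθδ : θ δ ≠ 0 := by
    intro h
    exact hδ (by simpa using h)
  have h6 : τ⁻¹ β = δ⁻¹ * β := by
    apply hinv
    rw [map_mul, map_inv₀, h2, h1, ← mul_assoc, inv_mul_cancel₀ hδ, one_mul]
  have h7 : τ⁻¹ ε = ε := hinv τ ε ε h4
  have h8 : θ (ε * β) = β := by
    rw [← h3]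
    exact θ.apply_symm_apply β
  have h9 : (τ * θ * τ⁻¹ * θ⁻¹) β = τ (θ (τ⁻¹ (θ⁻¹ β))) := rfl
  rw [h9, h3, map_mul, h7, h6]
  have h10 : ε * (δ⁻¹ * β) = δ⁻¹ * (ε * β) := by ring
  rw [h10, map_mul, h8, map_mul, map_inv₀, map_inv₀, h5, h1]
  field_simp

variable {p : ℕ} [Fact p.Prime] {C : Type} [NormedField C] [NormedAlgebra ℚ_[p] C]
  [IsUltrametricDist C] [IsAlgClosed C] [Algebra.IsAlgebraic ℚ_[p] C] [IsoEnv p C]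
  {K Ω : Type} [Field K] [NumberField K] [Field Ω] [CharZero Ω] [IsAlgClosed Ω] [Algebra K Ω]
  [IsGalois K Ω] {r : ℕ} {b : Fin r → K} {ι : Ω →+* C} {h₀ J : ℕ}

theorem step_b (D : SData K Ω p C b ι h₀ J) :
    ∃ (c : ℝ) (n₁ : ℕ), 0 < c ∧ ∀ n : ℕ, n₁ ≤ n → ∀ n' N₀ : ℕ, 1 ≤ n' → 1 ≤ N₀ →
      ¬ p ∣ n' → ¬ p ∣ N₀ → ∀ γ y : Ω, γ ≠ 0 → y ≠ 0 →
      (∀ θ : Ω ≃ₐ[K] Ω, ∃ k : ℕ, 1 ≤ k ∧ (θ γ) ^ k = γ ^ k) →
      y ∈ Lf b (RF Ω b n' N₀) (p ^ (n + 1)) (p ^ (n + 1 + J)) → absLogHeight₁ (γ * y) < c →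
      ∃ γ' : Ω, γ' ≠ 0 ∧
        (∃ m : Fin r → ℤ, γ' ^ (p ^ (n + 1)) = ∏ i, (algebraMap K Ω (b i)) ^ (m i)) ∧
        y / γ' ∈ Lf b (RF Ω b n' N₀) (p ^ n) (p ^ (n + 1 + J)) := by
  have hpp : p.Prime := Fact.out
  have hh := D.h_ge
  obtain ⟨c₁, u, hu, hd⟩ := Nat.exists_eq_pow_mul_and_not_dvd (n := h₀ - 1) (by omega) p hpp.ne_one
  obtain ⟨c, s, n₀, hc, hm⟩ := m_conj D (J + c₁ + 1)
  refine ⟨c, n₀ + J + c₁, hc, ?_⟩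
  intro n hn n' N₀ hn' hN₀ hpn' hpN₀ γ y hγ0 hy0 hγ hy hh'
  obtain ⟨n₂, hn₂⟩ : ∃ n₂, n = n₂ + J + c₁ := ⟨n - J - c₁, by omega⟩
  obtain ⟨θ₀, hθfix, hθmov, hθc⟩ := hm n₂ (by omega) n' N₀ hn' hN₀ hpn' hpN₀
  obtain ⟨θ', hθ'fix, hθ'mov, -⟩ := hm (n + 1) (by omega) n' N₀ hn' hN₀ hpn' hpN₀
  have he1 : n₂ + (J + c₁ + 1) = n + 1 := by omega
  have he2 : n₂ + J + (J + c₁ + 1) = n + 1 + J := by omega
  rw [he1, he2] at hθc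
  obtain ⟨M, hM⟩ : ∃ M, M = n + 1 + J := ⟨_, rfl⟩
  rw [← hM] at hθc hθ'fix hθ'mov hy ⊢
  set F := RF Ω b n' N₀ with hFdef
  have hF : ∀ σ : Ω ≃ₐ[K] Ω, ∀ x ∈ F, σ x ∈ F := fun σ x hx => rf_stable b n' N₀ σ x hx
  have hMpos : 0 < p ^ M := pow_pos hpp.pos M
  have hNZ : NeZero (p ^ M) := ⟨hMpos.ne'⟩
  obtain ⟨ζ, hζ⟩ := HasEnoughRootsOfUnity.exists_primitiveRoot Ω (p ^ M)
  have hζ₁ : IsPrimitiveRoot (ζ ^ (p ^ J)) (p ^ (n + 1)) := by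
    refine hζ.pow hMpos ?_
    rw [← pow_add]
    congr 1
    omega
  have hβex : ∀ i : Fin r, ∃ z : Ω, z ^ (p ^ (n + 1)) = algebraMap K Ω (b i) := fun i =>
    IsAlgClosed.exists_pow_nat_eq _ (pow_pos hpp.pos _)
  choose β hβ using hβex
  have hTex : ∀ j : Fin r, ∃ σ : Ω ≃ₐ[K] Ω, (∀ x ∈ F, σ x = x) ∧
      (∀ ε : Ω, ε ^ (p ^ M) = 1 → σ ε = ε) ∧
      ∀ i, σ (β i) = (ζ ^ (p ^ J)) ^ ((h₀ - 1) * (Pi.single j 1 : Fin r → ℕ) i) * β i :=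
    fun j => kum_glob D n' N₀ hn' hN₀ hpN₀ (n + 1) M (by omega) (ζ ^ (p ^ J)) hζ₁ β hβ
      (Pi.single j 1)
  choose T hTF hTζ hTβ using hTex
  obtain ⟨δ, hδ⟩ : ∃ δ, δ = (ζ ^ (p ^ J)) ^ (h₀ - 1) := ⟨_, rfl⟩
  have hinv : ∀ (g : Ω ≃ₐ[K] Ω) (x y : Ω), g x = y → g⁻¹ y = x := by
    intro g x y h
    rw [← h]
    exact g.symm_apply_apply x
  have hinv2 : ∀ (g : Ω ≃ₐ[K] Ω) (x : Ω), g (g⁻¹ x) = x := fun g x => g.apply_symm_apply x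
  have hinv3 : ∀ (g : Ω ≃ₐ[K] Ω) (x : Ω), g⁻¹ (g x) = x := fun g x => g.symm_apply_apply x
  -- `δ` is a primitive root of unity
  have hδprim : IsPrimitiveRoot δ (p ^ (n₂ + J + 1)) := by
    have h1 : IsPrimitiveRoot (ζ ^ (p ^ (J + c₁))) (p ^ (n₂ + J + 1)) := by
      refine hζ.pow hMpos ?_
      rw [← pow_add]
      congr 1
      omega
    have h2 : δ = (ζ ^ (p ^ (J + c₁))) ^ u := by
      rw [hδ, hd, ← pow_mul, ← pow_mul, pow_add, mul_assoc]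
    rw [h2]
    refine h1.pow_of_coprime u (Nat.Coprime.pow_right _ ?_)
    rw [Nat.coprime_comm]
    exact (Nat.Prime.coprime_iff_not_dvd hpp).2 hu
  have hδ0 : δ ≠ 0 := hδprim.ne_zero (pow_pos hpp.pos _).ne'
  have hδM : δ ^ (p ^ M) = 1 := by
    rw [hδ, ← pow_mul, ← pow_mul, ← mul_assoc, mul_comm (p ^ J * (h₀ - 1)), pow_mul,
      hζ.pow_eq_one, one_pow]
  have hθδM : (θ₀ δ) ^ (p ^ M) = 1 := by rw [← map_pow, hδM, map_one]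
  have hθδ : θ₀ δ ≠ δ := hθmov δ hδprim
  have hθδ0 : θ₀ δ ≠ 0 := by
    intro h
    exact hδ0 (by simpa using h)
  have hθδp : (θ₀ δ) ^ p = δ ^ p := by
    rw [← map_pow]
    apply hθfix
    refine IntermediateField.subset_adjoin K _ (Or.inr (Or.inl ?_))
    show (δ ^ p) ^ (p ^ (n₂ + J)) = 1
    rw [← pow_mul, ← pow_succ', hδprim.pow_eq_one]
  have hξ : IsPrimitiveRoot (δ / θ₀ δ) p := by
    have h1 : (δ / θ₀ δ) ^ p = 1 := by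
      rw [div_pow, hθδp, div_self (pow_ne_zero _ hδ0)]
    have h2 : δ / θ₀ δ ≠ 1 := by
      intro h
      rw [div_eq_one_iff_eq hθδ0] at h
      exact hθδ h.symm
    have h3 := orderOf_eq_prime h1 h2
    have h4 := IsPrimitiveRoot.orderOf (δ / θ₀ δ)
    rw [h3] at h4
    exact h4
  -- the action of `T j`
  have hTj : ∀ j, T j (β j) = δ * β j := by
    intro j
    rw [hTβ j j, Pi.single_eq_same, mul_one, ← hδ]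
  have hTi : ∀ j i, i ≠ j → T j (β i) = 1 * β i := by
    intro j i hij
    rw [hTβ j i, Pi.single_eq_of_ne hij, mul_zero, pow_zero]
  have hβ0 : ∀ i, β i ≠ 0 := by
    intro i h
    have h1 := hβ i
    rw [h, zero_pow (pow_pos hpp.pos _).ne'] at h1
    exact D.ne i ((map_eq_zero (algebraMap K Ω)).1 h1.symm)
  have hε : ∀ i, ∃ ε : Ω, θ₀⁻¹ (β i) = ε * β i ∧ ε ^ (p ^ M) = 1 := by
    intro i
    refine ⟨θ₀⁻¹ (β i) / β i, (div_mul_cancel₀ _ (hβ0 i)).symm, ?_⟩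
    have h1 : (θ₀⁻¹ (β i)) ^ (p ^ (n + 1)) = (β i) ^ (p ^ (n + 1)) := by
      rw [← map_pow, hβ i, AlgEquiv.commutes]
    have h2 : (θ₀⁻¹ (β i) / β i) ^ (p ^ (n + 1)) = 1 := by
      rw [div_pow, h1, div_self (pow_ne_zero _ (hβ0 i))]
    have h3 : p ^ M = p ^ (n + 1) * p ^ J := by
      rw [hM, pow_add]
    rw [h3, pow_mul, h2, one_pow]
  choose ε hε1 hε2 using hε
  -- the commutators
  have hθF : ∀ x ∈ F, θ₀ x = x := fun x hx => hθfix x (lf2_base b F _ _ hx)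
  have hSF : ∀ j, ∀ x ∈ F, (T j * θ₀ * (T j)⁻¹ * θ₀⁻¹) x = x := by
    intro j x hx
    have h1 : (T j * θ₀ * (T j)⁻¹ * θ₀⁻¹) x = T j (θ₀ ((T j)⁻¹ (θ₀⁻¹ x))) := rfl
    rw [h1, hinv θ₀ x x (hθF x hx), hinv (T j) x x (hTF j x hx), hθF x hx, hTF j x hx]
  have hSζ : ∀ j, (T j * θ₀ * (T j)⁻¹ * θ₀⁻¹) ζ = ζ := by
    intro j
    have h1 : (T j * θ₀ * (T j)⁻¹ * θ₀⁻¹) ζ = T j (θ₀ ((T j)⁻¹ (θ₀⁻¹ ζ))) := rfl
    have h2 : (θ₀⁻¹ ζ) ^ (p ^ M) = 1 := by rw [← map_pow, hζ.pow_eq_one, map_one]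
    rw [h1, hinv (T j) (θ₀⁻¹ ζ) (θ₀⁻¹ ζ) (hTζ j _ h2), hinv2, hTζ j ζ hζ.pow_eq_one]
  have hSβ : ∀ j i, (T j * θ₀ * (T j)⁻¹ * θ₀⁻¹) (β i) =
      (if i = j then δ / θ₀ δ else 1) * β i := by
    intro j i
    by_cases hij : i = j
    · subst hij
      rw [if_pos rfl]
      exact comm_b (T i) θ₀ (β i) δ (ε i) hδ0 (hTj i) (hTζ i δ hδM) (hε1 i) (hTζ i _ (hε2 i))
        (hTζ i _ hθδM)
    · rw [if_neg hij]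
      have h1 := comm_b (T j) θ₀ (β i) 1 (ε i) one_ne_zero (hTi j i hij) (map_one _) (hε1 i)
        (hTζ j _ (hε2 i)) (by rw [map_one, map_one])
      rw [map_one, div_one] at h1
      exact h1
  have hθ1 : (θ₀ y) ^ (p ^ s) = y ^ (p ^ s) := hθc 1 γ y hγ0 hy0 hγ hy hh'
  have hSy : ∀ j, ((T j * θ₀ * (T j)⁻¹ * θ₀⁻¹) y) ^ (p ^ s) = y ^ (p ^ s) := by
    intro j
    have h1 := hθc (T j) γ y hγ0 hy0 hγ hy hh'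
    have h2 : (T j * θ₀ * (T j)⁻¹ * θ₀⁻¹) y = (T j * θ₀ * (T j)⁻¹) (θ₀⁻¹ y) := rfl
    have h3 : (θ₀⁻¹ y) ^ (p ^ s) = y ^ (p ^ s) := by
      have h4 := congrArg (fun z => θ₀⁻¹ z) hθ1
      simp only [map_pow, hinv3] at h4
      exact h4.symm
    rw [h2, ← map_pow, h3, map_pow, h1]
  obtain ⟨m, hmem⟩ := desc_b p b D.ne F hF n M (by omega) θ' hθ'fix hθ'mov ζ hζ β hβ
    (fun j => T j * θ₀ * (T j)⁻¹ * θ₀⁻¹) hSF hSζ (fun _ => δ / θ₀ δ) (fun _ => hξ) hSβ y hy hy0 s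
    hSy
  have hprod0 : ∏ i, (β i) ^ (m i) ≠ 0 :=
    Finset.prod_ne_zero_iff.2 fun i _ => zpow_ne_zero _ (hβ0 i)
  refine ⟨(∏ i, (β i) ^ (m i))⁻¹, inv_ne_zero hprod0, ⟨fun i => -m i, ?_⟩, ?_⟩
  · rw [inv_pow, ← Finset.prod_pow, ← Finset.prod_inv_distrib]
    refine Finset.prod_congr rfl fun i _ => ?_
    rw [← hβ i, zpow_neg, ← zpow_natCast, ← zpow_natCast, ← zpow_mul, ← zpow_mul, mul_comm]
  · rw [div_inv_eq_mul]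
    exact hmem

end Pool.Agent.H72.RG
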