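import Pool.Agent.H72.RG.SData
import Pool.Agent.H72.RM.RFa

/-!
# Module LfFacts: elementary facts on the level fields `Lf b F n M = F(μ_M, b_i^(1/n))`

`lf2_stable`: automorphisms permute the generators (`adjoin_stable_aux`, file `H72/RM/RFa.lean`).
`lf2_finite`: as `rf_finite` in `H72/RM/RFa.lean` (`Lf = F ⊔ K(finite set)`).
`lf2_mono`: `x^M = 1` gives `x^(M') = 1`; if `x^n = b_i` choose `y` with `y^(n'/n) = x` (algebraically closed),
then `y^(n') = b_i` and `x` is a power of `y`.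
`lf2_gen`: `n ∣ M`: if `x^M = 1` then `x` is a power of `ζ`; if `x^n = b_i` then `(x / β i)^n = 1`, so
`(x / β i)^M = 1` and `x = ζ^j β i`.
`rf_le_lf2`: `rf_le_lf` (file `H72/RM/RFa.lean`) and `LF b F (p^k) ≤ Lf b F (p^k) (p^k)` (generators).
`lf2_le_rf`: on generators: `rf_mono` for `RF Ω b n' N₀ ≤ RF Ω b n' (p^M N₀)`; `x^(p^M) = 1` gives
`x^(p^M N₀) = 1`; if `x^(p^n) = b_i` choose `y` with `y^(p^(M-n) N₀) = x`.
-/

set_option autoImplicit false
set_option linter.unusedSectionVars false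

open NumberField IntermediateField

namespace Pool.Agent.H72.RG

open Pool.Agent.H72.RM

variable {K Ω : Type} [Field K] [Field Ω] [CharZero Ω] [IsAlgClosed Ω] [Algebra K Ω]
  [IsGalois K Ω] {r : ℕ}

theorem lf2_base (b : Fin r → K) (F : IntermediateField K Ω) (n M : ℕ) : F ≤ Lf b F n M :=
  fun _ hx => IntermediateField.subset_adjoin K _ (Or.inl hx)

theorem lf2_stable (b : Fin r → K) (F : IntermediateField K Ω)
    (hF : ∀ σ : Ω ≃ₐ[K] Ω, ∀ x ∈ F, σ x ∈ F) (n M : ℕ) (σ : Ω ≃ₐ[K] Ω) (x : Ω)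
    (hx : x ∈ Lf b F n M) : σ x ∈ Lf b F n M := by
  refine adjoin_stable_aux _ σ (fun y hy => IntermediateField.subset_adjoin K _ ?_) x hx
  rcases hy with h | h | ⟨i, h⟩
  · exact Or.inl (hF σ y h)
  · exact Or.inr (Or.inl (by
      have h' : y ^ M = 1 := h
      show (σ y) ^ M = 1
      rw [← map_pow, h', map_one]))
  · exact Or.inr (Or.inr ⟨i, by rw [← map_pow, h, AlgEquiv.commutes]⟩)

theorem lf2_finite (b : Fin r → K) (F : IntermediateField K Ω) [FiniteDimensional K F] (n M : ℕ)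
    (hn : 1 ≤ n) (hM : 1 ≤ M) : FiniteDimensional K (Lf b F n M) := by
  have h1 : ({x : Ω | x ^ M = 1} ∪ {x : Ω | ∃ i, x ^ n = algebraMap K Ω (b i)}).Finite := by
    have h2 : {x : Ω | ∃ i, x ^ n = algebraMap K Ω (b i)} ⊆
        ⋃ i, {x : Ω | x ^ n = algebraMap K Ω (b i)} := by
      rintro x ⟨i, h⟩
      exact Set.mem_iUnion.2 ⟨i, h⟩
    exact (finite_pow_eq_aux M hM 1).union
      (Set.Finite.subset (Set.finite_iUnion fun i => finite_pow_eq_aux n hn _) h2)
  have := h1.to_subtype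
  have h3 : FiniteDimensional K (IntermediateField.adjoin K
      ({x : Ω | x ^ M = 1} ∪ {x : Ω | ∃ i, x ^ n = algebraMap K Ω (b i)})) :=
    IntermediateField.finiteDimensional_adjoin fun x _ => Algebra.IsIntegral.isIntegral x
  have h4 : Lf b F n M = F ⊔ IntermediateField.adjoin K
      ({x : Ω | x ^ M = 1} ∪ {x : Ω | ∃ i, x ^ n = algebraMap K Ω (b i)}) := by
    unfold Lf
    rw [IntermediateField.adjoin_union, IntermediateField.adjoin_self]
  rw [h4]
  exact IntermediateField.finiteDimensional_sup _ _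

theorem lf2_mono (b : Fin r → K) (F : IntermediateField K Ω) (n M n' M' : ℕ) (hn : n ∣ n')
    (hM : M ∣ M') (hn' : 1 ≤ n') : Lf b F n M ≤ Lf b F n' M' := by
  obtain ⟨c, rfl⟩ := hn
  obtain ⟨e, rfl⟩ := hM
  rw [Lf, IntermediateField.adjoin_le_iff]
  rintro x (h | h | ⟨i, h⟩)
  · exact IntermediateField.subset_adjoin K _ (Or.inl h)
  · refine IntermediateField.subset_adjoin K _ (Or.inr (Or.inl ?_))
    have h' : x ^ M = 1 := h
    show x ^ (M * e) = 1
    rw [pow_mul, h', one_pow]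
  · have he : 0 < c := by
      rcases Nat.eq_zero_or_pos c with h0 | h0
      · rw [h0, mul_zero] at hn'; omega
      · exact h0
    obtain ⟨y, hy⟩ := IsAlgClosed.exists_pow_nat_eq x he
    have h1 : y ∈ Lf b F (n * c) (M * e) := by
      refine IntermediateField.subset_adjoin K _ (Or.inr (Or.inr ⟨i, ?_⟩))
      rw [mul_comm n c, pow_mul, hy, h]
    rw [← hy]
    exact pow_mem h1 c

theorem lf2_gen (b : Fin r → K) (hb : ∀ i, b i ≠ 0) (F : IntermediateField K Ω) (n M : ℕ)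
    (hn : 1 ≤ n) (hM : 1 ≤ M) (hnM : n ∣ M) (ζ : Ω) (hζ : IsPrimitiveRoot ζ M) (β : Fin r → Ω)
    (hβ : ∀ i, β i ^ n = algebraMap K Ω (b i)) :
    Lf b F n M = IntermediateField.adjoin K ((F : Set Ω) ∪ ({ζ} ∪ Set.range β)) := by
  apply le_antisymm
  · rw [Lf, IntermediateField.adjoin_le_iff]
    have hz : ζ ∈ IntermediateField.adjoin K ((F : Set Ω) ∪ ({ζ} ∪ Set.range β)) :=
      IntermediateField.subset_adjoin K _ (Or.inr (Or.inl rfl))
    have hroot : ∀ x : Ω, x ^ M = 1 →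
        x ∈ IntermediateField.adjoin K ((F : Set Ω) ∪ ({ζ} ∪ Set.range β)) := by
      intro x hx
      have : NeZero M := ⟨by omega⟩
      obtain ⟨j, _, hj⟩ := hζ.eq_pow_of_pow_eq_one hx
      rw [← hj]
      exact pow_mem hz j
    rintro x (h | h | ⟨i, h⟩)
    · exact IntermediateField.subset_adjoin K _ (Or.inl h)
    · exact hroot x h
    · have hβ0 : β i ≠ 0 := by
        intro h0
        have h1 := hβ i
        rw [h0, zero_pow (by omega)] at h1
        exact hb i ((map_eq_zero (algebraMap K Ω)).1 h1.symm)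
      have h1 : (x / β i) ^ M = 1 := by
        obtain ⟨c, rfl⟩ := hnM
        rw [pow_mul, div_pow, h, hβ i, div_self, one_pow]
        intro h2
        exact hb i ((map_eq_zero (algebraMap K Ω)).1 h2)
      have h2 := hroot _ h1
      have h3 : β i ∈ IntermediateField.adjoin K ((F : Set Ω) ∪ ({ζ} ∪ Set.range β)) :=
        IntermediateField.subset_adjoin K _ (Or.inr (Or.inr ⟨i, rfl⟩))
      have h4 : x = (x / β i) * β i := by rw [div_mul_cancel₀ _ hβ0]
      rw [h4]
      exact mul_mem h2 h3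
  · rw [IntermediateField.adjoin_le_iff]
    rintro x (h | h | ⟨i, rfl⟩)
    · exact IntermediateField.subset_adjoin K _ (Or.inl h)
    · refine IntermediateField.subset_adjoin K _ (Or.inr (Or.inl ?_))
      have h' : x = ζ := h
      show x ^ M = 1
      rw [h', hζ.pow_eq_one]
    · exact IntermediateField.subset_adjoin K _ (Or.inr (Or.inr ⟨i, hβ i⟩))

theorem rf_le_lf2 (b : Fin r → K) (p k n' N₀ : ℕ) (hp : p.Prime) (hN : ¬ p ∣ N₀) :
    RF Ω b n' (p ^ k * N₀) ≤ Lf b (RF Ω b n' N₀) (p ^ k) (p ^ k) := by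
  refine le_trans (rf_le_lf b p k n' N₀ hp hN) ?_
  rw [LF, IntermediateField.adjoin_le_iff]
  rintro x (h | h | ⟨i, h⟩)
  · exact IntermediateField.subset_adjoin K _ (Or.inl h)
  · exact IntermediateField.subset_adjoin K _ (Or.inr (Or.inl h))
  · exact IntermediateField.subset_adjoin K _ (Or.inr (Or.inr ⟨i, h⟩))

theorem lf2_le_rf (b : Fin r → K) (p n M n' N₀ : ℕ) (hp : p.Prime) (hn' : 1 ≤ n') (hN : 1 ≤ N₀)
    (hnM : n ≤ M) : Lf b (RF Ω b n' N₀) (p ^ n) (p ^ M) ≤ RF Ω b n' (p ^ M * N₀) := by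
  rw [Lf, IntermediateField.adjoin_le_iff]
  rintro x (h | h | ⟨i, h⟩)
  · exact rf_mono b n' N₀ n' (p ^ M * N₀) (dvd_refl n') (dvd_mul_left _ _) hn'
      (Nat.mul_pos (pow_pos hp.pos M) hN) h
  · refine IntermediateField.subset_adjoin K _ (Or.inr (Or.inl ?_))
    have h' : x ^ (p ^ M) = 1 := h
    rw [pow_mul, h', one_pow]
  · have he : 0 < p ^ (M - n) * N₀ := Nat.mul_pos (pow_pos hp.pos _) hN
    obtain ⟨y, hy⟩ := IsAlgClosed.exists_pow_nat_eq x he
    have h1 : y ∈ RF Ω b n' (p ^ M * N₀) := by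
      refine IntermediateField.subset_adjoin K _ (Or.inr (Or.inr ⟨i, ?_⟩))
      have h2 : p ^ M * N₀ = (p ^ (M - n) * N₀) * p ^ n := by
        rw [mul_right_comm, ← pow_add, Nat.sub_add_cancel hnM]
      rw [h2, pow_mul, hy, h]
    rw [← hy]
    exact pow_mem h1 _

end Pool.Agent.H72.RG
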