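import Pool.Agent.H72.RG.LfFacts
import Pool.Agent.H72.RG.PowTrick

/-!
# Module DescZ: descent in the direction of the roots of unity

`L = Lf b F (p^n) (p^(M+1))`, `L₁ = Lf b F (p^n) (p^M)`, `2 ≤ M`, `n ≤ M`. Let `ζ` be a primitive
`p^(M+1)`-th root of unity, `β i ^ (p^n) = b i`; `L = K(F, ζ, β)`, `L₁ = K(F, ζ^p, β)` (`lf2_gen`), stable.
1. If `ε ∈ L`, `ε^(p^k) = 1` for some `k`, then `ε^(p^(M+1)) = 1` (`θ'` fixes `L` and moves primitive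
   `p^(M+2)`-th roots of unity).
2. `θ` fixes `L₁ ∋ ζ^p`, so `θ ζ = ξ ζ`, `ξ^p = 1`, `ξ ≠ 1`; `ξ` is a power of `ζ^p` (`M ≥ 1`), `θ ξ = ξ`.
   Write `ξ = ζ^(p^M u)`, so `θ ζ = ζ^(1+q)`, `q = p^M u`, `p^2 ∣ q`.
3. `θ y = ε y`, `ε^(p^s) = 1`, `ε = θ y / y ∈ L`, so `ε` is a power of `ζ`, `θ ε = ε^(1+q)`. `θ^p` fixes `F`, `β`
   and `ζ` (`θ^p ζ = ξ^p ζ`), hence `y`: `y = θ^p y = ε^(∑_{i<p} (1+q)^i) y`, and
   `∑_{i<p} (1+q)^i = p (1 + p t)` (`sum_pow`, module PowTrick), `ε` has `p`-power order, so `ε^p = 1`,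
   `ε = ξ^k` with `k : ℕ`. Put `y' = y ζ^(-k)`, i.e. multiply by the `p^(M+1)`-th root of unity `ζ^(-k)`
   (`(ζ⁻¹)^k`): `θ y' = ε ξ^(-k) y' = y'`.
4. `y' ∈ L₁` by `mem_adjoin_of_fixed`: let `ρ` fix `F`, all `x` with `x^(p^M) = 1` and all `x` with
   `x^(p^n) = b i`. Then `ρ ζ = ω ζ`, `ω^p = 1`, `ω = ξ^c`, and `ρ` agrees with `θ^c` on `F`, `β`, `ζ`
   (`θ ξ = ξ`), so on `L`; `ρ y' = θ^c y' = y'`.
-/

set_option autoImplicit false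
set_option linter.unusedSectionVars false

open NumberField IntermediateField

namespace Pool.Agent.H72.RG

open Pool.Agent.H72.RM

variable {K Ω : Type} [Field K] [Field Ω] [CharZero Ω] [IsAlgClosed Ω] [Algebra K Ω]
  [IsGalois K Ω] {r : ℕ}

private theorem desc_root {p : ℕ} (hp : p.Prime) {x : Ω} (k m : ℕ) (hx : x ^ (p ^ k) = 1)
    (h : ∀ z : Ω, IsPrimitiveRoot z (p ^ (m + 1)) → ∀ j : ℕ, x ^ j ≠ z) : x ^ (p ^ m) = 1 := by
  obtain ⟨j, hjk, hj⟩ := (Nat.dvd_prime_pow hp).1 (orderOf_dvd_of_pow_eq_one hx)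
  rcases Nat.lt_or_ge m j with hlt | hge
  · exfalso
    have h1 : IsPrimitiveRoot x (p ^ j) := hj ▸ IsPrimitiveRoot.orderOf x
    have h2 : IsPrimitiveRoot (x ^ (p ^ (j - (m + 1)))) (p ^ (m + 1)) := by
      refine h1.pow (pow_pos hp.pos _) ?_
      rw [← pow_add]
      congr 1
      omega
    exact h _ h2 _ rfl
  · rw [← orderOf_dvd_iff_pow_eq_one, hj]
    exact pow_dvd_pow p hge

theorem desc_z (p : ℕ) [Fact p.Prime] (b : Fin r → K) (hb : ∀ i, b i ≠ 0)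
    (F : IntermediateField K Ω) (hF : ∀ σ : Ω ≃ₐ[K] Ω, ∀ x ∈ F, σ x ∈ F) (n M : ℕ)
    (hnM : n ≤ M) (hM : 2 ≤ M) (θ' : Ω ≃ₐ[K] Ω)
    (hθ'L : ∀ x ∈ Lf b F (p ^ n) (p ^ (M + 1)), θ' x = x)
    (hθ'ζ : ∀ ζ : Ω, IsPrimitiveRoot ζ (p ^ (M + 2)) → θ' ζ ≠ ζ) (θ : Ω ≃ₐ[K] Ω)
    (hθL : ∀ x ∈ Lf b F (p ^ n) (p ^ M), θ x = x)
    (hθζ : ∀ ζ : Ω, IsPrimitiveRoot ζ (p ^ (M + 1)) → θ ζ ≠ ζ) (y : Ω)
    (hy : y ∈ Lf b F (p ^ n) (p ^ (M + 1))) (hy0 : y ≠ 0) (s : ℕ)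
    (hys : (θ y) ^ (p ^ s) = y ^ (p ^ s)) :
    ∃ ε : Ω, ε ^ (p ^ (M + 1)) = 1 ∧ y * ε ∈ Lf b F (p ^ n) (p ^ M) := by
  have hp : p.Prime := Fact.out
  have hp0 : p ≠ 0 := hp.ne_zero
  have : NeZero p := ⟨hp0⟩
  have : NeZero ((p ^ (M + 1) : ℕ) : Ω) := ⟨by exact_mod_cast (pow_ne_zero (M + 1) hp0)⟩
  have : NeZero (p ^ (M + 1)) := ⟨pow_ne_zero (M + 1) hp0⟩
  obtain ⟨ζ, hζ⟩ : ∃ ζ : Ω, IsPrimitiveRoot ζ (p ^ (M + 1)) :=
    HasEnoughRootsOfUnity.exists_primitiveRoot Ω (p ^ (M + 1))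
  have hζ0 : ζ ≠ 0 := hζ.ne_zero (pow_ne_zero (M + 1) hp0)
  have hβex : ∀ i, ∃ β : Ω, β ^ (p ^ n) = algebraMap K Ω (b i) := fun i =>
    IsAlgClosed.exists_pow_nat_eq _ (pow_pos hp.pos n)
  choose β hβ using hβex
  have hL := lf2_gen b hb F (p ^ n) (p ^ (M + 1)) (Nat.one_le_pow _ _ hp.pos)
    (Nat.one_le_pow _ _ hp.pos) (pow_dvd_pow p (by omega)) ζ hζ β hβ
  have hL₁def : Lf b F (p ^ n) (p ^ M) = IntermediateField.adjoin K
    ((F : Set Ω) ∪ ({x | x ^ (p ^ M) = 1} ∪ {x | ∃ i, x ^ (p ^ n) = algebraMap K Ω (b i)})) := rfl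
  have hζL : ζ ∈ Lf b F (p ^ n) (p ^ (M + 1)) := by
    rw [hL]
    exact IntermediateField.subset_adjoin K _ (Or.inr (Or.inl rfl))
  have hζpL₁ : ζ ^ p ∈ Lf b F (p ^ n) (p ^ M) := by
    refine IntermediateField.subset_adjoin K _ (Or.inr (Or.inl ?_))
    show (ζ ^ p) ^ (p ^ M) = 1
    rw [← pow_mul, ← pow_succ', hζ.pow_eq_one]
  have hθβ : ∀ i, θ (β i) = β i := fun i =>
    hθL _ (IntermediateField.subset_adjoin K _ (Or.inr (Or.inr ⟨i, hβ i⟩)))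
  have hθF : ∀ x ∈ F, θ x = x := fun x hx =>
    hθL _ (IntermediateField.subset_adjoin K _ (Or.inl hx))
  -- 1.
  have hroot : ∀ ε ∈ Lf b F (p ^ n) (p ^ (M + 1)), ∀ k : ℕ, ε ^ (p ^ k) = 1 →
      ε ^ (p ^ (M + 1)) = 1 := by
    intro ε hε k hk
    refine desc_root hp k (M + 1) hk ?_
    intro z hz j hj
    apply hθ'ζ z hz
    rw [← hj]
    exact hθ'L _ (pow_mem hε j)
  -- 2.
  have hθp : θ (ζ ^ p) = ζ ^ p := hθL _ hζpL₁
  obtain ⟨ξ, hξdef⟩ : ∃ ξ : Ω, ξ = θ ζ / ζ := ⟨_, rfl⟩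
  have hθζ' : θ ζ = ξ * ζ := by
    rw [hξdef, div_mul_cancel₀ _ hζ0]
  have hξp : ξ ^ p = 1 := by
    rw [hξdef, div_pow, ← map_pow, hθp]
    exact div_self (pow_ne_zero p hζ0)
  have hξ1 : ξ ≠ 1 := by
    intro h1
    apply hθζ ζ hζ
    rw [hθζ', h1, one_mul]
  have hξprim : IsPrimitiveRoot ξ p := by
    have h1 := orderOf_eq_prime hξp hξ1
    rw [← h1]
    exact IsPrimitiveRoot.orderOf ξ
  have hζM : IsPrimitiveRoot (ζ ^ (p ^ M)) p :=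
    hζ.pow (pow_pos hp.pos _) (by rw [pow_succ])
  obtain ⟨u, -, hu⟩ := hζM.eq_pow_of_pow_eq_one hξp
  have hξu : ξ = ζ ^ (p ^ M * u) := by
    rw [pow_mul]
    exact hu.symm
  have hθξ : θ ξ = ξ := by
    obtain ⟨M', hM'⟩ : ∃ M', M = M' + 1 := ⟨M - 1, by omega⟩
    have e : ξ = (ζ ^ p) ^ (p ^ M' * u) := by
      rw [hξu, hM', pow_succ, ← pow_mul]
      congr 1
      ring
    rw [e, map_pow, hθp]
  have hq2 : p ^ 2 ∣ p ^ M * u := (pow_dvd_pow p hM).mul_right u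
  have hθζq : θ ζ = ζ ^ (1 + p ^ M * u) := by
    rw [hθζ', hξu, pow_add, pow_one, mul_comm]
  have hiterζ : ∀ i : ℕ, (θ ^ i) ζ = ξ ^ i * ζ := by
    intro i
    induction i with
    | zero => simp
    | succ i ih =>
      rw [pow_succ', AlgEquiv.mul_apply, ih, map_mul, map_pow, hθξ, hθζ', ← mul_assoc, ← pow_succ]
  have hiterF : ∀ i : ℕ, ∀ x : Ω, θ x = x → (θ ^ i) x = x := by
    intro i x hx
    induction i with
    | zero => simp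
    | succ i ih => rw [pow_succ', AlgEquiv.mul_apply, ih, hx]
  -- automorphisms fixing the generators fix `L`
  have hfixL : ∀ τ : Ω ≃ₐ[K] Ω, (∀ x ∈ F, τ x = x) → τ ζ = ζ → (∀ i, τ (β i) = β i) →
      ∀ x ∈ Lf b F (p ^ n) (p ^ (M + 1)), τ x = x := by
    intro τ h1 h2 h3 x hx
    rw [hL] at hx
    refine fixed_of_mem_adjoin _ (τ : Ω →ₐ[K] Ω) ?_ x hx
    rintro z (hz | hz | ⟨i, rfl⟩)
    · exact h1 z hz
    · rw [Set.mem_singleton_iff] at hz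
      rw [hz]
      exact h2
    · exact h3 i
  -- 3.
  obtain ⟨ε, hεdef⟩ : ∃ ε : Ω, ε = θ y / y := ⟨_, rfl⟩
  have hθy : θ y = ε * y := by
    rw [hεdef, div_mul_cancel₀ _ hy0]
  have hεs : ε ^ (p ^ s) = 1 := by
    rw [hεdef, div_pow, hys]
    exact div_self (pow_ne_zero _ hy0)
  have hεL : ε ∈ Lf b F (p ^ n) (p ^ (M + 1)) := by
    rw [hεdef]
    exact div_mem (lf2_stable b F hF _ _ θ y hy) hy
  have hε1 := hroot ε hεL s hεs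
  obtain ⟨a, -, ha⟩ := hζ.eq_pow_of_pow_eq_one hε1
  have hθε : θ ε = ε ^ (1 + p ^ M * u) := by
    rw [← ha, map_pow, hθζq, ← pow_mul, ← pow_mul, mul_comm]
  have hitery : ∀ i : ℕ, (θ ^ i) y =
      ε ^ (∑ j ∈ Finset.range i, (1 + p ^ M * u) ^ j) * y := by
    intro i
    induction i with
    | zero => simp
    | succ i ih =>
      have e : ∑ j ∈ Finset.range (i + 1), (1 + p ^ M * u) ^ j =
          (1 + p ^ M * u) * (∑ j ∈ Finset.range i, (1 + p ^ M * u) ^ j) + 1 := by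
        rw [Finset.sum_range_succ', Finset.mul_sum, pow_zero]
        congr 1
        exact Finset.sum_congr rfl fun j _ => pow_succ' _ _
      rw [pow_succ', AlgEquiv.mul_apply, ih, map_mul, map_pow, hθε, hθy, e, pow_succ, pow_mul,
        mul_assoc]
  have hθpy : (θ ^ p) y = y := by
    refine hfixL (θ ^ p) (fun x hx => hiterF p x (hθF x hx)) ?_ (fun i => hiterF p _ (hθβ i)) y hy
    rw [hiterζ, hξp, one_mul]
  have hεsum : ε ^ (∑ j ∈ Finset.range p, (1 + p ^ M * u) ^ j) = 1 := by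
    have h1 := hitery p
    rw [hθpy] at h1
    have h2 : ε ^ (∑ j ∈ Finset.range p, (1 + p ^ M * u) ^ j) * y = 1 * y := by
      rw [one_mul]
      exact h1.symm
    exact mul_right_cancel₀ hy0 h2
  obtain ⟨t, ht⟩ := sum_pow p (p ^ M * u) hp hq2
  have hεp : ε ^ p = 1 := by
    rw [ht] at hεsum
    have h1 : orderOf ε ∣ p * (1 + p * t) := orderOf_dvd_of_pow_eq_one hεsum
    have h2 : orderOf ε ∣ p ^ s := orderOf_dvd_of_pow_eq_one hεs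
    have h3 : Nat.Coprime (p ^ s) (1 + p * t) := by
      refine Nat.Coprime.pow_left _ ?_
      simp
    have h4 : Nat.Coprime (orderOf ε) (1 + p * t) := Nat.Coprime.coprime_dvd_left h2 h3
    exact orderOf_dvd_iff_pow_eq_one.1 (h4.dvd_of_dvd_mul_right h1)
  obtain ⟨k, -, hk⟩ := hξprim.eq_pow_of_pow_eq_one hεp
  have hξ0 : ξ ≠ 0 := hξprim.ne_zero hp0
  have hθy' : θ (y * (ζ⁻¹) ^ k) = y * (ζ⁻¹) ^ k := by
    rw [map_mul, map_pow, map_inv₀, hθy, hθζ', ← hk, mul_inv, mul_pow, inv_pow]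
    field_simp
  refine ⟨(ζ⁻¹) ^ k, ?_, ?_⟩
  · rw [← pow_mul, mul_comm, pow_mul, inv_pow, hζ.pow_eq_one, inv_one, one_pow]
  -- 4.
  · have hy'L : y * (ζ⁻¹) ^ k ∈ Lf b F (p ^ n) (p ^ (M + 1)) :=
      mul_mem hy (pow_mem (inv_mem hζL) k)
    rw [hL₁def]
    refine mem_adjoin_of_fixed _ _ ?_
    intro ρ hρ
    have hρF : ∀ x ∈ F, ρ x = x := fun x hx => hρ x (Or.inl hx)
    have hρβ : ∀ i, ρ (β i) = β i := fun i => hρ _ (Or.inr (Or.inr ⟨i, hβ i⟩))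
    have hρp : ρ (ζ ^ p) = ζ ^ p := by
      refine hρ _ (Or.inr (Or.inl ?_))
      show (ζ ^ p) ^ (p ^ M) = 1
      rw [← pow_mul, ← pow_succ', hζ.pow_eq_one]
    have hω : (ρ ζ / ζ) ^ p = 1 := by
      rw [div_pow, ← map_pow, hρp]
      exact div_self (pow_ne_zero p hζ0)
    obtain ⟨c, -, hc⟩ := hξprim.eq_pow_of_pow_eq_one hω
    have hρζ : ρ ζ = (θ ^ c) ζ := by
      rw [hiterζ, hc, div_mul_cancel₀ _ hζ0]
    have hagree := hfixL ((θ ^ c)⁻¹ * ρ) ?_ ?_ ?_ _ hy'L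
    · rw [AlgEquiv.mul_apply] at hagree
      have h1 := congrArg (θ ^ c) hagree
      rw [← AlgEquiv.mul_apply, mul_inv_cancel, AlgEquiv.one_apply] at h1
      rw [h1]
      exact hiterF c _ hθy'
    · intro x hx
      rw [AlgEquiv.mul_apply, hρF x hx]
      have h1 := hiterF c x (hθF x hx)
      calc (θ ^ c)⁻¹ x = (θ ^ c)⁻¹ ((θ ^ c) x) := by rw [h1]
        _ = x := by rw [← AlgEquiv.mul_apply, inv_mul_cancel, AlgEquiv.one_apply]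
    · rw [AlgEquiv.mul_apply, hρζ, ← AlgEquiv.mul_apply, inv_mul_cancel, AlgEquiv.one_apply]
    · intro i
      rw [AlgEquiv.mul_apply, hρβ i]
      have h1 := hiterF c (β i) (hθβ i)
      calc (θ ^ c)⁻¹ (β i) = (θ ^ c)⁻¹ ((θ ^ c) (β i)) := by rw [h1]
        _ = β i := by rw [← AlgEquiv.mul_apply, inv_mul_cancel, AlgEquiv.one_apply]

end Pool.Agent.H72.RG
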