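import Pool.Agent.H72.RG.MConj
import Pool.Agent.H72.RG.DescZ

/-!
# Module StepZ: lowering the level of the roots of unity by one

`c`, `s`, `n₀` from `m_conj D 1`, `n₁ = n₀ + 2`. Let `F = RF Ω b n' N₀` (stable: `rf_stable`), `M = n + J ≥ 2`,
`θ₀` from `m_conj` at `n`: it fixes `Lf b F (p^n) (p^M)` and moves the primitive `p^(M+1)`-th roots of unity.
`y ∈ Lf b F (p^n) (p^(n+1+J)) ≤ Lf b F (p^(n+1)) (p^(n+J+1))` (`lf2_mono`), so `m_conj` with `τ = 1`: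
`(θ₀ y)^(p^s) = y^(p^s)`. `desc_z` with `θ = θ₀` and `θ'` = the automorphism of `m_conj` at level `n + 1`: it
fixes `Lf b F (p^(n+1)) (p^(n+1+J)) ≥ Lf b F (p^n) (p^(M+1))` and moves the primitive `p^(M+2)`-th roots of
unity (`n + 1 + J + 1 = M + 2`).
-/

set_option autoImplicit false
set_option linter.unusedSectionVars false

open NumberField IntermediateField

namespace Pool.Agent.H72.RG

open Pool.Agent.H72.RM

variable {p : ℕ} [Fact p.Prime] {C : Type} [NormedField C] [NormedAlgebra ℚ_[p] C]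
  [IsUltrametricDist C] [IsAlgClosed C] [Algebra.IsAlgebraic ℚ_[p] C] [IsoEnv p C]
  {K Ω : Type} [Field K] [NumberField K] [Field Ω] [CharZero Ω] [IsAlgClosed Ω] [Algebra K Ω]
  [IsGalois K Ω] {r : ℕ} {b : Fin r → K} {ι : Ω →+* C} {h₀ J : ℕ}

theorem step_z (D : SData K Ω p C b ι h₀ J) :
    ∃ (c : ℝ) (n₁ : ℕ), 0 < c ∧ ∀ n : ℕ, n₁ ≤ n → ∀ n' N₀ : ℕ, 1 ≤ n' → 1 ≤ N₀ →
      ¬ p ∣ n' → ¬ p ∣ N₀ → ∀ γ y : Ω, γ ≠ 0 → y ≠ 0 →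
      (∀ θ : Ω ≃ₐ[K] Ω, ∃ k : ℕ, 1 ≤ k ∧ (θ γ) ^ k = γ ^ k) →
      y ∈ Lf b (RF Ω b n' N₀) (p ^ n) (p ^ (n + 1 + J)) → absLogHeight₁ (γ * y) < c →
      ∃ ε : Ω, ε ^ (p ^ (n + 1 + J)) = 1 ∧ y * ε ∈ Lf b (RF Ω b n' N₀) (p ^ n) (p ^ (n + J)) := by
  have hp : p.Prime := Fact.out
  obtain ⟨c, s, n₀, hc, h⟩ := m_conj D 1
  refine ⟨c, n₀ + 2, hc, ?_⟩
  intro n hn n' N₀ hn' hN₀ hpn hpN γ y hγ hy hθγ hyL hht
  obtain ⟨θ₀, h1, h2, h3⟩ := h n (by omega) n' N₀ hn' hN₀ hpn hpN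
  obtain ⟨θ', g1, g2, -⟩ := h (n + 1) (by omega) n' N₀ hn' hN₀ hpn hpN
  have e1 : n + 1 + J = n + J + 1 := by omega
  have hmono1 : Lf b (RF Ω b n' N₀) (p ^ n) (p ^ (n + J + 1)) ≤
      Lf b (RF Ω b n' N₀) (p ^ (n + 1)) (p ^ (n + J + 1)) :=
    lf2_mono b _ _ _ _ _ (pow_dvd_pow p (Nat.le_succ n)) dvd_rfl
      (Nat.one_le_iff_ne_zero.2 (pow_ne_zero _ hp.ne_zero))
  rw [e1] at hyL ⊢
  have hys : (θ₀ y) ^ (p ^ s) = y ^ (p ^ s) := by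
    have h4 := h3 1 γ y hγ hy hθγ (hmono1 hyL) hht
    simpa using h4
  refine desc_z p b D.ne (RF Ω b n' N₀) (fun σ x hx => rf_stable b n' N₀ σ x hx) n (n + J)
    (by omega) (by omega) θ' ?_ ?_ θ₀ h1 h2 y hyL hy s hys
  · intro x hx
    rw [e1] at g1
    exact g1 x (hmono1 hx)
  · intro ζ hζ
    apply g2
    have e2 : n + 1 + J + 1 = n + J + 2 := by omega
    rw [e2]
    exact hζ

end Pool.Agent.H72.RG
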