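import Pool.Agent.H72.RG.StepB
import Pool.Agent.H72.RG.StepZ
import Pool.Agent.H72.RM.Gam

/-!
# Module PTower: descent to a bounded `p`-level

`gam_eta`: `γ^N t = ∏ (b i)^(m i)` with `t^k = 1`; `θ` fixes the right side:
`(θ γ)^N (θ t) = γ^N t`, so `(θ γ)^(N k) = γ^(N k)`.
`p_tower`: `c` = the minimum of the constants of `step_b`, `step_z`, `n₁` = the maximum of the two `n₁`,
`R = n₁ + J`. `F = RF Ω b n' N₀`. Claim (induction on `l`): if `y ∈ Lf b F (p^(n₁+l)) (p^(n₁+l+J))`, `γ ∈ GammaS`,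
`y ≠ 0`, `absLogHeight₁ (γ y) < c` then the conclusion holds. `l = 0`: `lf2_le_rf`
(`Lf b F (p^(n₁)) (p^(n₁+J)) ≤ RF Ω b n' (p^R N₀)`), `γ' = γ`, `y' = y`. Step: `step_b` (with `n = n₁ + l`, `gam_eta`)
gives `γ₁`, `y₁ = y / γ₁ ∈ Lf b F (p^n) (p^(n+1+J))`; `γ₁ ∈ GammaS` (`gam_of_pow`, `p^(n+1)` is composed of
`p ∈ S`), `γ y = (γ γ₁) y₁`, so the height is the same. `step_z` for `γ γ₁`, `y₁` gives `ε`,
`y₂ = y₁ ε ∈ Lf b F (p^n) (p^(n+J))`, `ε⁻¹ ∈ GammaS` (`gam_of_pow` with `m = 0`; `ε ≠ 0`),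
`γ y = (γ γ₁ ε⁻¹) y₂`; induction hypothesis.
For given `k`: let `l = k` (so that `k ≤ n₁ + l`): `RF Ω b n' (p^k N₀) ≤ Lf b F (p^k) (p^k) ≤
Lf b F (p^(n₁+k)) (p^(n₁+k+J))` (`rf_le_lf2`, `lf2_mono`).
-/

set_option autoImplicit false
set_option linter.unusedSectionVars false

open NumberField IntermediateField

namespace Pool.Agent.H72.RG

open Pool.Agent.H72.RM

variable {p : ℕ} [Fact p.Prime] {C : Type} [NormedField C] [NormedAlgebra ℚ_[p] C]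
  [IsUltrametricDist C] [IsAlgClosed C] [Algebra.IsAlgebraic ℚ_[p] C] [IsoEnv p C]
  {K Ω : Type} [Field K] [NumberField K] [Field Ω] [CharZero Ω] [IsAlgClosed Ω] [Algebra K Ω]
  [IsGalois K Ω] {r : ℕ} {b : Fin r → K} {ι : Ω →+* C} {h₀ J : ℕ}

theorem gam_eta {S : Set ℕ} {γ : Ω} (hγ : γ ∈ GammaS Ω b S) (θ : Ω ≃ₐ[K] Ω) :
    ∃ k : ℕ, 1 ≤ k ∧ (θ γ) ^ k = γ ^ k := by
  obtain ⟨N, hN, _, t, ⟨n, hn, htn⟩, m, hm⟩ := hγ
  refine ⟨N * n, Nat.mul_pos hN hn, ?_⟩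
  have h1 : (θ γ) ^ N * θ t = γ ^ N * t := by
    rw [← map_pow, ← map_mul, hm, map_prod]
    refine Finset.prod_congr rfl (fun i _ => ?_)
    rw [map_zpow₀, AlgEquiv.commutes]
  have h2 : (θ t) ^ n = 1 := by rw [← map_pow, htn, map_one]
  have h3 := congrArg (fun x => x ^ n) h1
  simp only [mul_pow, h2, htn, mul_one] at h3
  rw [pow_mul, pow_mul]
  exact h3

theorem p_tower (D : SData K Ω p C b ι h₀ J) (S : Set ℕ) (hpS : p ∈ S) :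
    ∃ (c : ℝ) (R : ℕ), 0 < c ∧ ∀ n' N₀ : ℕ, 1 ≤ n' → 1 ≤ N₀ → ¬ p ∣ n' → ¬ p ∣ N₀ →
      ∀ (k : ℕ) (γ y : Ω), γ ∈ GammaS Ω b S → y ∈ RF Ω b n' (p ^ k * N₀) → y ≠ 0 →
      absLogHeight₁ (γ * y) < c →
      ∃ γ' ∈ GammaS Ω b S, ∃ y' ∈ RF Ω b n' (p ^ R * N₀), y' ≠ 0 ∧ γ * y = γ' * y' := by
  have hp : p.Prime := Fact.out
  obtain ⟨c1, n1, hc1, hB⟩ := step_b D
  obtain ⟨c2, n2, hc2, hZ⟩ := step_z D
  refine ⟨min c1 c2, max n1 n2 + J, lt_min hc1 hc2, ?_⟩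
  intro n' N₀ hn' hN₀ hpn' hpN₀
  obtain ⟨n₁, hn₁⟩ : ∃ n₁, n₁ = max n1 n2 := ⟨_, rfl⟩
  rw [← hn₁]
  have hn1 : n1 ≤ n₁ := hn₁ ▸ le_max_left _ _
  have hn2 : n2 ≤ n₁ := hn₁ ▸ le_max_right _ _
  have claim : ∀ (l : ℕ) (γ y : Ω), γ ∈ GammaS Ω b S →
      y ∈ Lf b (RF Ω b n' N₀) (p ^ (n₁ + l)) (p ^ (n₁ + l + J)) → y ≠ 0 →
      absLogHeight₁ (γ * y) < min c1 c2 →
      ∃ γ' ∈ GammaS Ω b S, ∃ y' ∈ RF Ω b n' (p ^ (n₁ + J) * N₀), y' ≠ 0 ∧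
        γ * y = γ' * y' := by
    intro l
    induction l with
    | zero =>
      intro γ y hγ hy hy0 _
      exact ⟨γ, hγ, y, lf2_le_rf b p n₁ (n₁ + J) n' N₀ hp hn' hN₀ (by omega) hy, hy0, rfl⟩
    | succ l ih =>
      intro γ y hγ hy hy0 hlt
      have hγ0 : γ ≠ 0 := gam_ne_zero D.ne hγ
      obtain ⟨γ₁, hγ₁0, ⟨m, hm⟩, hy₁⟩ := hB (n₁ + l) (by omega) n' N₀ hn' hN₀ hpn' hpN₀ γ y
        hγ0 hy0 (gam_eta hγ) hy (lt_of_lt_of_le hlt (min_le_left _ _))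
      have hγ₁ : γ₁ ∈ GammaS Ω b S := by
        refine gam_of_pow (p ^ (n₁ + l + 1)) (pow_pos hp.pos _) (fun q hq hqd => ?_) m hm
        have h1 : q = p := (Nat.prime_dvd_prime_iff_eq hq hp).1 (hq.dvd_of_dvd_pow hqd)
        rw [h1]
        exact hpS
      have e1 : γ * y = (γ * γ₁) * (y / γ₁) := by
        field_simp
      have hy₁0 : y / γ₁ ≠ 0 := div_ne_zero hy0 hγ₁0
      obtain ⟨ε, hε, hy₂⟩ := hZ (n₁ + l) (by omega) n' N₀ hn' hN₀ hpn' hpN₀ (γ * γ₁) (y / γ₁)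
        (mul_ne_zero hγ0 hγ₁0) hy₁0 (gam_eta (gam_mul hγ hγ₁)) hy₁
        (by rw [← e1]; exact lt_of_lt_of_le hlt (min_le_right _ _))
      have hε0 : ε ≠ 0 := by
        rintro rfl
        rw [zero_pow (pow_pos hp.pos _).ne'] at hε
        exact zero_ne_one hε
      have hεγ : ε⁻¹ ∈ GammaS Ω b S := by
        refine gam_of_pow (p ^ (n₁ + l + 1 + J)) (pow_pos hp.pos _) (fun q hq hqd => ?_)
          (fun _ => 0) ?_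
        · have h1 : q = p := (Nat.prime_dvd_prime_iff_eq hq hp).1 (hq.dvd_of_dvd_pow hqd)
          rw [h1]
          exact hpS
        · rw [inv_pow, hε]
          simp
      have e2 : γ * y = (γ * γ₁ * ε⁻¹) * (y / γ₁ * ε) := by
        field_simp
      obtain ⟨γ', hγ', y', hy', hy'0, he⟩ := ih (γ * γ₁ * ε⁻¹) (y / γ₁ * ε)
        (gam_mul (gam_mul hγ hγ₁) hεγ) hy₂ (mul_ne_zero hy₁0 hε0) (by rw [← e2]; exact hlt)
      exact ⟨γ', hγ', y', hy', hy'0, by rw [e2]; exact he⟩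
  intro k γ y hγ hy hy0 hlt
  refine claim k γ y hγ ?_ hy0 hlt
  have h1 := rf_le_lf2 (Ω := Ω) b p k n' N₀ hp hpN₀
  have h2 := lf2_mono b (RF Ω b n' N₀) (p ^ k) (p ^ k) (p ^ (n₁ + k)) (p ^ (n₁ + k + J))
    (pow_dvd_pow _ (by omega)) (pow_dvd_pow _ (by omega)) (Nat.one_le_pow _ _ hp.pos)
  exact h2 (h1 hy)

end Pool.Agent.H72.RG
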