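import Pool.Agent.H72.RM.Cyc

/-!
# Module MulClose: additive closeness on the unit ball implies multiplicative closeness

Let `l = z - 1`, `0 < ‖l‖ < 1`. For `u ∈ F`, `u ≠ 0`, choose `k : ℤ` with `‖l‖^(k+1) < ‖u‖ ≤ ‖l‖^k`
(`exists_mem_Ioc_zpow`-like lemma for `‖l‖⁻¹ > 1`) and put `v = u / l^k ∈ F`, `‖l‖ < ‖v‖ ≤ 1`.
`‖g v / v - 1‖ = ‖g v - v‖ / ‖v‖ ≤ B / ‖l‖ ≤ ρ`, and `‖g l / l - 1‖ ≤ B / ‖l‖ ≤ ρ`. So
`g u / u = (g l / l)^k (g v / v)`; elements of the form `1 + t`, `‖t‖ ≤ ρ < 1`, have norm one and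
form a group: `‖(1 + t)^k - 1‖ ≤ ρ` for `k : ℤ` (`norm_pow_sub_one_le` for `k ≥ 0`, inverse:
`‖a⁻¹ - 1‖ = ‖1 - a‖` for `‖a‖ = 1`), `‖a a' - 1‖ ≤ max ‖a - 1‖ ‖a' - 1‖`.
`mul_close_pow`: the same closeness for powers of `g`, if `‖g u - u‖ ≤ B` on the ball of `F`:
`g^(i+1) u - g^i u = g^i (g u - u)`, `IsoEnv.iso`, ultrametric induction.
-/

set_option autoImplicit false
set_option linter.unusedSectionVars false

open IntermediateField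

namespace Pool.Agent.H72.RG

open Pool.Agent.H72.RM

variable {p : ℕ} [Fact p.Prime] {C : Type} [NormedField C] [NormedAlgebra ℚ_[p] C]
  [IsUltrametricDist C] [IsAlgClosed C] [Algebra.IsAlgebraic ℚ_[p] C] [IsoEnv p C]

theorem mul_close_pow (g : C ≃ₐ[ℚ_[p]] C) (u : C) (B : ℝ) (hB : 0 ≤ B) (h : ‖g u - u‖ ≤ B)
    (i : ℕ) : ‖(g ^ i) u - u‖ ≤ B := by
  induction i with
  | zero => simpa using hB
  | succ i ih =>
    have e : (g ^ (i + 1)) u - u = (g ^ i) (g u - u) + ((g ^ i) u - u) := by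
      rw [map_sub, pow_succ, AlgEquiv.mul_apply]
      ring
    rw [e]
    refine (IsUltrametricDist.norm_add_le_max _ _).trans (max_le ?_ ih)
    rw [IsoEnv.iso]
    exact h

/-- an element close to one has norm one -/
theorem norm_eq_one_of_close {D : Type} [NormedField D] [IsUltrametricDist D] (a : D)
    (h : ‖a - 1‖ < 1) : ‖a‖ = 1 := by
  have h1 : a = (a - 1) + 1 := by ring
  have h2 : ‖(1 : D)‖ = 1 := norm_one
  apply le_antisymm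
  · rw [h1]
    exact (IsUltrametricDist.norm_add_le_max _ _).trans (max_le h.le h2.le)
  · by_contra hlt
    rw [not_le] at hlt
    have h3 : (1 : D) = a - (a - 1) := by ring
    have h4 : ‖(1 : D)‖ ≤ max ‖a‖ ‖a - 1‖ := by
      conv_lhs => rw [h3, sub_eq_add_neg]
      refine (IsUltrametricDist.norm_add_le_max _ _).trans ?_
      rw [norm_neg]
    rw [h2] at h4
    exact absurd h4 (not_le.2 (max_lt hlt h))

theorem close_inv {D : Type} [NormedField D] [IsUltrametricDist D] (a : D)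
    (h : ‖a - 1‖ < 1) : ‖a⁻¹ - 1‖ = ‖a - 1‖ := by
  have h1 := norm_eq_one_of_close a h
  have h0 : a ≠ 0 := by
    intro h0
    rw [h0, norm_zero] at h1
    exact zero_ne_one h1
  have e : a⁻¹ - 1 = a⁻¹ * (1 - a) := by
    rw [mul_sub, mul_one, inv_mul_cancel₀ h0]
  rw [e, norm_mul, norm_inv, h1, inv_one, one_mul, norm_sub_rev]

theorem close_mul {D : Type} [NormedField D] [IsUltrametricDist D] (a b : D) (ρ : ℝ)
    (hρ : ρ < 1) (ha : ‖a - 1‖ ≤ ρ) (hb : ‖b - 1‖ ≤ ρ) : ‖a * b - 1‖ ≤ ρ := by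
  have e : a * b - 1 = a * (b - 1) + (a - 1) := by ring
  rw [e]
  refine (IsUltrametricDist.norm_add_le_max _ _).trans (max_le ?_ ha)
  rw [norm_mul, norm_eq_one_of_close a (ha.trans_lt hρ), one_mul]
  exact hb

theorem close_zpow {D : Type} [NormedField D] [IsUltrametricDist D] (a : D) (ρ : ℝ)
    (hρ : ρ < 1) (ha : ‖a - 1‖ ≤ ρ) (k : ℤ) : ‖a ^ k - 1‖ ≤ ρ := by
  obtain ⟨n, rfl | rfl⟩ := k.eq_nat_or_neg
  · rw [zpow_natCast]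
    exact (norm_pow_sub_one_le a (norm_eq_one_of_close a (ha.trans_lt hρ)).le n).trans ha
  · rw [zpow_neg, zpow_natCast, ← inv_pow]
    have h1 : ‖a⁻¹ - 1‖ ≤ ρ := by
      rw [close_inv a (ha.trans_lt hρ)]
      exact ha
    exact (norm_pow_sub_one_le a⁻¹ (norm_eq_one_of_close a⁻¹ (h1.trans_lt hρ)).le n).trans h1

theorem mul_close (F : IntermediateField ℚ_[p] C) (g : C ≃ₐ[ℚ_[p]] C) (B ρ : ℝ) (l : C)
    (hl : l ∈ F) (hl0 : l ≠ 0) (hl1 : ‖l‖ < 1) (hB : B ≤ ρ * ‖l‖) (hρ : ρ < 1)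
    (h : ∀ u ∈ F, ‖u‖ ≤ 1 → ‖g u - u‖ ≤ B) (u : C) (hu : u ∈ F) (hu0 : u ≠ 0) :
    ‖g u / u - 1‖ ≤ ρ := by
  have hlp : 0 < ‖l‖ := norm_pos_iff.2 hl0
  have hup : 0 < ‖u‖ := norm_pos_iff.2 hu0
  have hB0 : 0 ≤ B := (norm_nonneg _).trans (h l hl hl1.le)
  have key : ∀ v ∈ F, v ≠ 0 → ‖v‖ ≤ 1 → ‖l‖ ≤ ‖v‖ → ‖g v / v - 1‖ ≤ ρ := by
    intro v hv hv0 hv1 hv2
    have hvp : 0 < ‖v‖ := norm_pos_iff.2 hv0
    have e : g v / v - 1 = (g v - v) / v := by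
      rw [sub_div, div_self hv0]
    rw [e, norm_div, div_le_iff₀ hvp]
    have hρ0 : 0 ≤ ρ := by
      by_contra hneg
      rw [not_le] at hneg
      have : ρ * ‖l‖ < 0 := mul_neg_of_neg_of_pos hneg hlp
      linarith
    calc ‖g v - v‖ ≤ B := h v hv hv1
      _ ≤ ρ * ‖l‖ := hB
      _ ≤ ρ * ‖v‖ := mul_le_mul_of_nonneg_left hv2 hρ0
  obtain ⟨n, hn1, hn2⟩ := exists_mem_Ioc_zpow (x := ‖u‖) (y := ‖l‖⁻¹) hup
    ((one_lt_inv₀ hlp).2 hl1)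
  -- `‖l‖⁻¹ ^ n < ‖u‖ ≤ ‖l‖⁻¹ ^ (n + 1)`; put `v = u * l ^ (n + 1)`
  have hln : ‖l ^ (n + 1)‖ = (‖l‖⁻¹ ^ (n + 1))⁻¹ := by
    rw [norm_zpow, inv_zpow, inv_inv]
  have hlz : l ^ (n + 1) ≠ 0 := zpow_ne_zero _ hl0
  have hpos1 : 0 < ‖l‖⁻¹ ^ (n + 1) := zpow_pos (inv_pos.2 hlp) _
  have hvF : u * l ^ (n + 1) ∈ F := F.mul_mem hu (zpow_mem hl _)
  have hv0 : u * l ^ (n + 1) ≠ 0 := mul_ne_zero hu0 hlz
  have hv1 : ‖u * l ^ (n + 1)‖ ≤ 1 := by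
    rw [norm_mul, hln, ← div_eq_mul_inv, div_le_one hpos1]
    exact hn2
  have hv2 : ‖l‖ ≤ ‖u * l ^ (n + 1)‖ := by
    rw [norm_mul, hln, ← div_eq_mul_inv, le_div_iff₀ hpos1]
    have e : ‖l‖ * ‖l‖⁻¹ ^ (n + 1) = ‖l‖⁻¹ ^ n := by
      rw [zpow_add_one₀ (inv_ne_zero hlp.ne'), mul_comm, mul_assoc, inv_mul_cancel₀ hlp.ne',
        mul_one]
    rw [e]
    exact hn1.le
  have k1 := key _ hvF hv0 hv1 hv2
  have k2 := close_zpow (g l / l) ρ hρ (key l hl hl0 hl1.le le_rfl) (-(n + 1))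
  have e : g u / u = (g l / l) ^ (-(n + 1)) * (g (u * l ^ (n + 1)) / (u * l ^ (n + 1))) := by
    have hgl0 : g l ≠ 0 := by
      rw [Ne, map_eq_zero]
      exact hl0
    rw [map_mul, map_zpow₀, div_zpow, zpow_neg, zpow_neg]
    have h1 : g l ^ (n + 1) ≠ 0 := zpow_ne_zero _ hgl0
    field_simp
  rw [e]
  exact close_mul _ _ ρ hρ k2 k1

end Pool.Agent.H72.RG
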