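import Pool.Agent.H72.RG.NuCoset

/-!
# Module Pigeon: choice of one coset

Let `T` be the set of `hsum` (elements `g ∈ Q` fixing `z^(p^(J+e))` and the `(y i)^(p^e)` and moving
`z^(p^e)`). For `g ∈ T`: `g z = ω z` with `ω^(p^(J+e)) = 1` (`z^(p^(J+e))` is fixed), i.e.
`ω = (z^(p^n))^a`, `a < p^(J+e)` (`z^(p^n)` is a primitive `p^(J+e)`-th root of unity), and
`g (y i) = ω_i (y i)`, `ω_i^(p^e) = 1`, `ω_i = (z^(p^(n+J)))^(a_i)`, `a_i < p^e`. So
`nuS_le_sum` over the pairs `(a, (a_i)) ∈ Fin (p^(J+e)) × (Fin r → Fin (p^e))` and `hsum`: there is a pair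
with `S(T_(a, a_i)) ≥ log p / p^(J+e+r e)`, `T_(a,a_i) = {g ∈ T | g z = (..)^a z, g (y i) = (..)^(a_i) y i}`;
it is nonempty as the sum is positive; let `σ` be an element. `H = {h ∈ Q | h z = z, h (y i) = y i}`
(`Q ⊓ stabilizer G z ⊓ ⨅ i, stabilizer G (y i)`); every `g ∈ T_(a,a_i)` satisfies `σ⁻¹ * g ∈ H`, so
`log p / p^(J+e+r e) ≤ nuS π (fun g => σ⁻¹ * g ∈ H)` (`nuS_mono`), `σ ∉ H` because `σ` moves `z^(p^e)`, and
`nu_close` gives the last claim.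
-/

set_option autoImplicit false
set_option linter.unusedSectionVars false

namespace Pool.Agent.H72.RG

open Pool.Agent.H72.RM

variable {M G : Type} [NormedField M] [Group G] [MulSemiringAction G M] [Fintype G] {π : M}

theorem pigeon (D : RamData M G π) (p : ℕ) [Fact p.Prime] (Q : Subgroup G) {r : ℕ} (n J e : ℕ)
    (z : M) (hz : IsPrimitiveRoot z (p ^ (n + J + e))) (y : Fin r → M) (hy0 : ∀ i, y i ≠ 0)
    (hsum : Real.log p ≤ nuS π (fun g => g ∈ Q ∧ g • (z ^ (p ^ (J + e))) = z ^ (p ^ (J + e)) ∧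
      (∀ i, g • (y i ^ (p ^ e)) = y i ^ (p ^ e)) ∧ g • (z ^ (p ^ e)) ≠ z ^ (p ^ e))) :
    ∃ σ ∈ Q, σ • (z ^ (p ^ (J + e))) = z ^ (p ^ (J + e)) ∧
      (∀ i, σ • (y i ^ (p ^ e)) = y i ^ (p ^ e)) ∧ σ • (z ^ (p ^ e)) ≠ z ^ (p ^ e) ∧
      ∀ u : M, ‖u‖ ≤ 1 → (∀ h ∈ Q, h • z = z → (∀ i, h • y i = y i) → h • u = u) →
        ‖σ • u - u‖ ≤ Real.exp (-(Real.log p / (p : ℝ) ^ (J + e + r * e))) := by
  classical
  have hp : 0 < p := (Fact.out : p.Prime).pos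
  have hp1 : 1 < p := (Fact.out : p.Prime).one_lt
  have hz0 : z ≠ 0 := hz.ne_zero (by positivity)
  have hz1 : IsPrimitiveRoot (z ^ (p ^ n)) (p ^ (J + e)) :=
    hz.pow (by positivity) (by rw [← pow_add]; congr 1; ring)
  have hz2 : IsPrimitiveRoot (z ^ (p ^ (n + J))) (p ^ e) :=
    hz.pow (by positivity) (by rw [← pow_add])
  have hne1 : NeZero (p ^ (J + e)) := ⟨by positivity⟩
  have hne2 : NeZero (p ^ e) := ⟨by positivity⟩
  set P : G → Prop := fun g => g ∈ Q ∧ g • (z ^ (p ^ (J + e))) = z ^ (p ^ (J + e)) ∧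
      (∀ i, g • (y i ^ (p ^ e)) = y i ^ (p ^ e)) ∧ g • (z ^ (p ^ e)) ≠ z ^ (p ^ e) with hP
  let R : Fin (p ^ (J + e)) × (Fin r → Fin (p ^ e)) → G → Prop := fun a g =>
    P g ∧ g • z = (z ^ (p ^ n)) ^ (a.1 : ℕ) * z ∧
      ∀ i, g • y i = (z ^ (p ^ (n + J))) ^ (a.2 i : ℕ) * y i
  have hcov : ∀ g, P g → ∃ a ∈ (Finset.univ : Finset (Fin (p ^ (J + e)) × (Fin r → Fin (p ^ e)))),
      R a g := by
    intro g hg
    obtain ⟨g1, g2, g3, g4⟩ := hg
    have e1 : (g • z / z) ^ (p ^ (J + e)) = 1 := by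
      rw [div_pow, ← smul_pow', g2, div_self (pow_ne_zero _ hz0)]
    obtain ⟨a, ha, ha'⟩ := hz1.eq_pow_of_pow_eq_one e1
    have e2 : ∀ i, ∃ b : Fin (p ^ e), (z ^ (p ^ (n + J))) ^ (b : ℕ) = g • y i / y i := by
      intro i
      have e3 : (g • y i / y i) ^ (p ^ e) = 1 := by
        rw [div_pow, ← smul_pow', g3 i, div_self (pow_ne_zero _ (hy0 i))]
      obtain ⟨b, hb, hb'⟩ := hz2.eq_pow_of_pow_eq_one e3
      exact ⟨⟨b, hb⟩, hb'⟩
    choose b hb using e2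
    refine ⟨(⟨a, ha⟩, b), Finset.mem_univ _, ⟨g1, g2, g3, g4⟩, ?_, ?_⟩
    · show g • z = (z ^ (p ^ n)) ^ a * z
      rw [ha', div_mul_cancel₀ _ hz0]
    · intro i
      show g • y i = (z ^ (p ^ (n + J))) ^ (b i : ℕ) * y i
      rw [hb i, div_mul_cancel₀ _ (hy0 i)]
  have hle := nuS_le_sum D Finset.univ P R hcov
  have hlogp : 0 < Real.log p := Real.log_pos (by exact_mod_cast hp1)
  set t : ℝ := Real.log p / (p : ℝ) ^ (J + e + r * e) with ht
  have hpr : (0 : ℝ) < (p : ℝ) := by exact_mod_cast hp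
  have ht0 : 0 < t := by positivity
  have hcard : ∑ _a ∈ (Finset.univ : Finset (Fin (p ^ (J + e)) × (Fin r → Fin (p ^ e)))), t =
      Real.log p := by
    rw [Finset.sum_const, Finset.card_univ, Fintype.card_prod, Fintype.card_fun, Fintype.card_fin,
      Fintype.card_fin, Fintype.card_fin, nsmul_eq_mul, ht]
    have e4 : ((p ^ (J + e) * (p ^ e) ^ r : ℕ) : ℝ) = (p : ℝ) ^ (J + e + r * e) := by
      push_cast
      rw [← pow_mul, ← pow_add, mul_comm e r]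
    rw [e4, mul_div_cancel₀]
    exact (pow_pos hpr _).ne'
  have hex : ∃ a ∈ (Finset.univ : Finset (Fin (p ^ (J + e)) × (Fin r → Fin (p ^ e)))),
      t ≤ nuS π (R a) := by
    refine Finset.exists_le_of_sum_le ⟨(0, fun _ => 0), Finset.mem_univ _⟩ ?_
    rw [hcard]
    exact hsum.trans hle
  obtain ⟨a, _, ha⟩ := hex
  have hσ : ∃ σ, R a σ := by
    by_contra hcon
    push Not at hcon
    have h0 : nuS π (R a) = 0 := by
      rw [nuS_eq]
      refine Finset.sum_eq_zero fun g _ => ?_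
      rw [if_neg (hcon g)]
    linarith
  obtain ⟨σ, ⟨s1, s2, s3, s4⟩, s5, s6⟩ := hσ
  let H : Subgroup G :=
    { carrier := {h | h ∈ Q ∧ h • z = z ∧ ∀ i, h • y i = y i}
      mul_mem' := by
        rintro x w ⟨x1, x2, x3⟩ ⟨w1, w2, w3⟩
        refine ⟨Q.mul_mem x1 w1, ?_, ?_⟩
        · rw [mul_smul, w2, x2]
        · intro i
          rw [mul_smul, w3, x3]
      one_mem' := ⟨Q.one_mem, one_smul _ _, fun i => one_smul _ _⟩
      inv_mem' := by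
        rintro x ⟨x1, x2, x3⟩
        refine ⟨Q.inv_mem x1, ?_, ?_⟩
        · rw [inv_smul_eq_iff, x2]
        · intro i
          rw [inv_smul_eq_iff, x3 i] }
  have hσH : σ ∉ H := by
    rintro ⟨_, h2, _⟩
    apply s4
    rw [smul_pow', h2]
  have hmono : t ≤ nuS π (fun g => σ⁻¹ * g ∈ H) := by
    refine ha.trans (nuS_mono D _ _ ?_)
    rintro g ⟨⟨g1, _, _, _⟩, g5, g6⟩
    refine ⟨Q.mul_mem (Q.inv_mem s1) g1, ?_, ?_⟩
    · rw [mul_smul, g5, ← s5, inv_smul_smul]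
    · intro i
      rw [mul_smul, g6 i, ← s6 i, inv_smul_smul]
  refine ⟨σ, s1, s2, s3, s4, ?_⟩
  intro u hu hfix
  refine nu_close D H σ hσH t hmono u hu ?_
  rintro h ⟨h1, h2, h3⟩
  exact hfix h h1 h2 h3

end Pool.Agent.H72.RG
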