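import Pool.Agent.H72.RG.Count
import Pool.Agent.H72.RG.Pigeon

/-!
# Module Abs: the abstract local theorem

`Q = MulAction.stabilizer G x ⊓ ⨅ i, MulAction.stabilizer G (w i)`. `DX = D₁ + ∑ i, -log ‖w i ^ N₀‖`.
`hQ`: `g ∉ Q` means `g x ≠ x` (bounded by `hx`), or `g x = x` and `g (w i) ≠ w i` for some `i`: for each `i`
`nu_rad` with the subgroup `stabilizer G x`, `N = N₀`, `ζ = ω`, `y = w i` gives the bound
`-log ‖N₀‖ - log ‖w i ^ N₀‖ = -log ‖w i ^ N₀‖` (`nuS_le_add`, `nuS_le_sum`). Here `‖w i‖ ≤ 1` because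
`‖w i ^ N₀‖ ≤ 1`; `w i ≠ 0`, `y i ≠ 0` because `w i ^ N₀ ≠ 0`.
`count_moved` with `z := z ^ (p^e)` (primitive of order `p^(n+J)`), `y := fun i => y i ^ (p^e)`
(`(y i ^ (p^e))^(p^n) = y i ^ (p^(n+e)) = w i ^ N₀`, of norm `≤ 1`, so `‖y i ^ (p^e)‖ ≤ 1`), and then
`pigeon` (`(z^(p^e))^(p^J) = z^(p^(J+e))`).
-/

set_option autoImplicit false
set_option linter.unusedSectionVars false

namespace Pool.Agent.H72.RG

open Pool.Agent.H72.RM

variable {M G : Type} [NormedField M] [Group G] [MulSemiringAction G M] [Fintype G] {π : M}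

theorem loc_abs (D : RamData M G π) (p : ℕ) [Fact p.Prime] (hp : ‖(p : M)‖ = 1 / (p : ℝ))
    (x : M) (D₁ : ℝ) (hx : nuS π (fun g : G => g • x ≠ x) ≤ D₁)
    (hlow : ∀ m : ℕ, 1 ≤ m → ∀ ζ : M, IsPrimitiveRoot ζ (p ^ m) →
      ((m : ℝ) - 1) * Real.log p ≤ nuS π (fun g : G => g • ζ ≠ ζ))
    {r : ℕ} (N₀ : ℕ) (hN₀ : 1 ≤ N₀) (hN₀' : ‖(N₀ : M)‖ = 1) (ω : M) (hω : IsPrimitiveRoot ω N₀)
    (w : Fin r → M) (hw0 : ∀ i, w i ^ N₀ ≠ 0) (hw : ∀ i, ‖w i ^ N₀‖ ≤ 1)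
    (hb : ∀ g : G, g • x = x → ∀ i, g • (w i ^ N₀) = w i ^ N₀)
    (n J e : ℕ) (hn : 1 ≤ n) (z : M) (hz : IsPrimitiveRoot z (p ^ (n + J + e)))
    (y : Fin r → M) (hy : ∀ i, y i ^ (p ^ (n + e)) = w i ^ N₀) (κ : ℕ)
    (hκ : ∀ (i : Fin r) (k : ℕ), ∃ τ : G, τ • x = x ∧ (∀ l, τ • w l = w l) ∧
      τ • (z ^ (p ^ (J + e))) = z ^ (p ^ (J + e)) ∧
      τ • (y i ^ (p ^ e)) = (z ^ (p ^ (J + e))) ^ (p ^ κ * k) * y i ^ (p ^ e))
    (hJ : 2 * Real.log p + (D₁ + ∑ i, (-Real.log ‖w i ^ N₀‖)) +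
      ∑ i, (-Real.log ‖w i ^ N₀‖ + ((κ : ℝ) + 2) * Real.log p +
        (D₁ + ∑ i, (-Real.log ‖w i ^ N₀‖))) ≤ J * Real.log p) :
    ∃ σ : G, σ • x = x ∧ (∀ i, σ • w i = w i) ∧
      σ • (z ^ (p ^ (J + e))) = z ^ (p ^ (J + e)) ∧
      (∀ i, σ • (y i ^ (p ^ e)) = y i ^ (p ^ e)) ∧ σ • (z ^ (p ^ e)) ≠ z ^ (p ^ e) ∧
      ∀ u : M, ‖u‖ ≤ 1 → (∀ h : G, h • x = x → (∀ i, h • w i = w i) → h • z = z →
          (∀ i, h • y i = y i) → h • u = u) →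
        ‖σ • u - u‖ ≤ Real.exp (-(Real.log p / (p : ℝ) ^ (J + e + r * e))) := by
  set Q : Subgroup G := MulAction.stabilizer G x ⊓ ⨅ i, MulAction.stabilizer G (w i) with hQdef
  have hmem : ∀ g : G, g ∈ Q ↔ g • x = x ∧ ∀ i, g • w i = w i := by
    intro g
    rw [hQdef, Subgroup.mem_inf, MulAction.mem_stabilizer_iff, Subgroup.mem_iInf]
    simp only [MulAction.mem_stabilizer_iff]
  set DX : ℝ := D₁ + ∑ i, (-Real.log ‖w i ^ N₀‖) with hDX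
  have hp0 : 0 < p := (Fact.out : p.Prime).pos
  have hw1 : ∀ i, ‖w i‖ ≤ 1 := by
    intro i
    have h1 := hw i
    rw [norm_pow] at h1
    exact (pow_le_one_iff_of_nonneg (norm_nonneg _) (by omega)).1 h1
  have hwne : ∀ i, w i ≠ 0 := by
    intro i h
    apply hw0 i
    rw [h, zero_pow (by omega)]
  have hQ : nuS π (fun g => g ∉ Q) ≤ DX := by
    have h1 := nuS_le_add D (fun g => g ∉ Q) (fun g => g • x ≠ x)
      (fun g => g • x = x ∧ ∃ i, g • w i ≠ w i) (fun g hg => by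
        by_cases hgx : g • x = x
        · right
          refine ⟨hgx, ?_⟩
          by_contra hc
          push Not at hc
          exact hg ((hmem g).2 ⟨hgx, hc⟩)
        · left
          exact hgx)
    have h2 := nuS_le_sum D (Finset.univ : Finset (Fin r))
      (fun g => g • x = x ∧ ∃ i, g • w i ≠ w i)
      (fun i g => g ∈ MulAction.stabilizer G x ∧ g • w i ≠ w i) (fun g hg => by
        obtain ⟨hgx, i, hi⟩ := hg
        exact ⟨i, Finset.mem_univ i, MulAction.mem_stabilizer_iff.2 hgx, hi⟩)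
    have h3 : ∀ i : Fin r, nuS π (fun g => g ∈ MulAction.stabilizer G x ∧ g • w i ≠ w i) ≤
        -Real.log ‖w i ^ N₀‖ := by
      intro i
      have h4 := nu_rad D (MulAction.stabilizer G x) N₀ hN₀ ω hω (w i) (hwne i) (hw1 i)
        (fun g hg => hb g (MulAction.mem_stabilizer_iff.1 hg) i)
      rw [hN₀', Real.log_one, neg_zero, zero_sub] at h4
      exact h4
    have h5 := Finset.sum_le_sum (fun i (_ : i ∈ (Finset.univ : Finset (Fin r))) => h3 i)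
    linarith
  have hpe : ∀ (a : M) (j : ℕ), (a ^ (p ^ e)) ^ (p ^ j) = a ^ (p ^ (j + e)) := by
    intro a j
    rw [← pow_mul, ← pow_add, add_comm e j]
  have hz' : IsPrimitiveRoot (z ^ (p ^ e)) (p ^ (n + J)) :=
    hz.pow (pow_pos hp0 _) (by rw [← pow_add]; congr 1; omega)
  have hyp : ∀ i, (y i ^ (p ^ e)) ^ (p ^ n) = w i ^ N₀ := by
    intro i
    rw [hpe, hy i]
  have hy0 : ∀ i, y i ≠ 0 := by
    intro i h
    apply hw0 i
    rw [← hy i, h, zero_pow (pow_pos hp0 _).ne']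
  have hye : ∀ i, ‖y i ^ (p ^ e)‖ ≤ 1 := by
    intro i
    have h1 := hw i
    rw [← hyp i, norm_pow] at h1
    exact (pow_le_one_iff_of_nonneg (norm_nonneg _) (pow_pos hp0 _).ne').1 h1
  have hsum := count_moved D p hp Q DX hQ hlow n J hn (z ^ (p ^ e)) hz'
    (fun i => y i ^ (p ^ e)) (fun i => pow_ne_zero _ (hy0 i)) hye
    (fun g hg i => by
      show g • ((y i ^ (p ^ e)) ^ (p ^ n)) = (y i ^ (p ^ e)) ^ (p ^ n)
      rw [hyp i]
      exact hb g ((hmem g).1 hg).1 i) κ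
    (fun i k => by
      obtain ⟨τ, h1, h2, h3, h4⟩ := hκ i k
      refine ⟨τ, (hmem τ).2 ⟨h1, h2⟩, ?_, ?_⟩
      · rw [hpe]
        exact h3
      · rw [hpe]
        exact h4)
    (by
      simp only [hyp]
      exact hJ)
  rw [hpe] at hsum
  obtain ⟨σ, hσQ, h1, h2, h3, h4⟩ := pigeon D p Q n J e z hz y hy0 hsum
  refine ⟨σ, ((hmem σ).1 hσQ).1, ((hmem σ).1 hσQ).2, h1, h2, h3, fun u hu hfix => ?_⟩
  exact h4 u hu (fun h hh hhz hhy => hfix h ((hmem h).1 hh).1 ((hmem h).1 hh).2 hhz hhy)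

end Pool.Agent.H72.RG
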