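import Pool.Agent.H72.RG.LfFacts
import Pool.Agent.H72.RM.Desc

/-!
# Module ConjCount: the conjugates of `θ` on a level field are few

`L = Lf b F (p^(n+a)) (p^(M+a))`, `L₁ = Lf b F (p^n) (p^M)`; both are stable (`lf2_stable`), `L₁ ≤ L`. Let `ζ` be
a primitive `p^(M+a)`-th root of unity and `β i ^ (p^(n+a)) = b i`; `L = K(F, ζ, β)` (`lf2_gen`, `n ≤ M`).
For `σ : Ω ≃ₐ[K] Ω` put `ψ = σ θ σ⁻¹`. It fixes `L₁` pointwise (`hfix`, stability), in particular `F`,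
`ζ^(p^a)` and `(β i)^(p^a)`. So `ψ ζ = (ζ^(p^M))^c ζ` with `c < p^a` and
`ψ (β i) = (ζ^(p^M))^(c_i) β i` with `c_i < p^a` (`ζ^(p^M)` is a primitive `p^a`-th root of unity). Call
`(c, (c_i)) ∈ Fin (p^a) × (Fin r → Fin (p^a))` the type of `ψ`; two such `ψ` of the same type agree on
`F`, `ζ`, `β i`, hence on `L` (`desc_agree`-like, `IntermediateField.adjoin_induction`).
For each type `c` for which there is `σ` with `σ θ σ⁻¹` of type `c` choose such a `σ_c` and put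
`ρ c = σ₀ * σ_c⁻¹` (otherwise `ρ c = 1`). For arbitrary `σ` let `c` be the type of `ψ = σ θ σ⁻¹`;
`ψ = σ_c θ σ_c⁻¹` on `L`, so on `L` (stable under all automorphisms):
`(ρ c σ) θ (ρ c σ)⁻¹ = ρ c ψ (ρ c)⁻¹ = σ₀ σ_c⁻¹ (σ_c θ σ_c⁻¹) σ_c σ₀⁻¹ = σ₀ θ σ₀⁻¹ = θ₀`.
-/

set_option autoImplicit false
set_option linter.unusedSectionVars false

open NumberField IntermediateField

namespace Pool.Agent.H72.RG

open Pool.Agent.H72.RM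

variable {K Ω : Type} [Field K] [Field Ω] [CharZero Ω] [IsAlgClosed Ω] [Algebra K Ω]
  [IsGalois K Ω] {r : ℕ}

theorem conj_count (p : ℕ) [Fact p.Prime] (b : Fin r → K) (hb : ∀ i, b i ≠ 0)
    (F : IntermediateField K Ω) (hF : ∀ σ : Ω ≃ₐ[K] Ω, ∀ x ∈ F, σ x ∈ F) (n M a : ℕ)
    (hnM : n ≤ M) (θ θ₀ σ₀ : Ω ≃ₐ[K] Ω)
    (hconj : ∀ x ∈ Lf b F (p ^ (n + a)) (p ^ (M + a)), (σ₀ * θ * σ₀⁻¹) x = θ₀ x)
    (hfix : ∀ x ∈ Lf b F (p ^ n) (p ^ M), θ x = x) :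
    ∃ ρ : (Fin (p ^ a) × (Fin r → Fin (p ^ a))) → (Ω ≃ₐ[K] Ω), ∀ σ : Ω ≃ₐ[K] Ω, ∃ c,
      ∀ x ∈ Lf b F (p ^ (n + a)) (p ^ (M + a)), (ρ c * σ) (θ ((ρ c * σ).symm x)) = θ₀ x := by
  classical
  have hp : p.Prime := Fact.out
  have hpa : 0 < p ^ a := pow_pos hp.pos a
  haveI : NeZero (p ^ a) := ⟨hpa.ne'⟩
  haveI : NeZero (p ^ (M + a)) := ⟨(pow_pos hp.pos _).ne'⟩
  obtain ⟨ζ, hζ⟩ := HasEnoughRootsOfUnity.exists_primitiveRoot Ω (p ^ (M + a))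
  have hβex : ∀ i, ∃ y : Ω, y ^ (p ^ (n + a)) = algebraMap K Ω (b i) := fun i =>
    IsAlgClosed.exists_pow_nat_eq _ (pow_pos hp.pos _)
  choose β hβ using hβex
  have hβ0 : ∀ i, β i ≠ 0 := by
    intro i h
    have h1 := hβ i
    rw [h, zero_pow (pow_pos hp.pos _).ne'] at h1
    exact hb i ((map_eq_zero (algebraMap K Ω)).1 h1.symm)
  have hζ0 : ζ ≠ 0 := hζ.ne_zero (pow_pos hp.pos _).ne'
  have hω : IsPrimitiveRoot (ζ ^ (p ^ M)) (p ^ a) :=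
    hζ.pow (pow_pos hp.pos _) (by rw [← pow_add])
  have hL : Lf b F (p ^ (n + a)) (p ^ (M + a)) =
      IntermediateField.adjoin K ((F : Set Ω) ∪ ({ζ} ∪ Set.range β)) :=
    lf2_gen b hb F _ _ (Nat.one_le_pow _ _ hp.pos) (Nat.one_le_pow _ _ hp.pos)
      (pow_dvd_pow p (by omega)) ζ hζ β hβ
  -- conjugates of `θ` fix the small field
  have hψfix : ∀ σ : Ω ≃ₐ[K] Ω, ∀ x ∈ Lf b F (p ^ n) (p ^ M), (σ * θ * σ⁻¹) x = x := by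
    intro σ x hx
    have h1 := hfix _ (lf2_stable b F hF (p ^ n) (p ^ M) σ⁻¹ x hx)
    rw [AlgEquiv.mul_apply, AlgEquiv.mul_apply, h1, ← AlgEquiv.mul_apply, mul_inv_cancel,
      AlgEquiv.one_apply]
  have hζmem : ζ ^ (p ^ a) ∈ Lf b F (p ^ n) (p ^ M) := by
    refine IntermediateField.subset_adjoin K _ (Or.inr (Or.inl ?_))
    rw [Set.mem_setOf_eq, ← pow_mul, ← pow_add, add_comm, hζ.pow_eq_one]
  have hβmem : ∀ i, β i ^ (p ^ a) ∈ Lf b F (p ^ n) (p ^ M) := by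
    intro i
    refine IntermediateField.subset_adjoin K _ (Or.inr (Or.inr ⟨i, ?_⟩))
    rw [← pow_mul, ← pow_add, add_comm, hβ]
  have hFmem : ∀ x ∈ F, x ∈ Lf b F (p ^ n) (p ^ M) := fun x hx => lf2_base b F _ _ hx
  have hroot : ∀ (σ : Ω ≃ₐ[K] Ω) (y : Ω), y ≠ 0 → y ^ (p ^ a) ∈ Lf b F (p ^ n) (p ^ M) →
      ∃ c : Fin (p ^ a), (σ * θ * σ⁻¹) y = (ζ ^ (p ^ M)) ^ (c : ℕ) * y := by
    intro σ y hy0 hy
    have h1 : ((σ * θ * σ⁻¹) y / y) ^ (p ^ a) = 1 := by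
      rw [div_pow, ← map_pow, hψfix σ _ hy, div_self (pow_ne_zero _ hy0)]
    obtain ⟨i, hi, hi2⟩ := hω.eq_pow_of_pow_eq_one h1
    refine ⟨⟨i, hi⟩, ?_⟩
    rw [hi2, div_mul_cancel₀ _ hy0]
  have htype : ∀ σ : Ω ≃ₐ[K] Ω, ∃ c : Fin (p ^ a) × (Fin r → Fin (p ^ a)),
      (σ * θ * σ⁻¹) ζ = (ζ ^ (p ^ M)) ^ (c.1 : ℕ) * ζ ∧
      ∀ i, (σ * θ * σ⁻¹) (β i) = (ζ ^ (p ^ M)) ^ (c.2 i : ℕ) * β i := by
    intro σ
    obtain ⟨c1, h1⟩ := hroot σ ζ hζ0 hζmem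
    have h2 := fun i => hroot σ (β i) (hβ0 i) (hβmem i)
    choose c2 h2 using h2
    exact ⟨(c1, c2), h1, h2⟩
  choose ty hty1 hty2 using htype
  refine ⟨fun c => if h : ∃ σ, ty σ = c then σ₀ * (h.choose)⁻¹ else 1, fun σ => ⟨ty σ, ?_⟩⟩
  have hex : ∃ σ', ty σ' = ty σ := ⟨σ, rfl⟩
  obtain ⟨τ, hτdef⟩ : ∃ τ, τ = hex.choose := ⟨_, rfl⟩
  have hτ : ty τ = ty σ := by rw [hτdef]; exact hex.choose_spec
  intro x hx
  simp only [dif_pos hex, ← hτdef]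
  have hagree : ∀ y ∈ Lf b F (p ^ (n + a)) (p ^ (M + a)),
      (τ * θ * τ⁻¹) y = (σ * θ * σ⁻¹) y := by
    intro y hy
    rw [hL] at hy
    refine desc_agree _ _ _ ?_ y hy
    intro z hz
    rcases hz with hz | hz | ⟨i, rfl⟩
    · rw [hψfix τ z (hFmem z hz), hψfix σ z (hFmem z hz)]
    · rw [Set.mem_singleton_iff] at hz
      rw [hz, hty1, hty1, hτ]
    · rw [hty2, hty2, hτ]
  -- the computation
  have hy : (σ₀ * τ⁻¹)⁻¹ x ∈ Lf b F (p ^ (n + a)) (p ^ (M + a)) :=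
    lf2_stable b F hF _ _ _ x hx
  have h1 : (σ₀ * τ⁻¹ * σ) (θ ((σ₀ * τ⁻¹ * σ).symm x)) =
      (σ₀ * τ⁻¹) ((σ * θ * σ⁻¹) ((σ₀ * τ⁻¹)⁻¹ x)) := rfl
  rw [h1, ← hagree _ hy, ← hconj x hx]
  simp only [← AlgEquiv.mul_apply]
  congr 1
  group

end Pool.Agent.H72.RG
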