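import Pool.Agent.H72.RG.OneY

/-!
# Module Count: many elements fix the level `n` field and move the `p^(n+J)`-th roots of unity

`S(P) = nuS π P`, `ζ = z^(p^J)` is a primitive `p^n`-th root of unity. By `hlow` for `z` (`m = n + J`):
`(n + J - 1) log p ≤ S(g z ≠ z)`. Every `g` with `g z ≠ z` satisfies one of: `g ∉ Q`;
`g ∈ Q, g ζ ≠ ζ`; `g ∈ Q, g ζ = ζ, g (y i) ≠ y i` for some `i`; or the condition of the conclusion. Use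
`nuS_le_add`, `nuS_le_sum`. `S(g ∉ Q) ≤ DX`; `S(g ∈ Q, g ζ ≠ ζ) ≤ -log ‖p^n‖ - log ‖ζ^(p^n)‖ = n log p`
(`nu_rad` for `y = ζ`, `ζ^(p^n) = 1`); `one_y` for each `i`. So
`(n + J - 1) log p ≤ DX + n log p + ∑_i (..) + S(conclusion)`, and `hJ` gives `log p ≤ S(conclusion)`.
-/

set_option autoImplicit false
set_option linter.unusedSectionVars false

namespace Pool.Agent.H72.RG

open Pool.Agent.H72.RM

variable {M G : Type} [NormedField M] [Group G] [MulSemiringAction G M] [Fintype G] {π : M}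

theorem count_moved (D : RamData M G π) (p : ℕ) [Fact p.Prime] (hp : ‖(p : M)‖ = 1 / (p : ℝ))
    (Q : Subgroup G) (DX : ℝ) (hQ : nuS π (fun g => g ∉ Q) ≤ DX)
    (hlow : ∀ m : ℕ, 1 ≤ m → ∀ ζ : M, IsPrimitiveRoot ζ (p ^ m) →
      ((m : ℝ) - 1) * Real.log p ≤ nuS π (fun g : G => g • ζ ≠ ζ))
    {r : ℕ} (n J : ℕ) (hn : 1 ≤ n) (z : M) (hz : IsPrimitiveRoot z (p ^ (n + J)))
    (y : Fin r → M) (hy0 : ∀ i, y i ≠ 0) (hy : ∀ i, ‖y i‖ ≤ 1)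
    (hb : ∀ g ∈ Q, ∀ i, g • (y i ^ (p ^ n)) = y i ^ (p ^ n)) (κ : ℕ)
    (hτ : ∀ (i : Fin r) (k : ℕ), ∃ τ ∈ Q, τ • (z ^ (p ^ J)) = z ^ (p ^ J) ∧
      τ • y i = (z ^ (p ^ J)) ^ (p ^ κ * k) * y i)
    (hJ : 2 * Real.log p + DX +
      ∑ i, (-Real.log ‖y i ^ (p ^ n)‖ + ((κ : ℝ) + 2) * Real.log p + DX) ≤ J * Real.log p) :
    Real.log p ≤ nuS π (fun g => g ∈ Q ∧ g • (z ^ (p ^ J)) = z ^ (p ^ J) ∧
      (∀ i, g • y i = y i) ∧ g • z ≠ z) := by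
  have hp0 : p.Prime := Fact.out
  have hζ : IsPrimitiveRoot (z ^ (p ^ J)) (p ^ n) :=
    hz.pow (pow_pos hp0.pos _) (by rw [← pow_add, add_comm])
  set ζ := z ^ (p ^ J) with hζdef
  have hζ1 : ζ ^ (p ^ n) = 1 := hζ.pow_eq_one
  have hN : 1 ≤ p ^ n := Nat.one_le_pow _ _ hp0.pos
  have hnζ : ‖ζ‖ = 1 := norm_root_one (p ^ n) hN ζ hζ1
  have hζ0 : ζ ≠ 0 := by
    intro h
    rw [h, norm_zero] at hnζ
    exact zero_ne_one hnζ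
  -- the lower bound
  have h1 := hlow (n + J) (by omega) z hz
  -- splitting
  have h2 : nuS π (fun g : G => g • z ≠ z) ≤ nuS π (fun g => g ∉ Q) +
      nuS π (fun g => g ∈ Q ∧ g • z ≠ z) := by
    refine nuS_le_add D _ _ _ fun g hg => ?_
    by_cases h : g ∈ Q
    · exact Or.inr ⟨h, hg⟩
    · exact Or.inl h
  have h3 : nuS π (fun g => g ∈ Q ∧ g • z ≠ z) ≤ nuS π (fun g => g ∈ Q ∧ g • ζ ≠ ζ) +
      nuS π (fun g => g ∈ Q ∧ g • ζ = ζ ∧ g • z ≠ z) := by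
    refine nuS_le_add D _ _ _ fun g hg => ?_
    by_cases h : g • ζ = ζ
    · exact Or.inr ⟨hg.1, h, hg.2⟩
    · exact Or.inl ⟨hg.1, h⟩
  have h4 : nuS π (fun g => g ∈ Q ∧ g • ζ = ζ ∧ g • z ≠ z) ≤
      nuS π (fun g => ∃ i, g ∈ Q ∧ g • ζ = ζ ∧ g • y i ≠ y i) +
      nuS π (fun g => g ∈ Q ∧ g • ζ = ζ ∧ (∀ i, g • y i = y i) ∧ g • z ≠ z) := by
    refine nuS_le_add D _ _ _ fun g hg => ?_
    by_cases h : ∀ i, g • y i = y i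
    · exact Or.inr ⟨hg.1, hg.2.1, h, hg.2.2⟩
    · push Not at h
      obtain ⟨i, hi⟩ := h
      exact Or.inl ⟨i, hg.1, hg.2.1, hi⟩
  have h5 : nuS π (fun g => ∃ i, g ∈ Q ∧ g • ζ = ζ ∧ g • y i ≠ y i) ≤
      ∑ i, nuS π (fun g => g ∈ Q ∧ g • ζ = ζ ∧ g • y i ≠ y i) := by
    refine nuS_le_sum D Finset.univ _ (fun i g => g ∈ Q ∧ g • ζ = ζ ∧ g • y i ≠ y i)
      fun g hg => ?_
    obtain ⟨i, hi⟩ := hg
    exact ⟨i, Finset.mem_univ i, hi⟩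
  have h6 : ∑ i, nuS π (fun g => g ∈ Q ∧ g • ζ = ζ ∧ g • y i ≠ y i) ≤
      ∑ i, (-Real.log ‖y i ^ (p ^ n)‖ + ((κ : ℝ) + 2) * Real.log p + DX) := by
    refine Finset.sum_le_sum fun i _ => ?_
    exact one_y D p hp Q DX hQ n ζ hζ (hlow n hn ζ hζ) (y i) (hy0 i) (hy i)
      (fun g hg => hb g hg i) κ (hτ i)
  have h7 : nuS π (fun g => g ∈ Q ∧ g • ζ ≠ ζ) ≤ (n : ℝ) * Real.log p := by
    have h8 := nu_rad D Q (p ^ n) hN ζ hζ ζ hζ0 hnζ.le (fun g _ => by rw [hζ1, smul_one])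
    have h9 : -Real.log ‖((p ^ n : ℕ) : M)‖ - Real.log ‖ζ ^ (p ^ n)‖ = (n : ℝ) * Real.log p := by
      rw [hζ1, norm_one, Real.log_one, Nat.cast_pow, norm_pow, hp, Real.log_pow, one_div,
        Real.log_inv]
      ring
    rw [h9] at h8
    exact h8
  push_cast at h1
  linarith

end Pool.Agent.H72.RG
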