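import Pool.Agent.H72.RG.Nu

/-!
# Module NuCoset: ramification numbers on cosets

`nu_coset_prod`: `g ↦ σ⁻¹ * g` is a bijection from `{g | σ⁻¹ * g ∈ H}` to `H`, so
`nuS π (fun g => σ⁻¹ * g ∈ H) = ∑ h : H, nu π (σ * h)` (e.g. `Finset.sum_bij'`, or `Finset.sum_subtype` and
`Fintype.sum_equiv`). Since `σ ∉ H`, all `σ * h ≠ 1`, so `‖(σ * h) • π - π‖ = exp (-nu π (σ * h))`
(`norm_eq_exp_nu`), and the product is the exponential of the sum (`Real.exp_sum`).
`nu_up`: `σ ∉ H` (otherwise `σ • y = y`). `D.ram_up H σ y`: `‖σ • y - y‖ ≤ exp (-nuS ..)`; take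
logarithms (`‖σ • y - y‖ > 0`).
`nu_down`: `D.ram_down H σ B`: `exp (-nuS ..) ≤ B`, take logarithms.
`nu_close`: `D.ram_up` and monotonicity of `exp`.
-/

set_option autoImplicit false
set_option linter.unusedSectionVars false

namespace Pool.Agent.H72.RG

open Pool.Agent.H72.RM

variable {M G : Type} [NormedField M] [Group G] [MulSemiringAction G M] [Fintype G] {π : M}

theorem nu_coset_prod (D : RamData M G π) (H : Subgroup G) [Fintype H] (σ : G) (hσ : σ ∉ H) :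
    ∏ h : H, ‖(σ * (h : G)) • π - π‖ = Real.exp (-nuS π (fun g => σ⁻¹ * g ∈ H)) := by
  have key : ∑ h : H, nu π (σ * (h : G)) = nuS π (fun g => σ⁻¹ * g ∈ H) := by
    classical
    unfold nuS
    refine Finset.sum_bij' (fun h _ => σ * (h : G))
      (fun g hg => ⟨σ⁻¹ * g, (Finset.mem_filter.1 hg).2⟩) ?_ ?_ ?_ ?_ ?_
    · intro h _
      rw [Finset.mem_filter]
      refine ⟨Finset.mem_univ _, ?_⟩
      rw [inv_mul_cancel_left]
      exact h.2
    · intro g _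
      exact Finset.mem_univ _
    · intro h _
      apply Subtype.ext
      exact inv_mul_cancel_left σ (h : G)
    · intro g _
      exact mul_inv_cancel_left σ g
    · intro h _
      rfl
  rw [← key, ← Finset.sum_neg_distrib, Real.exp_sum]
  refine Finset.prod_congr rfl fun h _ => ?_
  refine norm_eq_exp_nu D _ ?_
  intro h1
  apply hσ
  have h2 : σ = ((h : G))⁻¹ := eq_inv_of_mul_eq_one_left h1
  rw [h2]
  exact H.inv_mem h.2

private theorem nu_up_aux (D : RamData M G π) (H : Subgroup G) (σ : G) (hσ : σ ∉ H) (y : M)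
    (hy : ‖y‖ ≤ 1) (hyH : ∀ h ∈ H, h • y = y) :
    ‖σ • y - y‖ ≤ Real.exp (-nuS π (fun g => σ⁻¹ * g ∈ H)) := by
  classical
  have : Fintype H := Fintype.ofFinite H
  rw [← nu_coset_prod D H σ hσ]
  exact D.ram_up H σ y hy hyH

theorem nu_up (D : RamData M G π) (H : Subgroup G) (σ : G) (y : M) (hy : ‖y‖ ≤ 1)
    (hyH : ∀ h ∈ H, h • y = y) (hne : σ • y ≠ y) :
    nuS π (fun g => σ⁻¹ * g ∈ H) ≤ -Real.log ‖σ • y - y‖ := by
  have hσ : σ ∉ H := fun h => hne (hyH σ h)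
  have h1 := nu_up_aux D H σ hσ y hy hyH
  have h2 : 0 < ‖σ • y - y‖ := by
    rw [norm_pos_iff, sub_ne_zero]
    exact hne
  have h3 := (Real.log_le_iff_le_exp h2).2 h1
  linarith

theorem nu_down (D : RamData M G π) (H : Subgroup G) (σ : G) (hσ : σ ∉ H) (B : ℝ) (hB : 0 < B)
    (h : ∀ x : M, ‖x‖ ≤ 1 → (∀ h ∈ H, h • x = x) → ‖σ • x - x‖ ≤ B) :
    -Real.log B ≤ nuS π (fun g => σ⁻¹ * g ∈ H) := by
  classical
  have : Fintype H := Fintype.ofFinite H
  have h1 := D.ram_down H σ B hB.le h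
  rw [nu_coset_prod D H σ hσ] at h1
  have h2 := (Real.le_log_iff_exp_le hB).2 h1
  linarith

theorem nu_close (D : RamData M G π) (H : Subgroup G) (σ : G) (hσ : σ ∉ H) (t : ℝ)
    (ht : t ≤ nuS π (fun g => σ⁻¹ * g ∈ H)) (y : M) (hy : ‖y‖ ≤ 1) (hyH : ∀ h ∈ H, h • y = y) :
    ‖σ • y - y‖ ≤ Real.exp (-t) :=
  (nu_up_aux D H σ hσ y hy hyH).trans (Real.exp_le_exp.2 (neg_le_neg ht))

end Pool.Agent.H72.RG
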