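import Mathlib

/-!
# Module RootSum: products of `1 - ζ^i`

`root_sum`: `IsPrimitiveRoot.prod_one_sub_pow_eq_order` (or a similar lemma: for a primitive `N`-th root of
unity `ζ` the product of `1 - ζ^i`, `1 ≤ i < N`, is `N`); take norms and logarithms
(`Real.log_prod`, all factors are nonzero).
`root_sum_prime`: `Polynomial.cyclotomic_eq_prod_X_sub_primitiveRoots` and
`Polynomial.eval_one_cyclotomic_prime_pow`: the product of `1 - ω` over the primitive `p^j`-th roots of
unity is `p`.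
-/

set_option autoImplicit false

namespace Pool.Agent.H72.RG

theorem root_sum {M : Type} [NormedField M] (N : ℕ) (hN : 1 ≤ N) (ζ : M)
    (hζ : IsPrimitiveRoot ζ N) :
    ∑ i ∈ Finset.Ico 1 N, (-Real.log ‖ζ ^ i - 1‖) = -Real.log ‖(N : M)‖ := by
  obtain ⟨n, rfl⟩ : ∃ n, N = n + 1 := ⟨N - 1, by omega⟩
  have h1 := hζ.prod_one_sub_pow_eq_order
  rw [Finset.sum_neg_distrib, Finset.sum_Ico_eq_sum_range, Nat.add_sub_cancel, ← Real.log_prod]
  · congr 2
    rw [Nat.cast_succ, ← h1, norm_prod]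
    refine Finset.prod_congr rfl fun i _ => ?_
    rw [norm_sub_rev, add_comm 1 i]
  · intro i hi
    rw [norm_ne_zero_iff, sub_ne_zero]
    rw [Finset.mem_range] at hi
    exact hζ.pow_ne_one_of_pos_of_lt (by omega) (by omega)

theorem root_sum_prime {M : Type} [NormedField M] (p : ℕ) [Fact p.Prime] (j : ℕ) (hj : 1 ≤ j)
    (ζ : M) (hζ : IsPrimitiveRoot ζ (p ^ j)) :
    ∑ ω ∈ primitiveRoots (p ^ j) M, (-Real.log ‖ω - 1‖) = -Real.log ‖(p : M)‖ := by
  obtain ⟨k, rfl⟩ : ∃ k, j = k + 1 := ⟨j - 1, by omega⟩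
  have hp : p.Prime := Fact.out
  have h1 := Polynomial.eval_one_cyclotomic_prime_pow (R := M) (p := p) k
  rw [Polynomial.cyclotomic_eq_prod_X_sub_primitiveRoots hζ, Polynomial.eval_prod] at h1
  simp only [Polynomial.eval_sub, Polynomial.eval_X, Polynomial.eval_C] at h1
  rw [Finset.sum_neg_distrib, ← Real.log_prod]
  · rw [← h1, norm_prod]
    congr 2
    refine Finset.prod_congr rfl fun i _ => ?_
    rw [norm_sub_rev]
  · intro ω hω
    rw [norm_ne_zero_iff, sub_ne_zero]
    rintro rfl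
    have h2 := isPrimitiveRoot_of_mem_primitiveRoots hω
    have h3 := h2.eq_orderOf
    rw [orderOf_one] at h3
    have h4 : 1 < p ^ (k + 1) := Nat.one_lt_pow (by omega) hp.one_lt
    omega

end Pool.Agent.H72.RG
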