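import Pool.Agent.H72.RG.RamE
import Pool.Agent.H72.RG.NuCoset
import Pool.Agent.H72.RG.RootSum

/-!
# Module CycLow: lower bound for the elements that move `ζ`

`G = E ≃ₐ[W] E`, `W = Wnr p C`, `g • x = g x`. Let `H = MulAction.stabilizer G ζ` and let `R` be the finset of
the primitive `p^m`-th roots of unity of `E` other than `ζ`. For `z ∈ R` there is `σ_z ∈ G` with
`σ_z ζ = z`: `z = ζ^h`, `h` prime to `p`, `cyc_W` (for `(ζ : C)`) and `restrict_E`. The sets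
`{g | σ_z⁻¹ * g ∈ H} = {g | g ζ = z}` are disjoint and contained in `{g | g ζ ≠ ζ}` (`nuS_sum_le`).
`nu_down` with `H`, `σ_z`, `B = ‖z - ζ‖`: let `x : E`, `‖x‖ ≤ 1`, be fixed by `H`. Then
`(x : C) ∈ ℚ_p(tame, ζ)` by `mem_adjoin_of_fixed`: a `τ : C ≃ₐ[ℚ_[p]] C` fixing `tame p C` and `ζ` restricts
(`restrict_E`) to an element of `H`, so it fixes `x`. `lift_E` gives `σ : C ≃ₐ[ℚ_[p]] C` extending `σ_z`, and
`mono` gives `‖σ x - x‖ ≤ ‖σ ζ - ζ‖ = ‖z - ζ‖`. So the sum is at least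
`∑_{z ∈ R} -log ‖z - ζ‖`.
Computation of this sum: `‖z - ζ‖ = ‖z/ζ - 1‖`. The map `z ↦ z/ζ` maps all `p^m`-th roots of unity `z ≠ ζ`
bijectively to the roots of unity `≠ 1`; by `root_sum` (`N = p^m`) the sum of `-log ‖z - ζ‖` over all
`p^m`-th roots of unity `z ≠ ζ` is `-log ‖p^m‖ = m log p` (`norm_p`). The `z` that are not primitive are the
`p^(m-1)` solutions of `z^(p^(m-1)) = 1`; for them `z/ζ` is a primitive `p^m`-th root of unity and
`-log ‖z/ζ - 1‖ = log p / (p^(m-1) (p-1))` (`norm_zeta_sub_one`), their total is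
`log p / (p-1) ≤ log p`. So `∑_{z ∈ R} ≥ m log p - log p`.
(Alternative: `z = ζ^h` with `h` in the units of `ZMod (p^m)`.)
-/

set_option autoImplicit false
set_option linter.unusedSectionVars false

open IntermediateField

namespace Pool.Agent.H72.RG

open Pool.Agent.H72.RM

variable {p : ℕ} [Fact p.Prime] {C : Type} [NormedField C] [NormedAlgebra ℚ_[p] C]
  [IsUltrametricDist C] [IsAlgClosed C] [Algebra.IsAlgebraic ℚ_[p] C] [IsoEnv p C]

/-- the condition of `nu_down` for the stabilizer of `ζ` -/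
theorem cyc_low_term (E : IntermediateField (Wnr p C) C) [FiniteDimensional (Wnr p C) E]
    [Normal (Wnr p C) E] (π : E) (D : RamData E (E ≃ₐ[Wnr p C] E) π) (m : ℕ) (hm : 1 ≤ m) (ζ : E)
    (hζ : IsPrimitiveRoot ζ (p ^ m)) (h : ℕ) (hh : Nat.Coprime h p) (hne : ζ ^ h ≠ ζ) :
    -Real.log ‖ζ ^ h - ζ‖ ≤ nuS π (fun g : E ≃ₐ[Wnr p C] E => g • ζ = ζ ^ h) := by
  have : CharZero C := charZero_C p C
  have hact : ∀ (g : E ≃ₐ[Wnr p C] E) (x : E), g • x = g x := fun g x => rfl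
  have hζC : IsPrimitiveRoot (ζ : C) (p ^ m) :=
    hζ.map_of_injective (f := algebraMap E C) (algebraMap E C).injective
  obtain ⟨σ, hσ1, hσ2⟩ := cyc_W m (ζ : C) hζC h hh
  obtain ⟨g₀, hg₀⟩ := restrict_E E σ hσ1
  have hg₀ζ : g₀ ζ = ζ ^ h := by
    apply Subtype.ext
    rw [← hg₀ ζ, hσ2]
    rfl
  have hnot : g₀ ∉ MulAction.stabilizer (E ≃ₐ[Wnr p C] E) ζ := by
    intro hmem
    rw [MulAction.mem_stabilizer_iff, hact, hg₀ζ] at hmem
    exact hne hmem
  have hB : 0 < ‖ζ ^ h - ζ‖ := by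
    rw [norm_pos_iff, sub_ne_zero]
    exact hne
  have hdown := nu_down D (MulAction.stabilizer (E ≃ₐ[Wnr p C] E) ζ) g₀ hnot ‖ζ ^ h - ζ‖ hB (by
    intro y hy1 hy2
    have hymem : (y : C) ∈ IntermediateField.adjoin ℚ_[p] (tame p C ∪ {(ζ : C)}) := by
      apply mem_adjoin_of_fixed
      intro ρ hρ
      have hρ1 : ∀ ω ∈ tame p C, ρ ω = ω := fun ω hω => hρ ω (Or.inl hω)
      obtain ⟨g, hg⟩ := restrict_E E ρ hρ1
      have hgζ : g ζ = ζ := by
        apply Subtype.ext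
        rw [← hg ζ]
        exact hρ (ζ : C) (Or.inr rfl)
      have h5 := hy2 g (by rw [MulAction.mem_stabilizer_iff, hact, hgζ])
      rw [hact] at h5
      rw [hg y, h5]
    have h6 := mono m hm (ζ : C) hζC (y : C) hymem hy1 σ hσ1
    rw [hσ2, hg₀ y] at h6
    exact h6)
  refine hdown.trans (le_of_eq ?_)
  refine nuS_congr _ _ fun g => ?_
  rw [MulAction.mem_stabilizer_iff, mul_smul, inv_smul_eq_iff, hact g₀ ζ, hg₀ζ]

theorem cyc_low (E : IntermediateField (Wnr p C) C) [FiniteDimensional (Wnr p C) E]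
    [Normal (Wnr p C) E] (π : E) (D : RamData E (E ≃ₐ[Wnr p C] E) π) (m : ℕ) (hm : 1 ≤ m) (ζ : E)
    (hζ : IsPrimitiveRoot ζ (p ^ m)) :
    ((m : ℝ) - 1) * Real.log p ≤ nuS π (fun g : E ≃ₐ[Wnr p C] E => g • ζ ≠ ζ) := by
  have : CharZero C := charZero_C p C
  have hp : p.Prime := Fact.out
  have hp1 : (1 : ℝ) < p := by exact_mod_cast hp.one_lt
  have hp0 : (0 : ℝ) < p := by linarith
  have hlp : 0 < Real.log p := Real.log_pos hp1
  have hN : 1 ≤ p ^ m := Nat.one_le_pow _ _ hp.pos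
  have hpN : p ∣ p ^ m := dvd_pow_self p (by omega)
  have hζC : IsPrimitiveRoot (ζ : C) (p ^ m) :=
    hζ.map_of_injective (f := algebraMap E C) (algebraMap E C).injective
  have hζ1 : ‖ζ‖ = 1 := by
    have h1 := congrArg norm hζ.pow_eq_one
    rw [norm_pow, norm_one] at h1
    exact (pow_eq_one_iff_of_nonneg (norm_nonneg ζ) (by omega)).1 h1
  have hpi : ∀ i : ℕ, 0 < i → i < p ^ m → ζ ^ i ≠ 1 := by
    intro i hi1 hi2
    exact hζ.pow_ne_one_of_pos_of_lt hi1.ne' hi2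
  -- the pieces
  set S : Finset ℕ := (Finset.Ico 1 (p ^ m)).filter (fun i => ¬ p ∣ i + 1) with hS
  have hSlt : ∀ i ∈ S, 1 ≤ i ∧ i + 1 < p ^ m ∧ Nat.Coprime (i + 1) p ∧ ζ ^ (i + 1) ≠ ζ := by
    intro i hi
    rw [hS, Finset.mem_filter, Finset.mem_Ico] at hi
    obtain ⟨⟨h1, h2⟩, h3⟩ := hi
    have h4 : i + 1 ≠ p ^ m := by
      intro h
      rw [h] at h3
      exact h3 hpN
    refine ⟨h1, by omega, ?_, ?_⟩
    · rw [Nat.coprime_comm]
      exact (Nat.Prime.coprime_iff_not_dvd hp).2 h3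
    · intro h
      have h5 : ζ ≠ 0 := hζ.ne_zero (by omega)
      rw [pow_succ] at h
      have h6 : ζ ^ i = 1 := mul_right_cancel₀ h5 (by rw [h, one_mul])
      exact hpi i (by omega) h2 h6
  have h1 : ∑ i ∈ S, nuS π (fun g : E ≃ₐ[Wnr p C] E => g • ζ = ζ ^ (i + 1)) ≤
      nuS π (fun g : E ≃ₐ[Wnr p C] E => g • ζ ≠ ζ) := by
    refine nuS_sum_le D S _ (fun (i : ℕ) (g : E ≃ₐ[Wnr p C] E) => g • ζ = ζ ^ (i + 1)) ?_ ?_
    · intro i hi g hg
      rw [hg]
      exact (hSlt i hi).2.2.2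
    · intro i hi j hj hij g hg hg'
      rw [hg] at hg'
      have h2 := hζ.pow_inj (hSlt i hi).2.1 (hSlt j hj).2.1 hg'
      omega
  refine le_trans ?_ h1
  have h2 : ∑ i ∈ S, (-Real.log ‖ζ ^ i - 1‖) ≤
      ∑ i ∈ S, nuS π (fun g : E ≃ₐ[Wnr p C] E => g • ζ = ζ ^ (i + 1)) := by
    refine Finset.sum_le_sum fun i hi => ?_
    obtain ⟨_, _, h3, h4⟩ := hSlt i hi
    have h5 := cyc_low_term E π D m hm ζ hζ (i + 1) h3 h4
    have h6 : ‖ζ ^ (i + 1) - ζ‖ = ‖ζ ^ i - 1‖ := by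
      have h7 : ζ ^ (i + 1) - ζ = (ζ ^ i - 1) * ζ := by ring
      rw [h7, norm_mul, hζ1, mul_one]
    rw [h6] at h5
    exact h5
  refine le_trans ?_ h2
  -- the whole sum
  have h3 := root_sum (p ^ m) hN ζ hζ
  have h4 : ‖((p ^ m : ℕ) : E)‖ = (1 / (p : ℝ)) ^ m := by
    have h5 : ‖(p : E)‖ = 1 / (p : ℝ) := by
      have h6 : ‖(((p : E)) : C)‖ = 1 / (p : ℝ) := by
        push_cast
        exact norm_p
      exact h6
    rw [Nat.cast_pow, norm_pow, h5]
  rw [h4, Real.log_pow, one_div, Real.log_inv] at h3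
  -- split
  have h5 := Finset.sum_filter_add_sum_filter_not (Finset.Ico 1 (p ^ m)) (fun i => ¬ p ∣ i + 1)
    (fun i => -Real.log ‖ζ ^ i - 1‖)
  rw [h3, ← hS] at h5
  have h6 : ∑ i ∈ (Finset.Ico 1 (p ^ m)).filter (fun i => ¬ ¬ p ∣ i + 1),
      (-Real.log ‖ζ ^ i - 1‖) ≤ Real.log p := by
    set K : ℕ := p ^ (m - 1) * (p - 1) with hK
    have hq : 0 < p ^ (m - 1) := pow_pos hp.pos _
    have hp2 := hp.two_le
    have hK0 : 0 < K := Nat.mul_pos hq (by omega)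
    have hK1 : (0 : ℝ) < K := by exact_mod_cast hK0
    have h7 : ∀ i ∈ (Finset.Ico 1 (p ^ m)).filter (fun i => ¬ ¬ p ∣ i + 1),
        -Real.log ‖ζ ^ i - 1‖ = Real.log p / K := by
      intro i hi
      rw [Finset.mem_filter, Finset.mem_Ico, not_not] at hi
      obtain ⟨⟨hi1, hi2⟩, hi3⟩ := hi
      have hi4 : Nat.Coprime i (p ^ m) := by
        apply Nat.Coprime.pow_right
        rw [Nat.coprime_comm]
        refine (Nat.Prime.coprime_iff_not_dvd hp).2 fun hd => ?_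
        have h8 : p ∣ 1 := (Nat.dvd_add_right hd).1 hi3
        exact hp.one_lt.ne' (Nat.dvd_one.1 h8)
      have h8 : IsPrimitiveRoot ((ζ : C) ^ i) (p ^ m) := hζC.pow_of_coprime i hi4
      have h9 := norm_zeta_sub_one m hm _ h8
      have h10 : ‖(ζ : C) ^ i - 1‖ = ‖ζ ^ i - 1‖ := rfl
      rw [h10, ← hK] at h9
      have h11 := congrArg Real.log h9
      rw [Real.log_pow, one_div, Real.log_inv] at h11
      rw [eq_div_iff hK1.ne']
      linarith
    rw [Finset.sum_congr rfl h7, Finset.sum_const, nsmul_eq_mul]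
    have h8 : ((Finset.Ico 1 (p ^ m)).filter (fun i => ¬ ¬ p ∣ i + 1)).card ≤ p ^ (m - 1) := by
      have h9 := Nat.card_multiples (p ^ m) p
      have h10 : p ^ m / p = p ^ (m - 1) := by
        obtain ⟨k, rfl⟩ : ∃ k, m = k + 1 := ⟨m - 1, by omega⟩
        rw [pow_succ, Nat.mul_div_cancel _ hp.pos, Nat.add_sub_cancel]
      rw [h10] at h9
      rw [← h9]
      refine Finset.card_le_card fun i hi => ?_
      rw [Finset.mem_filter, Finset.mem_Ico, not_not] at hi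
      rw [Finset.mem_filter, Finset.mem_range]
      exact ⟨hi.1.2, hi.2⟩
    have h9 : (((Finset.Ico 1 (p ^ m)).filter (fun i => ¬ ¬ p ∣ i + 1)).card : ℝ) ≤ K := by
      have h10 : p ^ (m - 1) ≤ K := by
        rw [hK]
        exact Nat.le_mul_of_pos_right _ (by omega)
      exact_mod_cast h8.trans h10
    calc (((Finset.Ico 1 (p ^ m)).filter (fun i => ¬ ¬ p ∣ i + 1)).card : ℝ) * (Real.log p / K)
        ≤ K * (Real.log p / K) := mul_le_mul_of_nonneg_right h9 (by positivity)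
      _ = Real.log p := by field_simp
  linarith

end Pool.Agent.H72.RG
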