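import Pool.Agent.H72.RG.SData
import Pool.Agent.H72.RM.Transport

/-!
# Module GlobLoc: the local theorem in global terms

Let `X` be the field of `local_X` for `φ = ι ∘ algebraMap K Ω` and `h₀` the number of `local_cyc` for `X`.
For `m` let `σ'` be the automorphism of `C` from `local_cyc`; it fixes `ι(K) ⊂ X`, so `transport` gives
`σ : Ω ≃ₐ[K] Ω` with `ι (σ x) = σ' (ι x)`; `ι` is injective, so `σ ζ = ζ^(h₀)` if `ζ^(p^m) = 1`.
Let `b' i = ι (b i)` if `‖ι (b i)‖ ≤ 1` and `b' i = (ι (b i))⁻¹` otherwise: `b' i ∈ X`, nonzero, norm `≤ 1`, not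
a root of unity. `local_fin` for `X`, `b'` gives `J' ≥ 1`; put `J = J' - 1`. For `e` take `ρ`, `n₀` of
`local_fin`. Given `n, n', N₀`: choose in `C` (algebraically closed, characteristic zero) `w i ^ N₀ = b' i`, a
primitive `p^(n+J'+e)`-th root of unity `z`, `y i ^ (p^(n+e)) = b' i`; `local_fin` gives `g =: τ`, and
`transport` gives `θ` (`g` fixes `X ∋ ι(K)`).
(1) `θ x = x`, i.e. `τ (ι x) = ι x`, on the generators `x` of `Lf b (RF Ω b n' N₀) (p^n) (p^(n+J))` (over `K`;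
the elements of `RF Ω b n' N₀` by its own generators): `x^(n') = 1` or `x^(N₀) = 1`: `ι x ∈ tame p C`.
`x^(N₀) = b i`: `((ι x)^(±1) / w i)^(N₀) = 1`, so `(ι x)^(±1) = ω w i` with `ω ∈ tame p C`. `x^(p^(n+J)) = 1`: `ι x`
is a power of the primitive `p^(n+J)`-th root of unity `z^(p^(e+1))` (`n + J' + e = (n + J) + (e + 1)`).
`x^(p^n) = b i`: `(ι x)^(±1) = ω (y i)^(p^e)` with `ω^(p^n) = 1`, and `ω` is fixed by the previous case.
(2) `z^(p^e)` is a primitive `p^(n+J')`-th root of unity, hence a power of `ι ζ` if `ζ` is a primitive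
`p^(n+J+1)`-th root of unity; it is moved by `τ`, so `τ (ι ζ) ≠ ι ζ`, `θ ζ ≠ ζ`.
(3) `ι x ∈ CF X (range w ∪ ({z} ∪ range y))` for `x ∈ Lf b (RF Ω b n' N₀) (p^(n+e)) (p^(n+e+J+1))`, again on
generators (`tame p C ⊂ Wnr p C`; `x^(p^(n+e+J+1)) = 1`: `ι x` is a power of `z`; `x^(p^(n+e)) = b i`:
`(ι x)^(±1) = ω y i` with `ω` a power of `z`), using `IntermediateField.adjoin_induction`. Then the last
property of `local_fin`, `ι x ≠ 0`.
-/

set_option autoImplicit false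
set_option linter.unusedSectionVars false

open NumberField IntermediateField

namespace Pool.Agent.H72.RG

open Pool.Agent.H72.RM

variable {p : ℕ} [Fact p.Prime] {C : Type} [NormedField C] [NormedAlgebra ℚ_[p] C]
  [IsUltrametricDist C] [IsAlgClosed C] [Algebra.IsAlgebraic ℚ_[p] C] [IsoEnv p C]
  {K Ω : Type} [Field K] [NumberField K] [Field Ω] [CharZero Ω] [IsAlgClosed Ω] [Algebra K Ω]
  [IsGalois K Ω] {r : ℕ}

theorem gl_root {C : Type} [Field C] (N : ℕ) (hN : 1 ≤ N) (c b' x w : C) (hc : c ≠ 0)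
    (hb : b' = c ∨ b' = c⁻¹) (hx : x ^ N = c) (hw : w ^ N = b') :
    ∃ ω : C, ω ^ N = 1 ∧ (x = ω * w ∨ x = ω * w⁻¹) := by
  have hx0 : x ≠ 0 := by
    rintro rfl
    rw [zero_pow (by omega)] at hx
    exact hc hx.symm
  have hb0 : b' ≠ 0 := by
    rcases hb with h | h
    · rw [h]; exact hc
    · rw [h]; exact inv_ne_zero hc
  have hw0 : w ≠ 0 := by
    rintro rfl
    rw [zero_pow (by omega)] at hw
    exact hb0 hw.symm
  rcases hb with h | h
  · refine ⟨x / w, ?_, Or.inl ?_⟩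
    · rw [div_pow, hx, hw, h, div_self hc]
    · field_simp
  · refine ⟨x * w, ?_, Or.inr ?_⟩
    · rw [mul_pow, hx, hw, h, mul_inv_cancel₀ hc]
    · field_simp

theorem gl_fix {C : Type} [Field C] (τ : C →+* C) (x w ω : C) (hω : τ ω = ω) (hw : τ w = w)
    (h : x = ω * w ∨ x = ω * w⁻¹) : τ x = x := by
  rcases h with h | h
  · rw [h, map_mul, hω, hw]
  · rw [h, map_mul, map_inv₀, hω, hw]

theorem gl_in {C W : Type} [Field C] [Field W] [Algebra W C] (G : IntermediateField W C)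
    (x w ω : C) (hω : ω ∈ G) (hw : w ∈ G) (h : x = ω * w ∨ x = ω * w⁻¹) : x ∈ G := by
  rcases h with h | h
  · rw [h]; exact mul_mem hω hw
  · rw [h]; exact mul_mem hω (inv_mem hw)

theorem gl_mem {K Ω C W : Type} [Field K] [Field Ω] [Field C] [Field W] [Algebra K Ω]
    [Algebra W C] (ι : Ω →+* C) (G : IntermediateField W C) (S : Set Ω)
    (hK : ∀ y : K, ι (algebraMap K Ω y) ∈ G) (hS : ∀ x ∈ S, ι x ∈ G) (x : Ω)
    (hx : x ∈ IntermediateField.adjoin K S) : ι x ∈ G := by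
  induction hx using IntermediateField.adjoin_induction with
  | mem y hy => exact hS y hy
  | algebraMap y => exact hK y
  | add y z _ _ hy hz => rw [map_add]; exact add_mem hy hz
  | inv y _ hy => rw [map_inv₀]; exact inv_mem hy
  | mul y z _ _ hy hz => rw [map_mul]; exact mul_mem hy hz

theorem gl_tame {p : ℕ} [Fact p.Prime] {C : Type} [Field C] (n : ℕ) (hn : ¬ p ∣ n) (x : C)
    (hx : x ^ n = 1) : x ∈ tame p C := ⟨n, hn, hx⟩

theorem glob_loc (ι : Ω →+* C) (b : Fin r → K) (hb0 : ∀ i, b i ≠ 0)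
    (htor : ∀ (i : Fin r) (k : ℕ), 1 ≤ k → b i ^ k ≠ 1) :
    ∃ h₀ J : ℕ, 2 ≤ h₀ ∧
      (∀ m : ℕ, ∃ σ : Ω ≃ₐ[K] Ω, ∀ ζ : Ω, ζ ^ (p ^ m) = 1 → σ ζ = ζ ^ h₀) ∧
      ∀ e : ℕ, ∃ ρ : ℝ, 0 < ρ ∧ ρ < 1 ∧ ∃ n₀ : ℕ, ∀ n : ℕ, n₀ ≤ n → ∀ n' N₀ : ℕ,
        1 ≤ n' → 1 ≤ N₀ → ¬ p ∣ n' → ¬ p ∣ N₀ →
        ∃ (τ : C ≃ₐ[ℚ_[p]] C) (θ : Ω ≃ₐ[K] Ω), (∀ x : Ω, ι (θ x) = τ (ι x)) ∧
          (∀ x ∈ Lf b (RF Ω b n' N₀) (p ^ n) (p ^ (n + J)), θ x = x) ∧
          (∀ ζ : Ω, IsPrimitiveRoot ζ (p ^ (n + J + 1)) → θ ζ ≠ ζ) ∧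
          ∀ x ∈ Lf b (RF Ω b n' N₀) (p ^ (n + e)) (p ^ (n + e + J + 1)), x ≠ 0 →
            ‖τ (ι x) / ι x - 1‖ ≤ ρ := by
  classical
  have hp : p.Prime := Fact.out
  have : CharZero C := charZero_C p C
  have hιinj : Function.Injective ι := ι.injective
  obtain ⟨X, hXfd, hXn, hX0⟩ := local_X (p := p) (C := C) K (ι.comp (algebraMap K Ω))
  have hX : ∀ x : K, ι (algebraMap K Ω x) ∈ X := hX0
  obtain ⟨h₀, hh, hcyc⟩ := local_cyc X
  have hsgn : ∀ i, ∃ b' : C, (b' = ι (algebraMap K Ω (b i)) ∨ b' = (ι (algebraMap K Ω (b i)))⁻¹) ∧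
      ‖b'‖ ≤ 1 := by
    intro i
    by_cases h : ‖ι (algebraMap K Ω (b i))‖ ≤ 1
    · exact ⟨_, Or.inl rfl, h⟩
    · refine ⟨_, Or.inr rfl, ?_⟩
      rw [norm_inv]
      exact inv_le_one_of_one_le₀ (le_of_lt (not_le.1 h))
  choose b' hb' hb'1 using hsgn
  have hc0 : ∀ i, ι (algebraMap K Ω (b i)) ≠ 0 := by
    intro i h
    rw [map_eq_zero, map_eq_zero] at h
    exact hb0 i h
  have hb'0 : ∀ i, b' i ≠ 0 := by
    intro i
    rcases hb' i with h | h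
    · rw [h]; exact hc0 i
    · rw [h]; exact inv_ne_zero (hc0 i)
  have hb'X : ∀ i, b' i ∈ X := by
    intro i
    rcases hb' i with h | h
    · rw [h]; exact hX _
    · rw [h]; exact inv_mem (hX _)
  have hb't : ∀ (i : Fin r) (k : ℕ), 1 ≤ k → b' i ^ k ≠ 1 := by
    intro i k hk h1
    apply htor i k hk
    have h2 : ι (algebraMap K Ω (b i)) ^ k = 1 := by
      rcases hb' i with h | h
      · rw [← h]; exact h1
      · rw [h, inv_pow, inv_eq_one] at h1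
        exact h1
    rw [← map_pow, ← map_pow, map_eq_one_iff _ hιinj,
      map_eq_one_iff _ (algebraMap K Ω).injective] at h2
    exact h2
  obtain ⟨J', hJ', hloc⟩ := local_fin X b' hb'X hb'0 hb'1 hb't
  refine ⟨h₀, J' - 1, hh, ?_, ?_⟩
  · intro m
    obtain ⟨σ', -, hσX, hσ⟩ := hcyc m
    obtain ⟨σ, hσι⟩ := transport (K := K) ι σ'.toRingEquiv (fun x => hσX _ (hX x))
    refine ⟨σ, fun ζ hζ => hιinj ?_⟩
    rw [hσι ζ, map_pow]
    refine hσ (ι ζ) ?_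
    rw [← map_pow, hζ, map_one]
  intro e
  obtain ⟨ρ, hρ0, hρ1, n₀, hn₀⟩ := hloc e
  refine ⟨ρ, hρ0, hρ1, n₀, fun n hn n' N₀ hn' hN₀ hpn' hpN₀ => ?_⟩
  have hw0 : ∀ i, ∃ w : C, w ^ N₀ = b' i := fun i => IsAlgClosed.exists_pow_nat_eq _ (by omega)
  choose w hw using hw0
  have hy0 : ∀ i, ∃ y : C, y ^ (p ^ (n + e)) = b' i := fun i =>
    IsAlgClosed.exists_pow_nat_eq _ (pow_pos hp.pos _)
  choose y hy using hy0
  obtain ⟨z, hz⟩ : ∃ z : C, IsPrimitiveRoot z (p ^ (n + J' + e)) := by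
    have : NeZero (p ^ (n + J' + e)) := ⟨pow_ne_zero _ hp.ne_zero⟩
    have : NeZero ((p ^ (n + J' + e) : ℕ) : C) :=
      ⟨Nat.cast_ne_zero.2 (pow_ne_zero _ hp.ne_zero)⟩
    exact HasEnoughRootsOfUnity.exists_primitiveRoot C (p ^ (n + J' + e))
  obtain ⟨g, hgt, hgX, hgw, hgz, hgy, hgm, hgc⟩ := hn₀ n hn N₀ hpN₀ w hw z hz y hy
  obtain ⟨θ, hθ⟩ := transport (K := K) ι g.toRingEquiv (fun x => hgX _ (hX x))
  have hθ' : ∀ x : Ω, ι (θ x) = g (ι x) := hθ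
  have hfixiff : ∀ x : Ω, g (ι x) = ι x → θ x = x := by
    intro x hx
    apply hιinj
    rw [hθ' x, hx]
  have hzp : IsPrimitiveRoot (z ^ (p ^ (e + 1))) (p ^ (n + (J' - 1))) := by
    refine hz.pow (pow_pos hp.pos _) ?_
    rw [← pow_add]
    congr 1
    omega
  have hfr : ∀ v : C, v ^ (p ^ (n + (J' - 1))) = 1 → g v = v := by
    intro v hv
    have : NeZero (p ^ (n + (J' - 1))) := ⟨pow_ne_zero _ hp.ne_zero⟩
    obtain ⟨a, -, ha⟩ := hzp.eq_pow_of_pow_eq_one hv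
    rw [← ha, map_pow, hgz]
  refine ⟨g, θ, hθ', ?_, ?_, ?_⟩
  · -- (1)
    intro x hx
    refine fixed_of_mem_adjoin _ θ.toAlgHom ?_ x hx
    rintro t (ht | ht | ⟨i, ht⟩)
    · refine fixed_of_mem_adjoin _ θ.toAlgHom ?_ t ht
      rintro u (hu | hu | ⟨i, hu⟩)
      · refine hfixiff u (hgt _ (gl_tame n' hpn' _ ?_))
        rw [← map_pow, hu, map_one]
      · refine hfixiff u (hgt _ (gl_tame N₀ hpN₀ _ ?_))
        rw [← map_pow, hu, map_one]
      · have hu' : (ι u) ^ N₀ = ι (algebraMap K Ω (b i)) := by rw [← map_pow, hu]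
        obtain ⟨ω, hω, hor⟩ := gl_root N₀ hN₀ _ _ _ _ (hc0 i) (hb' i) hu' (hw i)
        refine hfixiff u (gl_fix (g : C →+* C) _ _ _ ?_ ?_ hor)
        · exact hgt _ (gl_tame N₀ hpN₀ _ hω)
        · exact hgw i
    · refine hfixiff t (hfr _ ?_)
      have ht' : t ^ (p ^ (n + (J' - 1))) = 1 := ht
      rw [← map_pow, ht', map_one]
    · have ht' : (ι t) ^ (p ^ n) = ι (algebraMap K Ω (b i)) := by rw [← map_pow, ht]
      have hyi : (y i ^ (p ^ e)) ^ (p ^ n) = b' i := by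
        rw [← pow_mul, ← pow_add, add_comm e n]
        exact hy i
      obtain ⟨ω, hω, hor⟩ := gl_root (p ^ n) (pow_pos hp.pos _) _ _ _ _ (hc0 i) (hb' i) ht' hyi
      refine hfixiff t (gl_fix (g : C →+* C) _ _ _ ?_ ?_ hor)
      · refine hfr _ ?_
        rw [pow_add, pow_mul, hω, one_pow]
      · exact hgy i
  · -- (2)
    intro ζ hζ hθζ
    apply hgm
    have h1 : IsPrimitiveRoot (ι ζ) (p ^ (n + (J' - 1) + 1)) := hζ.map_of_injective hιinj
    have h2 : (z ^ (p ^ e)) ^ (p ^ (n + (J' - 1) + 1)) = 1 := by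
      rw [← pow_mul, ← pow_add]
      have h3 : e + (n + (J' - 1) + 1) = n + J' + e := by omega
      rw [h3]
      exact hz.pow_eq_one
    have : NeZero (p ^ (n + (J' - 1) + 1)) := ⟨pow_ne_zero _ hp.ne_zero⟩
    obtain ⟨a, -, ha⟩ := h1.eq_pow_of_pow_eq_one h2
    rw [← ha, map_pow, ← hθ' ζ, hθζ]
  · -- (3)
    intro x hx hx0
    refine hgc (ι x) ?_ (by rw [Ne, map_eq_zero]; exact hx0)
    set G := CF X (Set.range w ∪ ({z} ∪ Set.range y)) with hG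
    have hXG : ∀ v ∈ X, v ∈ G := fun v hv =>
      IntermediateField.subset_adjoin (Wnr p C) _ (Or.inl hv)
    have hwG : ∀ i, w i ∈ G := fun i =>
      IntermediateField.subset_adjoin (Wnr p C) _ (Or.inr (Or.inl ⟨i, rfl⟩))
    have hzG : z ∈ G :=
      IntermediateField.subset_adjoin (Wnr p C) _ (Or.inr (Or.inr (Or.inl rfl)))
    have hyG : ∀ i, y i ∈ G := fun i =>
      IntermediateField.subset_adjoin (Wnr p C) _ (Or.inr (Or.inr (Or.inr ⟨i, rfl⟩)))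
    have htG : ∀ v ∈ tame p C, v ∈ G := fun v hv =>
      G.algebraMap_mem (⟨v, tame_le_Wnr hv⟩ : Wnr p C)
    have hfG : ∀ v : C, v ^ (p ^ (n + J' + e)) = 1 → v ∈ G := by
      intro v hv
      have : NeZero (p ^ (n + J' + e)) := ⟨pow_ne_zero _ hp.ne_zero⟩
      obtain ⟨a, -, ha⟩ := hz.eq_pow_of_pow_eq_one hv
      rw [← ha]
      exact pow_mem hzG a
    have hKG : ∀ v : K, ι (algebraMap K Ω v) ∈ G := fun v => hXG _ (hX v)
    refine gl_mem ι G _ hKG ?_ x hx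
    rintro t (ht | ht | ⟨i, ht⟩)
    · refine gl_mem ι G _ hKG ?_ t ht
      rintro u (hu | hu | ⟨i, hu⟩)
      · refine htG _ (gl_tame n' hpn' _ ?_)
        rw [← map_pow, hu, map_one]
      · refine htG _ (gl_tame N₀ hpN₀ _ ?_)
        rw [← map_pow, hu, map_one]
      · have hu' : (ι u) ^ N₀ = ι (algebraMap K Ω (b i)) := by rw [← map_pow, hu]
        obtain ⟨ω, hω, hor⟩ := gl_root N₀ hN₀ _ _ _ _ (hc0 i) (hb' i) hu' (hw i)
        exact gl_in G _ _ _ (htG _ (gl_tame N₀ hpN₀ _ hω)) (hwG i) hor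
    · refine hfG _ ?_
      have ht' : t ^ (p ^ (n + e + (J' - 1) + 1)) = 1 := ht
      have h3 : n + J' + e = n + e + (J' - 1) + 1 := by omega
      rw [h3, ← map_pow, ht', map_one]
    · have ht' : (ι t) ^ (p ^ (n + e)) = ι (algebraMap K Ω (b i)) := by rw [← map_pow, ht]
      obtain ⟨ω, hω, hor⟩ :=
        gl_root (p ^ (n + e)) (pow_pos hp.pos _) _ _ _ _ (hc0 i) (hb' i) ht' (hy i)
      refine gl_in G _ _ _ (hfG _ ?_) (hyG i) hor
      have h3 : n + J' + e = (n + e) + J' := by omega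
      rw [h3, pow_add, pow_mul, hω, one_pow]

end Pool.Agent.H72.RG
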