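import Pool.Agent.H72.RG.RamE

/-!
# Module LocalCyc: a finite normal extension of `Wnr` containing `K`, and its cyclotomic character

`local_X`: `K = ℚ(θ)` (`Field.exists_primitive_element ℚ K`), `φ(K) ⊂ W(φ θ)`, `W = Wnr p C`
(`φ` is `ℚ`-linear); `X = normalClosure (Wnr p C) (IntermediateField.adjoin (Wnr p C) {φ θ}) C` is finite
dimensional (`normalClosure.is_finiteDimensional`) and normal (`normalClosure.normal`, `Normal (Wnr p C) C`).
`local_cyc`: let `d` be the order of the finite group `X ≃ₐ[W] X` (`d ≥ 1`), `h₀ = (1 + p)^d ≥ 2`, prime to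
`p`. For `m : ℕ` take a primitive `p^m`-th root of unity `ζ` in `C`; `cyc_W` gives `σ₀` fixing `tame p C`
with `σ₀ ζ = ζ^(1+p)`, so `σ₀ ε = ε^(1+p)` for all `ε` with `ε^(p^m) = 1` (powers of `ζ`). `σ = σ₀^d` maps
`ε` to `ε^((1+p)^d)`, and fixes `X`: `restrict_E` gives `g : X ≃ₐ[W] X` with `σ₀ x = g x` for `x : X`, so
`σ₀^d x = g^d x = x` (`pow_card_eq_one`).
-/

set_option autoImplicit false
set_option linter.unusedSectionVars false

open IntermediateField

namespace Pool.Agent.H72.RG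

open Pool.Agent.H72.RM

variable {p : ℕ} [Fact p.Prime] {C : Type} [NormedField C] [NormedAlgebra ℚ_[p] C]
  [IsUltrametricDist C] [IsAlgClosed C] [Algebra.IsAlgebraic ℚ_[p] C] [IsoEnv p C]

theorem local_X (K : Type) [Field K] [NumberField K] (φ : K →+* C) :
    ∃ X : IntermediateField (Wnr p C) C, FiniteDimensional (Wnr p C) X ∧ Normal (Wnr p C) X ∧
      ∀ x : K, φ x ∈ X := by
  have hchar : CharZero C := charZero_C p C
  obtain ⟨θ, hθ⟩ := Field.exists_primitive_element ℚ K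
  have hnormal : Normal (Wnr p C) C := inferInstance
  have halg : IsAlgebraic (Wnr p C) (φ θ) := Algebra.IsAlgebraic.isAlgebraic (φ θ)
  have hint : IsIntegral (Wnr p C) (φ θ) := halg.isIntegral
  have hfin : FiniteDimensional (Wnr p C) (IntermediateField.adjoin (Wnr p C) {φ θ}) :=
    IntermediateField.adjoin.finiteDimensional hint
  refine ⟨IntermediateField.normalClosure (Wnr p C) (IntermediateField.adjoin (Wnr p C) {φ θ}) C,
    inferInstance, inferInstance, fun x => ?_⟩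
  have hle : IntermediateField.adjoin (Wnr p C) {φ θ} ≤
      IntermediateField.normalClosure (Wnr p C) (IntermediateField.adjoin (Wnr p C) {φ θ}) C :=
    IntermediateField.le_normalClosure _
  apply hle
  have hx : x ∈ IntermediateField.adjoin ℚ {θ} := by
    rw [hθ]; exact IntermediateField.mem_top
  induction hx using IntermediateField.adjoin_induction with
  | mem y hy =>
    rw [Set.mem_singleton_iff.1 hy]
    exact IntermediateField.subset_adjoin _ _ (Set.mem_singleton _)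
  | algebraMap y =>
    have h1 : φ (algebraMap ℚ K y) = (y : C) := by
      rw [eq_ratCast, map_ratCast]
    rw [h1]
    exact SubfieldClass.ratCast_mem (IntermediateField.adjoin (Wnr p C) {φ θ}) y
  | add y z _ _ hy hz => rw [map_add]; exact add_mem hy hz
  | inv y _ hy => rw [map_inv₀]; exact inv_mem hy
  | mul y z _ _ hy hz => rw [map_mul]; exact mul_mem hy hz

theorem local_cyc (X : IntermediateField (Wnr p C) C) [FiniteDimensional (Wnr p C) X]
    [Normal (Wnr p C) X] :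
    ∃ h₀ : ℕ, 2 ≤ h₀ ∧ ∀ m : ℕ, ∃ σ : C ≃ₐ[ℚ_[p]] C, (∀ ω ∈ tame p C, σ ω = ω) ∧
      (∀ x ∈ X, σ x = x) ∧ ∀ ζ : C, ζ ^ (p ^ m) = 1 → σ ζ = ζ ^ h₀ := by
  have hchar : CharZero C := charZero_C p C
  have hp1 : 1 < p := (Fact.out : p.Prime).one_lt
  set d : ℕ := Fintype.card (X ≃ₐ[Wnr p C] X) with hd
  have hd1 : 0 < d := Fintype.card_pos
  refine ⟨(1 + p) ^ d, ?_, fun m => ?_⟩
  · calc 2 ≤ 1 + p := by omega
      _ = (1 + p) ^ 1 := (pow_one _).symm
      _ ≤ (1 + p) ^ d := Nat.pow_le_pow_right (by omega) hd1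
  have hne : NeZero ((p ^ m : ℕ) : C) := ⟨by
    have : (p ^ m : ℕ) ≠ 0 := pow_ne_zero _ (by omega)
    exact_mod_cast this⟩
  have hpm : 0 < p ^ m := pow_pos (by omega) _
  obtain ⟨ζ, hζ⟩ : ∃ ζ : C, IsPrimitiveRoot ζ (p ^ m) :=
    HasEnoughRootsOfUnity.exists_primitiveRoot C (p ^ m)
  have hcop : Nat.Coprime (1 + p) p := by
    rw [Nat.coprime_add_self_left]; exact Nat.coprime_one_left p
  obtain ⟨σ, hσt, hσζ⟩ := cyc_W (C := C) m ζ hζ (1 + p) hcop
  have hroot : ∀ ε : C, ε ^ (p ^ m) = 1 → σ ε = ε ^ (1 + p) := by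
    intro ε hε
    obtain ⟨i, _, hi⟩ := hζ.eq_pow_of_pow_eq_one hε
    rw [← hi, map_pow, hσζ, ← pow_mul, ← pow_mul, mul_comm]
  obtain ⟨g, hg⟩ := restrict_E X σ hσt
  have hiter_t : ∀ (n : ℕ) (ω : C), ω ∈ tame p C → (σ ^ n) ω = ω := by
    intro n ω hω
    induction n with
    | zero => rfl
    | succ n ih => rw [pow_succ, AlgEquiv.mul_apply, hσt ω hω, ih]
  have hiter_r : ∀ (n : ℕ) (ε : C), ε ^ (p ^ m) = 1 → (σ ^ n) ε = ε ^ ((1 + p) ^ n) := by
    intro n
    induction n with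
    | zero => intro ε _; rw [pow_zero, pow_zero, pow_one]; rfl
    | succ n ih =>
      intro ε hε
      rw [pow_succ, AlgEquiv.mul_apply, hroot ε hε, ih (ε ^ (1 + p)) (by
        rw [← pow_mul, mul_comm, pow_mul, hε, one_pow]), ← pow_mul]
      congr 1
      rw [pow_succ, mul_comm]
  have hiter_g : ∀ (n : ℕ) (x : X), (σ ^ n) (x : C) = ((g ^ n) x : C) := by
    intro n
    induction n with
    | zero => intro x; rfl
    | succ n ih =>
      intro x
      rw [pow_succ, AlgEquiv.mul_apply, hg x, ih (g x), pow_succ, AlgEquiv.mul_apply]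
  refine ⟨σ ^ d, fun ω hω => hiter_t d ω hω, fun x hx => ?_, fun ε hε => hiter_r d ε hε⟩
  have h1 := hiter_g d ⟨x, hx⟩
  have h2 : g ^ d = 1 := pow_card_eq_one
  rw [h2] at h1
  exact h1

end Pool.Agent.H72.RG
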