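import Pool.Agent.H72.RG.NonDiv
import Pool.Agent.H72.RG.LocalCyc
import Pool.Agent.H72.RG.KumDef
import Pool.Agent.H72.RG.KumAb

/-!
# Module LocalKum: local Kummer automorphisms with uniformly bounded defect

`W = Wnr p C`. Let `κ₂` be the constant of `non_div` for `b` and `h₀` that of `local_cyc` for `X`; write
`h₀ - 1 = p^c u`, `p ∤ u`, and `κ = κ₂ + c`. Let `ζ` be a primitive `p^n`-th root of unity and
`F = IntermediateField.adjoin X (Set.range w ∪ {ζ})` (intermediate field of `C / X`, where `X` is considered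
as a field; `IsGalois X C` by characteristic zero and algebraic closedness, e.g. from
`galW p C` and `IsGalois.tower_top_of_isGalois`, or `IsAlgClosure`). Apply `kum_defect` with `k = X`, `r = 1`,
`b = fun _ => ⟨b, hb⟩`, `D₀ = p^κ`, `β = fun _ => y`, `a = fun _ => k`. The resulting
`σ : C ≃ₐ[X] C`, restricted to scalars `ℚ_[p]` (first to `W`), is `τ`.
`ind`: let `x ∈ F`, `x^(p^n) = b^m`, `m : ℤ` (`∏` over `Fin 1`). `x ≠ 0`.
(i) `x ∈ X(ζ)`: let `τ : C ≃ₐ[X] C` fix `ζ`. `τ (w i) = ω_i w i`, `ω_i^(N₀) = 1` (`w i ^ N₀ ∈ X`; if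
`w i = 0` trivial), `ω_i ∈ tame ⊂ W` is fixed by `τ`, so `τ^(N₀)` fixes the `w i` and `ζ`, hence `F ∋ x`.
`kum_tame` with `j = n` (`ε^(p^n) = 1` implies `ε` is a power of `ζ`): `τ x = x`. So
`x ∈ IntermediateField.adjoin X {ζ}` (`mem_adjoin_of_fixed`).
(ii) `kum_ab` with `F = IntermediateField.adjoin X {ζ}` (over `k = X`), `N = p^n`, `σ` from `local_cyc`
(`m = n`, turned into a `C ≃ₐ[X] C`), `b := b^m`: all `ρ : C ≃ₐ[X] C` commute with `σ` on `ζ`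
(`ρ ζ = ζ^i`) and on `X`, hence on `X(ζ)`. So there is `z ∈ X` with `z^(p^n) = (b^m)^(h₀-1)`.
(iii) `non_div`: `p^n ∣ p^(κ₂) m (h₀ - 1) = p^(κ₂+c) u m`, so `p^n ∣ p^κ m`.
-/

set_option autoImplicit false
set_option linter.unusedSectionVars false

open IntermediateField

namespace Pool.Agent.H72.RG

open Pool.Agent.H72.RM

variable {p : ℕ} [Fact p.Prime] {C : Type} [NormedField C] [NormedAlgebra ℚ_[p] C]
  [IsUltrametricDist C] [IsAlgClosed C] [Algebra.IsAlgebraic ℚ_[p] C] [IsoEnv p C]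

private theorem lk_pow_apply {k Ω : Type} [Field k] [Field Ω] [Algebra k Ω] (τ : Ω ≃ₐ[k] Ω)
    (N : ℕ) (x : Ω) : ((τ : Ω ≃+* Ω) ^ N) x = (τ ^ N) x := by
  induction N generalizing x with
  | zero => rfl
  | succ N ih =>
    rw [pow_succ, pow_succ]
    exact ih (τ x)

private theorem lk_eig {k Ω : Type} [Field k] [Field Ω] [Algebra k Ω] (τ : Ω ≃ₐ[k] Ω)
    (w ω : Ω) (h1 : τ ω = ω) (h2 : τ w = ω * w) (N : ℕ) : (τ ^ N) w = ω ^ N * w := by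
  induction N with
  | zero => simp
  | succ N ih =>
    rw [pow_succ']
    show τ ((τ ^ N) w) = _
    rw [ih, map_mul, map_pow, h1, h2]
    ring

private theorem lk_agree {k Ω : Type} [Field k] [Field Ω] [Algebra k Ω] (S : Set Ω)
    (σ ρ : Ω ≃ₐ[k] Ω) (h : ∀ x ∈ S, σ x = ρ x) (x : Ω) (hx : x ∈ IntermediateField.adjoin k S) :
    σ x = ρ x := by
  have h1 := fixed_of_mem_adjoin S ((σ.trans ρ.symm : Ω ≃ₐ[k] Ω) : Ω →ₐ[k] Ω)
    (fun y hy => by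
      show ρ.symm (σ y) = y
      rw [h y hy]
      exact ρ.symm_apply_apply y) x hx
  have h2 : ρ.symm (σ x) = x := h1
  rw [← ρ.apply_symm_apply (σ x), h2]

/-- the first descent: tame radicals -/
private theorem lk_tame (X : IntermediateField (Wnr p C) C) (r : ℕ) (N₀ : ℕ) (hN₀ : ¬ p ∣ N₀)
    (w : Fin r → C) (hw : ∀ i, w i ^ N₀ ∈ X) (n : ℕ) (ζ : C) (hζ : IsPrimitiveRoot ζ (p ^ n))
    (x : C) (hx0 : x ≠ 0) (hx : x ∈ IntermediateField.adjoin X (Set.range w ∪ {ζ}))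
    (hxp : x ^ (p ^ n) ∈ X) : x ∈ IntermediateField.adjoin X {ζ} := by
  have hp : p.Prime := Fact.out
  have hN0 : N₀ ≠ 0 := by
    rintro rfl
    exact hN₀ (dvd_zero p)
  haveI : NeZero (p ^ n) := ⟨pow_ne_zero n hp.ne_zero⟩
  apply mem_adjoin_of_fixed
  intro τ hτ
  have hτζ : τ ζ = ζ := hτ ζ rfl
  have hτX : ∀ z ∈ X, τ z = z := fun z hz => τ.commutes (⟨z, hz⟩ : X)
  have hτω : ∀ ω ∈ tame p C, τ ω = ω := fun ω hω =>
    hτX ω (X.algebraMap_mem (⟨ω, tame_le_Wnr hω⟩ : Wnr p C))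
  have hτN : ∀ z ∈ Set.range w ∪ {ζ}, (τ ^ N₀) z = z := by
    rintro z (⟨i, rfl⟩ | hz)
    · by_cases hwi : w i = 0
      · rw [hwi, map_zero]
      · have h1 : (τ (w i) / w i) ^ N₀ = 1 := by
          rw [div_pow, ← map_pow, hτX _ (hw i), div_self (pow_ne_zero _ hwi)]
        have h2 : τ (w i) = (τ (w i) / w i) * w i := (div_mul_cancel₀ _ hwi).symm
        have h3 := lk_eig τ (w i) (τ (w i) / w i) (hτω _ ⟨N₀, hN₀, h1⟩) h2 N₀
        rw [h3, h1, one_mul]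
    · rw [Set.mem_singleton_iff] at hz
      rw [hz]
      have h3 := lk_eig τ ζ 1 (map_one τ) (by rw [hτζ, one_mul]) N₀
      rw [h3, one_pow, one_mul]
  have hfix : (τ ^ N₀) x = x :=
    fixed_of_mem_adjoin (Set.range w ∪ {ζ}) ((τ ^ N₀ : C ≃ₐ[X] C) : C →ₐ[X] C) hτN x hx
  refine kum_tame (τ : C ≃+* C) p N₀ hN₀ n x hx0 ?_ ?_ ?_
  · show (τ x) ^ (p ^ n) = x ^ (p ^ n)
    rw [← map_pow, hτX _ hxp]
  · intro ε hε
    obtain ⟨i, -, rfl⟩ := hζ.eq_pow_of_pow_eq_one hε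
    show τ (ζ ^ i) = ζ ^ i
    rw [map_pow, hτζ]
  · rw [lk_pow_apply, hfix]

/-- the second descent: abelian extension -/
private theorem lk_ab (X : IntermediateField (Wnr p C) C) (n : ℕ) (ζ : C)
    (hζ : IsPrimitiveRoot ζ (p ^ n)) (h₀ : ℕ) (hh : 2 ≤ h₀) (σ₀ : C ≃ₐ[ℚ_[p]] C)
    (hσX : ∀ x ∈ X, σ₀ x = x) (hσζ : ∀ ζ : C, ζ ^ (p ^ n) = 1 → σ₀ ζ = ζ ^ h₀)
    (x : C) (hx : x ∈ IntermediateField.adjoin X {ζ}) (b : X) (hxb : x ^ (p ^ n) = b) :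
    ∃ z : X, z ^ (p ^ n) = b ^ (h₀ - 1) := by
  have hp : p.Prime := Fact.out
  haveI : NeZero (p ^ n) := ⟨pow_ne_zero n hp.ne_zero⟩
  obtain ⟨σ, hσ⟩ : ∃ σ : C ≃ₐ[X] C, ∀ z, σ z = σ₀ z :=
    ⟨AlgEquiv.ofRingEquiv (f := (σ₀ : C ≃+* C)) (fun z => hσX z z.2), fun z => rfl⟩
  refine kum_ab (IntermediateField.adjoin X {ζ}) σ ?_ (p ^ n) (Nat.one_le_iff_ne_zero.2
    (pow_ne_zero n hp.ne_zero)) h₀ hh (fun ε hε => by rw [hσ]; exact hσζ ε hε) x hx b hxb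
  intro ρ z hz
  refine lk_agree {ζ} (ρ.trans σ) (σ.trans ρ) ?_ z hz
  intro y hy
  rw [Set.mem_singleton_iff] at hy
  subst hy
  show σ (ρ y) = ρ (σ y)
  have h1 : (ρ y) ^ (p ^ n) = 1 := by
    rw [← map_pow, hζ.pow_eq_one, map_one]
  have h2 : σ y = y ^ h₀ := by
    rw [hσ]
    exact hσζ y hζ.pow_eq_one
  rw [hσ, hσζ _ h1, h2, map_pow]

theorem local_kum (X : IntermediateField (Wnr p C) C) [FiniteDimensional (Wnr p C) X]
    [Normal (Wnr p C) X] (b : C) (hb : b ∈ X) (hb0 : b ≠ 0)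
    (htor : ∀ n : ℕ, 1 ≤ n → b ^ n ≠ 1) :
    ∃ κ : ℕ, ∀ (r : ℕ) (N₀ : ℕ), ¬ p ∣ N₀ → ∀ w : Fin r → C, (∀ i, w i ^ N₀ ∈ X) →
      ∀ (n : ℕ) (ζ : C), IsPrimitiveRoot ζ (p ^ n) → ∀ y : C, y ^ (p ^ n) = b → ∀ k : ℕ,
      ∃ τ : C ≃ₐ[ℚ_[p]] C, (∀ ω ∈ tame p C, τ ω = ω) ∧ (∀ x ∈ X, τ x = x) ∧
        (∀ i, τ (w i) = w i) ∧ τ ζ = ζ ∧ τ y = ζ ^ (p ^ κ * k) * y := by
  have hp : p.Prime := Fact.out
  obtain ⟨κ₂, hκ₂⟩ := non_div X b hb hb0 htor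
  obtain ⟨h₀, hh, hloc⟩ := local_cyc X
  obtain ⟨c, u, hu, hcu⟩ := Nat.exists_eq_pow_mul_and_not_dvd (show h₀ - 1 ≠ 0 by omega) p
    hp.ne_one
  refine ⟨κ₂ + c, fun r N₀ hN₀ w hw n ζ hζ y hy k => ?_⟩
  haveI : IsGalois X C := IsGalois.tower_top_intermediateField X
  have hbX : (⟨b, hb⟩ : X) ≠ 0 := fun h => hb0 (congrArg Subtype.val h)
  have hζF : ζ ∈ IntermediateField.adjoin X (Set.range w ∪ {ζ}) :=
    IntermediateField.subset_adjoin X _ (Or.inr rfl)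
  have hind : ∀ m : Fin 1 → ℤ, ∀ x ∈ IntermediateField.adjoin X (Set.range w ∪ {ζ}),
      x ^ (p ^ n) = ∏ i, (algebraMap X C ((fun _ => (⟨b, hb⟩ : X)) i)) ^ (m i) →
      ∀ i, (p : ℤ) ^ n ∣ ((p ^ (κ₂ + c) : ℕ) : ℤ) * m i := by
    intro m x hx hxm i
    have hi : i = 0 := Subsingleton.elim _ _
    subst hi
    have hxm' : x ^ (p ^ n) = b ^ (m 0) := by
      rw [hxm, Fin.prod_univ_one]
      rfl
    have hx0 : x ≠ 0 := by
      rintro rfl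
      rw [zero_pow (pow_ne_zero n hp.ne_zero)] at hxm'
      exact (zpow_ne_zero (m 0) hb0) hxm'.symm
    have hbm : ((((⟨b, hb⟩ : X) ^ (m 0) : X)) : C) = b ^ (m 0) := by
      have h1 : algebraMap X C ((⟨b, hb⟩ : X) ^ (m 0)) = (algebraMap X C ⟨b, hb⟩) ^ (m 0) :=
        map_zpow₀ _ _ _
      exact h1
    have hxX : x ^ (p ^ n) ∈ X := by
      rw [hxm', ← hbm]
      exact ((⟨b, hb⟩ : X) ^ (m 0)).2
    have hx1 := lk_tame X r N₀ hN₀ w hw n ζ hζ x hx0 hx hxX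
    obtain ⟨σ₀, -, hσX, hσζ⟩ := hloc n
    obtain ⟨z, hz⟩ := lk_ab X n ζ hζ h₀ hh σ₀ hσX hσζ x hx1 ((⟨b, hb⟩ : X) ^ (m 0))
      (by rw [hbm, hxm'])
    have hz' : (z : C) ^ (p ^ n) = b ^ (m 0 * ((h₀ - 1 : ℕ) : ℤ)) := by
      have h1 := congrArg (algebraMap X C) hz
      rw [map_pow, map_pow] at h1
      rw [zpow_mul, zpow_natCast, ← hbm]
      exact h1
    have h2 := hκ₂ n _ z z.2 hz'
    rw [hcu] at h2
    have hcop : IsCoprime ((p : ℤ) ^ n) (u : ℤ) := by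
      apply IsCoprime.pow_left
      rw [Nat.isCoprime_iff_coprime]
      exact (Nat.Prime.coprime_iff_not_dvd hp).2 hu
    have h3 : (p : ℤ) ^ n ∣ ((p : ℤ) ^ (κ₂ + c) * m 0) * u := by
      refine h2.trans (dvd_of_eq ?_)
      push_cast
      ring
    have h4 := hcop.dvd_of_dvd_mul_right h3
    push_cast
    exact h4
  obtain ⟨σ, hσF, hσy⟩ := kum_defect (k := X) (Ω := C) p (r := 1) (fun _ => (⟨b, hb⟩ : X))
    (fun _ => hbX) (IntermediateField.adjoin X (Set.range w ∪ {ζ})) (p ^ (κ₂ + c)) n hind ζ hζ hζF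
    (fun _ => y) (fun _ => hy) (fun _ => k)
  refine ⟨(σ.restrictScalars (Wnr p C)).restrictScalars ℚ_[p], ?_, ?_, ?_, ?_, ?_⟩
  · intro ω hω
    exact σ.commutes (⟨ω, X.algebraMap_mem (⟨ω, tame_le_Wnr hω⟩ : Wnr p C)⟩ : X)
  · intro x hx
    exact σ.commutes (⟨x, hx⟩ : X)
  · intro i
    exact hσF _ (IntermediateField.subset_adjoin X _ (Or.inl ⟨i, rfl⟩))
  · exact hσF _ hζF
  · exact hσy 0

end Pool.Agent.H72.RG
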