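import Pool.Agent.H72.RG.NuCoset

/-!
# Module NuMoved: the elements of a subgroup that move `y`

`{g ∈ Q | g • y ∈ R}` is the union over `z ∈ R` of the sets `{g ∈ Q | g • y = z}` (`nuS_le_sum`). If such a
set is empty its sum is `0 ≤ -log ‖z - y‖`, since `‖z - y‖ ≤ 1` (`D.nonarch`, `Real.log_nonpos`). If it
contains `σ`, then it is contained in `{g | σ⁻¹ * g ∈ H}`, `H = Q ⊓ MulAction.stabilizer G y`, and
`nu_up` for `H`, `σ`, `y` (`σ • y = z ≠ y` as `y ∉ R`) gives the bound `-log ‖z - y‖`.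
-/

set_option autoImplicit false
set_option linter.unusedSectionVars false

namespace Pool.Agent.H72.RG

open Pool.Agent.H72.RM

variable {M G : Type} [NormedField M] [Group G] [MulSemiringAction G M] [Fintype G] {π : M}

theorem nu_orbit (D : RamData M G π) (Q : Subgroup G) (y : M) (hy : ‖y‖ ≤ 1) (R : Finset M)
    (hyR : y ∉ R) (hR : ∀ z ∈ R, ‖z‖ ≤ 1) :
    nuS π (fun g => g ∈ Q ∧ g • y ∈ R) ≤ ∑ z ∈ R, (-Real.log ‖z - y‖) := by
  refine (nuS_le_sum D R _ (fun z g => g ∈ Q ∧ g • y = z) ?_).trans ?_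
  · rintro g ⟨h1, h2⟩
    exact ⟨g • y, h2, h1, rfl⟩
  · refine Finset.sum_le_sum fun z hz => ?_
    by_cases hex : ∃ σ : G, σ ∈ Q ∧ σ • y = z
    · obtain ⟨σ, hσQ, hσz⟩ := hex
      have h1 : nuS π (fun g : G => g ∈ Q ∧ g • y = z) ≤
          nuS π (fun g : G => σ⁻¹ * g ∈ Q ⊓ MulAction.stabilizer G y) := by
        refine nuS_mono D _ _ ?_
        rintro g ⟨hg1, hg2⟩
        refine Subgroup.mem_inf.2 ⟨Q.mul_mem (Q.inv_mem hσQ) hg1, ?_⟩
        rw [MulAction.mem_stabilizer_iff, mul_smul, hg2, ← hσz, inv_smul_smul]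
      refine h1.trans ?_
      have h2 := nu_up D (Q ⊓ MulAction.stabilizer G y) σ y hy
        (fun h hh => MulAction.mem_stabilizer_iff.1 (Subgroup.mem_inf.1 hh).2) (by
          rw [hσz]
          rintro rfl
          exact hyR hz)
      rw [hσz] at h2
      exact h2
    · have h1 : nuS π (fun g : G => g ∈ Q ∧ g • y = z) = 0 := by
        classical
        rw [nuS_eq]
        refine Finset.sum_eq_zero fun g _ => ?_
        rw [if_neg]
        exact fun h => hex ⟨g, h⟩
      rw [h1]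
      have h2 : ‖z - y‖ ≤ 1 := by
        have h3 := D.nonarch z (-y)
        rw [norm_neg, ← sub_eq_add_neg] at h3
        exact h3.trans (max_le (hR z hz) hy)
      have h4 := Real.log_nonpos (norm_nonneg _) h2
      linarith

end Pool.Agent.H72.RG
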