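import Pool.Agent.H72.RG.RamE
import Pool.Agent.H72.RG.NuMoved

/-!
# Module X1: a generator of a fixed finite extension and its contribution

`X / W` is finite Galois (`W = Wnr p C`, characteristic zero): let `x` be a primitive element of `X / W`
(`Field.exists_primitive_element (Wnr p C) X`); multiplying by a power of `p` we may assume `‖x‖ ≤ 1`
(`W(p^k x) = W(x)` as `p ∈ W`). An automorphism of `C` fixing `tame p C` and `x` fixes `W(x) = X`.
Let `R : Finset C` be the set of the `(g x : C)`, `g : X ≃ₐ[W] X`; all have norm `‖x‖ ≤ 1`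
(`lift_E`, `IsoEnv.iso`). `D₁ = ∑_{z ∈ R.erase x} -log ‖z - x‖`.
Let `E`, `D`, `x' : E` with `(x' : C) = x`. For `g : E ≃ₐ[W] E` the element `(g x' : C)` is in `R` (extend `g`
to `C` by `lift_E` and restrict to `X` by `restrict_E`). Let `R' : Finset E` be the set of all `g x' ≠ x'`;
`nu_orbit` with `Q = ⊤`, `y = x'`, `R = R'`:
`nuS π (g • x' ≠ x') ≤ ∑_{z ∈ R'} -log ‖z - x'‖ ≤ D₁` (the coercion `E → C` is injective and maps `R'` into
`R.erase x`, norms of `E` are those of `C`, the terms of `D₁` are nonnegative as `‖z - x‖ ≤ 1`).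
-/

set_option autoImplicit false
set_option linter.unusedSectionVars false

open IntermediateField

namespace Pool.Agent.H72.RG

open Pool.Agent.H72.RM

variable {p : ℕ} [Fact p.Prime] {C : Type} [NormedField C] [NormedAlgebra ℚ_[p] C]
  [IsUltrametricDist C] [IsAlgClosed C] [Algebra.IsAlgebraic ℚ_[p] C] [IsoEnv p C]

theorem x1_bound (X : IntermediateField (Wnr p C) C) [FiniteDimensional (Wnr p C) X]
    [Normal (Wnr p C) X] :
    ∃ (x : C) (D₁ : ℝ), x ∈ X ∧
      (∀ σ : C ≃ₐ[ℚ_[p]] C, (∀ ω ∈ tame p C, σ ω = ω) → σ x = x → ∀ y ∈ X, σ y = y) ∧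
      ∀ (E : IntermediateField (Wnr p C) C) (_ : FiniteDimensional (Wnr p C) E)
        (_ : Normal (Wnr p C) E) (π : E), RamData E (E ≃ₐ[Wnr p C] E) π → ∀ x' : E, (x' : C) = x →
        nuS π (fun g : E ≃ₐ[Wnr p C] E => g • x' ≠ x') ≤ D₁ := by
  classical
  have : CharZero C := charZero_C p C
  have hp : p.Prime := Fact.out
  have hpC : (p : C) ≠ 0 := by exact_mod_cast hp.ne_zero
  have hsep : Algebra.IsSeparable (Wnr p C) X := inferInstance
  obtain ⟨α, hα⟩ := Field.exists_primitive_element (Wnr p C) X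
  -- scale
  have hpR : (1 : ℝ) < p := by exact_mod_cast hp.one_lt
  have hlt : 1 / (p : ℝ) < 1 := by
    rw [div_lt_one (by linarith)]
    exact hpR
  obtain ⟨k, hk⟩ : ∃ k : ℕ, (1 / (p : ℝ)) ^ k * ‖(α : C)‖ ≤ 1 := by
    have h1 : Filter.Tendsto (fun k : ℕ => (1 / (p : ℝ)) ^ k * ‖(α : C)‖) Filter.atTop
        (nhds (0 * ‖(α : C)‖)) :=
      (tendsto_pow_atTop_nhds_zero_of_lt_one (by positivity) hlt).mul_const _
    rw [zero_mul] at h1
    exact (h1.eventually (ge_mem_nhds (show (0 : ℝ) < 1 by norm_num))).exists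
  obtain ⟨xX, hxX⟩ : ∃ xX : X, (xX : C) = (p : C) ^ k * (α : C) :=
    ⟨(p : X) ^ k * α, by push_cast; rfl⟩
  have hxnorm : ‖(xX : C)‖ ≤ 1 := by
    rw [hxX, norm_mul, norm_pow, norm_p]
    exact hk
  obtain ⟨R, hR⟩ : ∃ R : Finset C, R = Finset.univ.image
      (fun g : X ≃ₐ[Wnr p C] X => ((g xX : X) : C)) := ⟨_, rfl⟩
  have hRnorm : ∀ z ∈ R, ‖z‖ ≤ 1 := by
    intro z hz
    rw [hR, Finset.mem_image] at hz
    obtain ⟨g, -, rfl⟩ := hz
    obtain ⟨σ, -, hσ⟩ := lift_E X g
    rw [← hσ xX, IsoEnv.iso]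
    exact hxnorm
  have hterm : ∀ z ∈ R.erase (xX : C), 0 ≤ -Real.log ‖z - (xX : C)‖ := by
    intro z hz
    have h1 : ‖z - (xX : C)‖ ≤ 1 := by
      have h2 := IsUltrametricDist.norm_add_le_max z (-(xX : C))
      rw [norm_neg, ← sub_eq_add_neg] at h2
      exact h2.trans (max_le (hRnorm z (Finset.mem_of_mem_erase hz)) hxnorm)
    have h3 := Real.log_nonpos (norm_nonneg _) h1
    linarith
  refine ⟨(xX : C), ∑ z ∈ R.erase (xX : C), (-Real.log ‖z - (xX : C)‖), xX.2, ?_, ?_⟩
  · intro σ hσ hσx y hy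
    have hσα : σ (α : C) = (α : C) := by
      rw [hxX, map_mul, map_pow, map_natCast] at hσx
      exact mul_left_cancel₀ (pow_ne_zero k hpC) hσx
    have key : ∀ z : X, σ (z : C) = (z : C) := by
      intro z
      have hz : z ∈ IntermediateField.adjoin (Wnr p C) {α} := by
        rw [hα]
        exact IntermediateField.mem_top
      induction hz using IntermediateField.adjoin_induction with
      | mem z hz =>
        rw [Set.mem_singleton_iff] at hz
        rw [hz]
        exact hσα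
      | algebraMap c => exact fixes_W σ hσ (c : C) c.2
      | add a b _ _ ha hb =>
        have e : ((a + b : X) : C) = (a : C) + (b : C) := rfl
        rw [e, map_add, ha, hb]
      | inv a _ ha =>
        have e : ((a⁻¹ : X) : C) = (a : C)⁻¹ := rfl
        rw [e, map_inv₀, ha]
      | mul a b _ _ ha hb =>
        have e : ((a * b : X) : C) = (a : C) * (b : C) := rfl
        rw [e, map_mul, ha, hb]
    exact key ⟨y, hy⟩
  · intro E hE1 hE2 π D x' hx'
    obtain ⟨R', hR'⟩ : ∃ R' : Finset E, R' = (Finset.univ.image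
      (fun g : E ≃ₐ[Wnr p C] E => g x')).erase x' := ⟨_, rfl⟩
    have hmem : ∀ g : E ≃ₐ[Wnr p C] E, ((g x' : E) : C) ∈ R := by
      intro g
      obtain ⟨σ, hσ1, hσ2⟩ := lift_E E g
      obtain ⟨g', hg'⟩ := restrict_E X σ hσ1
      rw [hR, Finset.mem_image]
      refine ⟨g', Finset.mem_univ _, ?_⟩
      rw [← hg' xX, ← hσ2 x', hx']
    have hx'R : x' ∉ R' := by
      rw [hR']
      exact Finset.notMem_erase _ _
    have hR'mem : ∀ z ∈ R', (z : C) ∈ R.erase (xX : C) := by
      intro z hz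
      rw [hR', Finset.mem_erase, Finset.mem_image] at hz
      obtain ⟨hne, g, -, rfl⟩ := hz
      refine Finset.mem_erase.2 ⟨?_, hmem g⟩
      intro h
      apply hne
      rw [← hx'] at h
      exact Subtype.ext h
    have hx'norm : ‖x'‖ ≤ 1 := by
      have h1 : ‖(x' : C)‖ ≤ 1 := by
        rw [hx']
        exact hxnorm
      exact h1
    have hR'norm : ∀ z ∈ R', ‖z‖ ≤ 1 := by
      intro z hz
      have h1 : ‖(z : C)‖ ≤ 1 := hRnorm _ (Finset.mem_of_mem_erase (hR'mem z hz))
      exact h1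
    have h1 := nu_orbit D ⊤ x' hx'norm R' hx'R hR'norm
    have h2 : nuS π (fun g : E ≃ₐ[Wnr p C] E => g • x' ≠ x') =
        nuS π (fun g : E ≃ₐ[Wnr p C] E => g ∈ (⊤ : Subgroup (E ≃ₐ[Wnr p C] E)) ∧ g • x' ∈ R') := by
      refine nuS_congr _ _ fun g => ?_
      constructor
      · intro h
        refine ⟨Subgroup.mem_top g, ?_⟩
        rw [hR', Finset.mem_erase, Finset.mem_image]
        exact ⟨h, g, Finset.mem_univ _, rfl⟩
      · rintro ⟨-, h⟩ h3
        rw [h3] at h
        exact hx'R h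
    rw [h2]
    refine h1.trans ?_
    have h3 : ∑ z ∈ R', (-Real.log ‖z - x'‖) =
        ∑ w ∈ R'.image (fun z : E => (z : C)), (-Real.log ‖w - (xX : C)‖) := by
      rw [Finset.sum_image (fun a _ b _ h => Subtype.ext h)]
      refine Finset.sum_congr rfl fun z _ => ?_
      have h4 : ‖z - x'‖ = ‖(z : C) - (xX : C)‖ := by
        rw [← hx']
        rfl
      rw [h4]
    rw [h3]
    refine Finset.sum_le_sum_of_subset_of_nonneg ?_ fun z hz _ => hterm z hz
    intro w hw
    rw [Finset.mem_image] at hw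
    obtain ⟨z, hz, rfl⟩ := hw
    exact hR'mem z hz

end Pool.Agent.H72.RG
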