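import Pool.Agent.H72.RG.Abs
import Pool.Agent.H72.RG.CycLow
import Pool.Agent.H72.RG.X1
import Pool.Agent.H72.RG.LocalKum

/-!
# Module LocalMain: an automorphism close to the identity

`W = Wnr p C`; an element of `X` is fixed by every `τ` with the properties listed in `local_kum`.
Constants: `x`, `D₁` from `x1_bound X`; `κ_i` from `local_kum` for `b i`, `κ = ∑ κ_i` (`p^κ k` is a multiple
`p^(κ_i) k'`); `J ≥ 1` with `hJ` of `loc_abs` (`w i ^ N₀ = b i`, so the left side depends only on `b`, `κ`,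
`D₁`; `log p > 0`).
Given `e, n, N₀, w, z, y`: let `E = normalClosure W (IntermediateField.adjoin W S) C`, where `S` is the finite
set consisting of `x`, the `w i`, `z`, the `y i` and a primitive `N₀`-th root of unity `ω` (`ω` is even in
`W`). `E` is finite and normal over `W` and contains `S`. `ram_E` gives `π`, `D`. Apply `loc_abs` with
`M = E`, `G = E ≃ₐ[W] E` (`g • u = g u`): `hp`: `norm_p` (norms of `E` are norms of `C`);
`hx`: `x1_bound`; `hlow`: `cyc_low`; `hN₀'`: `norm_natCast_of_not_dvd`; `hb`: extend `g` to `C` (`lift_E`), it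
fixes `x`, so it fixes `X ∋ b i = w i ^ N₀`; `hκ`: `local_kum` for `b i` with `y := y i ^ (p^e)`,
`ζ := z^(p^(J+e))` (primitive `p^n`-th root of unity), restricted to `E` (`restrict_E`).
The resulting `σ : E ≃ₐ[W] E` is extended to `C` by `lift_E`: this is `g`; `g x = x`, so `g` fixes `X`.
For `u ∈ CF X (..)`, `‖u‖ ≤ 1`: `u ∈ E` (`X = W(x) ⊂ E`: an element of `X` is fixed by all automorphisms
of `C / W` fixing `x`, use `mem_of_fixed_W` for `E`), and every `h : E ≃ₐ[W] E` fixing `x`, the `w i`, `z`, the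
`y i` fixes `u` (extend `h` to `C` by `lift_E`; it fixes `X`, the `w i`, `z`, `y i`, so it fixes
`CF X (..)`, by `fixed_of_mem_adjoin` over `W`).
-/

set_option autoImplicit false
set_option linter.unusedSectionVars false

open IntermediateField

namespace Pool.Agent.H72.RG

open Pool.Agent.H72.RM

variable {p : ℕ} [Fact p.Prime] {C : Type} [NormedField C] [NormedAlgebra ℚ_[p] C]
  [IsUltrametricDist C] [IsAlgClosed C] [Algebra.IsAlgebraic ℚ_[p] C] [IsoEnv p C]

/-- the field generated over `X` by `S` -/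
noncomputable def CF (X : IntermediateField (Wnr p C) C) (S : Set C) :
    IntermediateField (Wnr p C) C :=
  IntermediateField.adjoin (Wnr p C) ((X : Set C) ∪ S)

theorem h58_finset {r : ℕ} (w y : Fin r → C) (x z ω : C) :
    ∃ E : IntermediateField (Wnr p C) C, FiniteDimensional (Wnr p C) E ∧ Normal (Wnr p C) E ∧
      x ∈ E ∧ z ∈ E ∧ ω ∈ E ∧ (∀ i, w i ∈ E) ∧ (∀ i, y i ∈ E) := by
  have hg : IsGalois (Wnr p C) C := galW p C _
  have hn : Normal (Wnr p C) C := inferInstance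
  set S : Set C := (Set.range w ∪ Set.range y) ∪ {x, z, ω} with hS
  have hfin : S.Finite := by
    rw [hS]
    exact ((Set.finite_range w).union (Set.finite_range y)).union (Set.toFinite _)
  have : Finite S := hfin.to_subtype
  have hfd : FiniteDimensional (Wnr p C) (IntermediateField.adjoin (Wnr p C) S) :=
    IntermediateField.finiteDimensional_adjoin fun s _ => Algebra.IsIntegral.isIntegral s
  have hle := IntermediateField.le_normalClosure (IntermediateField.adjoin (Wnr p C) S)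
  have hSE : ∀ s ∈ S, s ∈ IntermediateField.normalClosure (Wnr p C)
      (IntermediateField.adjoin (Wnr p C) S) C :=
    fun s hs => hle (IntermediateField.subset_adjoin _ _ hs)
  refine ⟨IntermediateField.normalClosure (Wnr p C) (IntermediateField.adjoin (Wnr p C) S) C,
    normalClosure.is_finiteDimensional _ _ _, normalClosure.normal _ _ _, hSE _ ?_, hSE _ ?_,
    hSE _ ?_, fun i => hSE _ ?_, fun i => hSE _ ?_⟩
  · exact Or.inr (by simp)
  · exact Or.inr (by simp)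
  · exact Or.inr (by simp)
  · exact Or.inl (Or.inl ⟨i, rfl⟩)
  · exact Or.inl (Or.inr ⟨i, rfl⟩)

theorem local_main (X : IntermediateField (Wnr p C) C) [FiniteDimensional (Wnr p C) X]
    [Normal (Wnr p C) X] {r : ℕ} (b : Fin r → C) (hb : ∀ i, b i ∈ X) (hb0 : ∀ i, b i ≠ 0)
    (hb1 : ∀ i, ‖b i‖ ≤ 1) (htor : ∀ (i : Fin r) (n : ℕ), 1 ≤ n → b i ^ n ≠ 1) :
    ∃ J : ℕ, 1 ≤ J ∧ ∀ (e n N₀ : ℕ), 1 ≤ n → ¬ p ∣ N₀ → ∀ w : Fin r → C,
      (∀ i, w i ^ N₀ = b i) → ∀ z : C, IsPrimitiveRoot z (p ^ (n + J + e)) → ∀ y : Fin r → C,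
      (∀ i, y i ^ (p ^ (n + e)) = b i) →
      ∃ g : C ≃ₐ[ℚ_[p]] C, (∀ ω ∈ tame p C, g ω = ω) ∧ (∀ x ∈ X, g x = x) ∧
        (∀ i, g (w i) = w i) ∧ g (z ^ (p ^ (J + e))) = z ^ (p ^ (J + e)) ∧
        (∀ i, g (y i ^ (p ^ e)) = y i ^ (p ^ e)) ∧ g (z ^ (p ^ e)) ≠ z ^ (p ^ e) ∧
        ∀ u ∈ CF X (Set.range w ∪ ({z} ∪ Set.range y)), ‖u‖ ≤ 1 →
          ‖g u - u‖ ≤ Real.exp (-(Real.log p / (p : ℝ) ^ (J + e + r * e))) := by
  have hc0 : CharZero C := charZero_C p C
  have hp : p.Prime := Fact.out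
  have hpR : (1 : ℝ) < p := by exact_mod_cast hp.one_lt
  have hlog : 0 < Real.log p := Real.log_pos hpR
  obtain ⟨x, D₁, hxX, hxfix, hxb⟩ := x1_bound X
  choose κ hκ using fun i => local_kum X (b i) (hb i) (hb0 i) (htor i)
  set κs : ℕ := ∑ i, κ i with hκs
  set A : ℝ := 2 * Real.log p + (D₁ + ∑ i, (-Real.log ‖b i‖)) +
      ∑ i, (-Real.log ‖b i‖ + ((κs : ℝ) + 2) * Real.log p +
        (D₁ + ∑ i, (-Real.log ‖b i‖))) with hA
  obtain ⟨J₀, hJ₀⟩ := exists_nat_ge (A / Real.log p)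
  have hJ : A ≤ ((J₀ + 1 : ℕ) : ℝ) * Real.log p := by
    rw [div_le_iff₀ hlog] at hJ₀
    push_cast
    nlinarith
  refine ⟨J₀ + 1, Nat.le_add_left 1 J₀, ?_⟩
  generalize J₀ + 1 = J at hJ
  intro e n N₀ hn hN₀ w hw z hz y hy
  have hN0 : N₀ ≠ 0 := by
    rintro rfl
    exact hN₀ (dvd_zero p)
  obtain ⟨ω, hω⟩ : ∃ ω : C, IsPrimitiveRoot ω N₀ := by
    have : NeZero (N₀ : C) := ⟨Nat.cast_ne_zero.2 hN0⟩
    have : NeZero N₀ := ⟨hN0⟩
    exact HasEnoughRootsOfUnity.exists_primitiveRoot C N₀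
  obtain ⟨E, hE1, hE2, hxE, hzE, hωE, hwE, hyE⟩ := h58_finset (p := p) w y x z ω
  obtain ⟨π, D⟩ := ram_E E
  have hcoe : ∀ u : E, ‖u‖ = ‖(u : C)‖ := fun u => rfl
  have hfixX : ∀ (h : E ≃ₐ[Wnr p C] E), h • (⟨x, hxE⟩ : E) = ⟨x, hxE⟩ →
      ∃ σ : C ≃ₐ[ℚ_[p]] C, (∀ ω ∈ tame p C, σ ω = ω) ∧ (∀ y ∈ X, σ y = y) ∧
        ∀ u : E, σ (u : C) = (h u : C) := by
    intro h hx
    obtain ⟨σ, h1, h2⟩ := lift_E E h
    refine ⟨σ, h1, hxfix σ h1 ?_, h2⟩
    have h3 := h2 ⟨x, hxE⟩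
    have h4 : h ⟨x, hxE⟩ = ⟨x, hxE⟩ := hx
    rw [h4] at h3
    exact h3
  have hXE : ∀ v ∈ X, v ∈ E := by
    intro v hv
    refine mem_of_fixed_W E v fun σ h1 h2 => hxfix σ h1 (h2 x hxE) v hv
  have hwb : ∀ i, (⟨w i, hwE i⟩ : E) ^ N₀ = ⟨b i, hXE _ (hb i)⟩ := by
    intro i
    apply Subtype.ext
    rw [IntermediateField.coe_pow]
    exact hw i
  have hN0le : 1 ≤ N₀ := Nat.one_le_iff_ne_zero.2 hN0
  have key := loc_abs D p (show ‖((p : ℕ) : E)‖ = 1 / (p : ℝ) from ?_) (⟨x, hxE⟩ : E) D₁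
    (hxb E hE1 hE2 π D ⟨x, hxE⟩ rfl) (fun m hm ζ hζ => cyc_low E π D m hm ζ hζ) N₀ hN0le ?_
    (⟨ω, hωE⟩ : E) ?_ (fun i => ⟨w i, hwE i⟩) ?_ ?_ ?_ n J e hn (⟨z, hzE⟩ : E) ?_
    (fun i => ⟨y i, hyE i⟩) ?_ κs ?_ ?_
  · obtain ⟨σ, s1, s2, s3, s4, s5, s6⟩ := key
    obtain ⟨g, g1, g2, g3⟩ := hfixX σ s1
    refine ⟨g, g1, g2, ?_, ?_, ?_, ?_, ?_⟩
    · intro i
      have h1 := g3 ⟨w i, hwE i⟩
      have h2 : σ ⟨w i, hwE i⟩ = ⟨w i, hwE i⟩ := s2 i
      rw [h2] at h1
      exact h1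
    · have h1 := g3 ((⟨z, hzE⟩ : E) ^ (p ^ (J + e)))
      have h2 : σ ((⟨z, hzE⟩ : E) ^ (p ^ (J + e))) = (⟨z, hzE⟩ : E) ^ (p ^ (J + e)) := s3
      rw [h2, IntermediateField.coe_pow] at h1
      exact h1
    · intro i
      have h1 := g3 ((⟨y i, hyE i⟩ : E) ^ (p ^ e))
      have h2 : σ ((⟨y i, hyE i⟩ : E) ^ (p ^ e)) = (⟨y i, hyE i⟩ : E) ^ (p ^ e) := s4 i
      rw [h2, IntermediateField.coe_pow] at h1
      exact h1
    · intro h
      apply s5
      apply Subtype.ext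
      have h1 := g3 ((⟨z, hzE⟩ : E) ^ (p ^ e))
      rw [IntermediateField.coe_pow] at h1
      have h2 : ((σ • ((⟨z, hzE⟩ : E) ^ (p ^ e)) : E) : C)
          = ((σ ((⟨z, hzE⟩ : E) ^ (p ^ e)) : E) : C) := rfl
      rw [h2, ← h1, IntermediateField.coe_pow]
      exact h
    · intro u hu hu1
      have huE : u ∈ E := by
        have h1 : CF X (Set.range w ∪ ({z} ∪ Set.range y)) ≤ E := by
          unfold CF
          rw [IntermediateField.adjoin_le_iff]
          rintro v (hv | ⟨i, rfl⟩ | hv | ⟨i, rfl⟩)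
          · exact hXE v hv
          · exact hwE i
          · rw [Set.mem_singleton_iff.1 hv]
            exact hzE
          · exact hyE i
        exact h1 hu
      have h1 := s6 ⟨u, huE⟩ hu1 ?_
      · have h2 : ((σ • (⟨u, huE⟩ : E) - ⟨u, huE⟩ : E) : C) = g u - u := by
          have h3 := g3 ⟨u, huE⟩
          rw [h3]
          rfl
        rw [hcoe, h2] at h1
        exact h1
      · intro h hx' hw' hz' hy'
        obtain ⟨τ, t1, t2, t3⟩ := hfixX h hx'
        obtain ⟨τ', ht'⟩ := exists_overW τ t1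
        apply Subtype.ext
        have h5 : ((h • (⟨u, huE⟩ : E) : E) : C) = τ u := (t3 ⟨u, huE⟩).symm
        rw [h5]
        have h6 := fixed_of_mem_adjoin ((X : Set C) ∪ (Set.range w ∪ ({z} ∪ Set.range y)))
          (τ' : C →ₐ[Wnr p C] C) ?_ u hu
        · rw [← ht' u]
          exact h6
        · rintro v (hv | ⟨i, rfl⟩ | hv | ⟨i, rfl⟩)
          · change τ' v = v
            rw [ht' v]
            exact t2 v hv
          · change τ' (w i) = w i
            rw [ht' (w i)]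
            have h7 := t3 ⟨w i, hwE i⟩
            have h8 : h ⟨w i, hwE i⟩ = ⟨w i, hwE i⟩ := hw' i
            rw [h8] at h7
            exact h7
          · rw [Set.mem_singleton_iff.1 hv]
            change τ' z = z
            rw [ht' z]
            have h7 := t3 ⟨z, hzE⟩
            have h8 : h ⟨z, hzE⟩ = ⟨z, hzE⟩ := hz'
            rw [h8] at h7
            exact h7
          · change τ' (y i) = y i
            rw [ht' (y i)]
            have h7 := t3 ⟨y i, hyE i⟩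
            have h8 : h ⟨y i, hyE i⟩ = ⟨y i, hyE i⟩ := hy' i
            rw [h8] at h7
            exact h7
  · have h2 : ‖(((p : E)) : C)‖ = 1 / (p : ℝ) := by
      push_cast
      exact norm_p
    exact h2
  · have h2 : ‖(((N₀ : E)) : C)‖ = 1 := by
      push_cast
      exact norm_natCast_of_not_dvd (p := p) N₀ hN₀
    exact h2
  · exact IsPrimitiveRoot.of_map_of_injective (f := algebraMap E C) hω
      (algebraMap E C).injective
  · intro i h
    rw [hwb i] at h
    exact hb0 i (congrArg Subtype.val h)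
  · intro i
    rw [hwb i]
    exact hb1 i
  · intro g hg i
    obtain ⟨σ, h1, h2, h3⟩ := hfixX g hg
    rw [hwb i]
    apply Subtype.ext
    have h4 := h3 ⟨b i, hXE _ (hb i)⟩
    change ((g ⟨b i, hXE _ (hb i)⟩ : E) : C) = b i
    rw [← h4]
    exact h2 _ (hb i)
  · exact IsPrimitiveRoot.of_map_of_injective (f := algebraMap E C) hz
      (algebraMap E C).injective
  · intro i
    rw [hwb i]
    apply Subtype.ext
    rw [IntermediateField.coe_pow]
    exact hy i
  · intro i k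
    have hζ : IsPrimitiveRoot (z ^ (p ^ (J + e))) (p ^ n) := by
      refine hz.pow (pow_pos hp.pos _) ?_
      rw [← pow_add]
      congr 1
      omega
    have hyn : (y i ^ (p ^ e)) ^ (p ^ n) = b i := by
      rw [← pow_mul, ← pow_add, add_comm e n]
      exact hy i
    obtain ⟨τ, t1, t2, t3, t4, t5⟩ := hκ i r N₀ hN₀ w (fun l => by rw [hw l]; exact hb l) n
      (z ^ (p ^ (J + e))) hζ (y i ^ (p ^ e)) hyn (p ^ (κs - κ i) * k)
    obtain ⟨h, hh⟩ := restrict_E E τ t1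
    have hle : κ i ≤ κs := by
      rw [hκs]
      exact Finset.single_le_sum (f := κ) (fun _ _ => Nat.zero_le _) (Finset.mem_univ i)
    refine ⟨h, ?_, ?_, ?_, ?_⟩
    · apply Subtype.ext
      change ((h ⟨x, hxE⟩ : E) : C) = x
      rw [← hh]
      exact t2 x hxX
    · intro l
      apply Subtype.ext
      change ((h ⟨w l, hwE l⟩ : E) : C) = w l
      rw [← hh]
      exact t3 l
    · apply Subtype.ext
      change ((h ((⟨z, hzE⟩ : E) ^ (p ^ (J + e))) : E) : C) = _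
      rw [← hh, IntermediateField.coe_pow]
      exact t4
    · apply Subtype.ext
      change ((h ((⟨y i, hyE i⟩ : E) ^ (p ^ e)) : E) : C) = _
      rw [← hh, IntermediateField.coe_mul, IntermediateField.coe_pow, IntermediateField.coe_pow,
        IntermediateField.coe_pow]
      rw [t5, ← mul_assoc, ← pow_add, Nat.add_sub_cancel' hle]
  · have h1 : ∀ i, ‖(⟨w i, hwE i⟩ : E) ^ N₀‖ = ‖b i‖ := by
      intro i
      rw [hwb i]
      rfl
    simp only [h1]
    exact hJ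

end Pool.Agent.H72.RG
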