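import Mathlib

/-!
# Module PowB: `p^s`-th powers of elements near one tend to one uniformly

`hp`: `‖p‖ = 1/p`. For `‖u - 1‖ ≤ ρ < 1`: `u = 1 + t`, `u^p - 1 = t^p + p t w` with `‖w‖ ≤ 1` (binomial
theorem: the coefficients `C(p,i)`, `1 ≤ i < p`, are divisible by `p`; `exists_add_pow_prime_eq`), so
`‖u^p - 1‖ ≤ max (‖t‖^p) (‖t‖/p) ≤ θ ‖t‖`, `θ = max (ρ^(p-1)) (1/p) < 1`. By induction
`‖u^(p^s) - 1‖ ≤ θ^s ρ ≤ θ^s`, which is `≤ B` for `s` large.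
-/

set_option autoImplicit false

namespace Pool.Agent.H72.RG

theorem pow_b_step {C : Type} [NormedField C] [IsUltrametricDist C] (p : ℕ) [Fact p.Prime]
    (hp : ‖(p : C)‖ = 1 / (p : ℝ)) (ρ : ℝ) (h1 : ρ < 1) (u : C) (hu : ‖u - 1‖ ≤ ρ) :
    ‖u ^ p - 1‖ ≤ max (ρ ^ (p - 1)) (1 / (p : ℝ)) * ‖u - 1‖ := by
  have hpp : p.Prime := Fact.out
  set t : C := u - 1 with ht
  have hut : u = 1 + t := by rw [ht]; ring
  have ht1 : ‖t‖ ≤ 1 := hu.trans h1.le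
  have h2 := add_pow_prime_eq hpp (1 : C) t
  set S : C := ∑ k ∈ Finset.Ioo 0 p, (1 : C) ^ (k - 1) * t ^ (p - k - 1) * ((p.choose k / p : ℕ) : C)
    with hS
  have hS1 : ‖S‖ ≤ 1 := by
    rw [hS]
    refine IsUltrametricDist.norm_sum_le_of_forall_le_of_nonneg zero_le_one (fun k _ => ?_)
    rw [one_pow, one_mul, norm_mul, norm_pow]
    exact mul_le_one₀ (pow_le_one₀ (norm_nonneg _) ht1) (norm_nonneg _)
      (IsUltrametricDist.norm_natCast_le_one C _)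
  have h3 : u ^ p - 1 = t ^ p + p * t * S := by
    rw [hut, h2]
    ring
  rw [h3]
  refine (IsUltrametricDist.norm_add_le_max _ _).trans (max_le ?_ ?_)
  · rw [norm_pow]
    have h4 : ‖t‖ ^ p = ‖t‖ ^ (p - 1) * ‖t‖ := by
      rw [← pow_succ]
      congr 1
      have := hpp.one_lt
      omega
    rw [h4]
    refine mul_le_mul_of_nonneg_right ?_ (norm_nonneg _)
    exact (pow_le_pow_left₀ (norm_nonneg _) hu _).trans (le_max_left _ _)
  · rw [norm_mul, norm_mul, hp]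
    calc 1 / (p : ℝ) * ‖t‖ * ‖S‖ ≤ 1 / (p : ℝ) * ‖t‖ * 1 := by gcongr
      _ = 1 / (p : ℝ) * ‖t‖ := mul_one _
      _ ≤ max (ρ ^ (p - 1)) (1 / (p : ℝ)) * ‖t‖ :=
          mul_le_mul_of_nonneg_right (le_max_right _ _) (norm_nonneg _)

theorem pow_b {C : Type} [NormedField C] [IsUltrametricDist C] (p : ℕ) [Fact p.Prime]
    (hp : ‖(p : C)‖ = 1 / (p : ℝ)) (ρ : ℝ) (h0 : 0 < ρ) (h1 : ρ < 1) (B : ℝ) (hB : 0 < B) :
    ∃ s : ℕ, ∀ u : C, ‖u - 1‖ ≤ ρ → ‖u ^ (p ^ s) - 1‖ ≤ B := by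
  have hpp : p.Prime := Fact.out
  have hp1 : (1 : ℝ) < p := by exact_mod_cast hpp.one_lt
  set θ : ℝ := max (ρ ^ (p - 1)) (1 / (p : ℝ)) with hθ
  have hθ0 : 0 ≤ θ := le_trans (by positivity) (le_max_right _ _)
  have hθ1 : θ < 1 := by
    rw [hθ]
    refine max_lt ?_ ?_
    · refine pow_lt_one₀ h0.le h1 ?_
      have := hpp.one_lt
      omega
    · rw [div_lt_one (by linarith)]
      exact hp1
  have key : ∀ (s : ℕ) (u : C), ‖u - 1‖ ≤ ρ → ‖u ^ (p ^ s) - 1‖ ≤ θ ^ s * ρ := by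
    intro s
    induction s with
    | zero =>
      intro u hu
      simpa using hu
    | succ s ih =>
      intro u hu
      have h2 := ih u hu
      have h3 : ‖u ^ (p ^ s) - 1‖ ≤ ρ :=
        h2.trans (mul_le_of_le_one_left h0.le (pow_le_one₀ hθ0 hθ1.le))
      have h4 := pow_b_step p hp ρ h1 (u ^ (p ^ s)) h3
      rw [← pow_mul, ← pow_succ] at h4
      calc ‖u ^ (p ^ (s + 1)) - 1‖ ≤ θ * ‖u ^ (p ^ s) - 1‖ := h4
        _ ≤ θ * (θ ^ s * ρ) := by gcongr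
        _ = θ ^ (s + 1) * ρ := by ring
  obtain ⟨s, hs⟩ := exists_pow_lt_of_lt_one hB hθ1
  refine ⟨s, fun u hu => (key s u hu).trans ?_⟩
  calc θ ^ s * ρ ≤ θ ^ s * 1 := by gcongr
    _ = θ ^ s := mul_one _
    _ ≤ B := hs.le

end Pool.Agent.H72.RG
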