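import Pool.Agent.H72.RG.MStep2
import Pool.Agent.H72.RG.ConjCount
import Pool.Agent.H72.RG.PowB

/-!
# Module MConj: small height forces `θ y / y` to be a root of unity, for all conjugates of `θ₀`

Let `ρ`, `n₀` be the constants of `D.loc e`, `A = p^e * p^(r e)` (the number of elements of
`Fin (p^e) × (Fin r → Fin (p^e))`), `d = finrank ℚ K ≥ 1`, `B = exp (-2 A d log 2) ∈ (0, 1]`, `s` from `pow_b`
(`norm_p` for `hp`), `c = log 2 / (2 p^s)`.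
For `n ≥ n₀`, `n'`, `N₀` let `τ'`, `θ₀` be the automorphisms of `D.loc e`. Let `τ`, `γ`, `y` be given,
`θ = τ * θ₀ * τ⁻¹`, `F = RF Ω b n' N₀`, `L = Lf b F (p^(n+e)) (p^(n+J+e))`. Suppose
`(θ y)^(p^s) ≠ y^(p^s)`. `conj_count` with `M = n + J`, `a = e`, `σ₀ = τ⁻¹` (`τ⁻¹ θ τ = θ₀`); `hfix`: `θ₀` fixes
`Lf b F (p^n) (p^(n+J))`, which is stable, so `θ` fixes it. `E`: a finite stable field containing `L` and
`γ` (`pstep_field`, file `H72/RM/PStep.lean`; `L` is finite over `K`: `lf2_finite`, `rf_finite`). `mstep2` with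
`F := L`, `τ := τ'`, `ρ₀ = ρ`; `hLL` from `D.loc` (`L ≤ Lf b F (p^(n+e)) (p^(n+e+J+1))`, `lf2_mono`); `hρ` from
`conj_count` and `ι (θ₀ x) = τ' (ι x)`; `hη` from `hγ`. Result:
`2 A d log 2 ≤ A d (2 p^s h + log 2)`, so `h ≥ log 2 / (2 p^s) = c`, contradiction to `h < c`.
-/

set_option autoImplicit false
set_option linter.unusedSectionVars false

open NumberField IntermediateField

namespace Pool.Agent.H72.RG

open Pool.Agent.H72.RM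

variable {p : ℕ} [Fact p.Prime] {C : Type} [NormedField C] [NormedAlgebra ℚ_[p] C]
  [IsUltrametricDist C] [IsAlgClosed C] [Algebra.IsAlgebraic ℚ_[p] C] [IsoEnv p C]
  {K Ω : Type} [Field K] [NumberField K] [Field Ω] [CharZero Ω] [IsAlgClosed Ω] [Algebra K Ω]
  [IsGalois K Ω] {r : ℕ} {b : Fin r → K} {ι : Ω →+* C} {h₀ J : ℕ}

theorem m_conj (D : SData K Ω p C b ι h₀ J) (e : ℕ) :
    ∃ (c : ℝ) (s n₀ : ℕ), 0 < c ∧ ∀ n : ℕ, n₀ ≤ n → ∀ n' N₀ : ℕ, 1 ≤ n' → 1 ≤ N₀ →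
      ¬ p ∣ n' → ¬ p ∣ N₀ → ∃ θ₀ : Ω ≃ₐ[K] Ω,
      (∀ x ∈ Lf b (RF Ω b n' N₀) (p ^ n) (p ^ (n + J)), θ₀ x = x) ∧
      (∀ ζ : Ω, IsPrimitiveRoot ζ (p ^ (n + J + 1)) → θ₀ ζ ≠ ζ) ∧
      ∀ (τ : Ω ≃ₐ[K] Ω) (γ y : Ω), γ ≠ 0 → y ≠ 0 →
        (∀ θ : Ω ≃ₐ[K] Ω, ∃ k : ℕ, 1 ≤ k ∧ (θ γ) ^ k = γ ^ k) →
        y ∈ Lf b (RF Ω b n' N₀) (p ^ (n + e)) (p ^ (n + J + e)) → absLogHeight₁ (γ * y) < c →
        ((τ * θ₀ * τ⁻¹) y) ^ (p ^ s) = y ^ (p ^ s) := by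
  have hpp : p.Prime := Fact.out
  have hlog2 : 0 < Real.log 2 := Real.log_pos one_lt_two
  obtain ⟨ρ, hρ0, hρ1, n₀, hloc⟩ := D.loc e
  have hpe : 0 < p ^ e := pow_pos hpp.pos e
  have hNE : Nonempty (Fin (p ^ e)) := ⟨⟨0, hpe⟩⟩
  obtain ⟨A, hA⟩ : ∃ A : ℝ, A = (Fintype.card (Fin (p ^ e) × (Fin r → Fin (p ^ e))) : ℝ) :=
    ⟨_, rfl⟩
  have hA0 : 0 < A := by
    rw [hA]
    exact_mod_cast Fintype.card_pos
  obtain ⟨d, hd⟩ : ∃ d : ℝ, d = (Module.finrank ℚ K : ℝ) := ⟨_, rfl⟩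
  have hd0 : 0 < d := by
    rw [hd]
    exact_mod_cast Module.finrank_pos
  obtain ⟨s, hs⟩ := pow_b (C := C) p norm_p ρ hρ0 hρ1 (Real.exp (-(2 * A * d * Real.log 2)))
    (Real.exp_pos _)
  refine ⟨Real.log 2 / (2 * (p : ℝ) ^ s), s, n₀, by
    have : (0 : ℝ) < (p : ℝ) := by exact_mod_cast hpp.pos
    positivity, ?_⟩
  intro n hn n' N₀ hn' hN₀ hpn' hpN₀
  obtain ⟨τ', θ₀, h1, h2, h3, h4⟩ := hloc n hn n' N₀ hn' hN₀ hpn' hpN₀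
  refine ⟨θ₀, h2, h3, ?_⟩
  intro τ γ y hγ0 hy0 hγ hy hlt
  by_contra hne
  have hp0 : (0 : ℝ) < (p : ℝ) := by exact_mod_cast hpp.pos
  have hps : (0 : ℝ) < (p : ℝ) ^ s := by positivity
  rw [lt_div_iff₀ (by positivity)] at hlt
  have hFst : ∀ σ : Ω ≃ₐ[K] Ω, ∀ x ∈ RF Ω b n' N₀, σ x ∈ RF Ω b n' N₀ := fun σ x hx =>
    rf_stable b n' N₀ σ x hx
  have hFfin : FiniteDimensional K (RF Ω b n' N₀) := rf_finite b n' N₀ hn' hN₀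
  have hLfin : FiniteDimensional K (Lf b (RF Ω b n' N₀) (p ^ (n + e)) (p ^ (n + J + e))) :=
    lf2_finite b _ _ _ (pow_pos hpp.pos _) (pow_pos hpp.pos _)
  obtain ⟨E, hEfin, hE, hLE, hγE⟩ :=
    pstep_field (Lf b (RF Ω b n' N₀) (p ^ (n + e)) (p ^ (n + J + e))) γ
  have hfix : ∀ x ∈ Lf b (RF Ω b n' N₀) (p ^ n) (p ^ (n + J)), (τ * θ₀ * τ⁻¹) x = x := by
    intro x hx
    have h5 : τ⁻¹ x ∈ Lf b (RF Ω b n' N₀) (p ^ n) (p ^ (n + J)) :=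
      lf2_stable b _ hFst _ _ τ⁻¹ x hx
    rw [AlgEquiv.mul_apply, AlgEquiv.mul_apply, h2 _ h5]
    exact AlgEquiv.apply_symm_apply τ x
  obtain ⟨R, hR⟩ := conj_count p b D.ne (RF Ω b n' N₀) hFst n (n + J) e (by omega)
    (τ * θ₀ * τ⁻¹) θ₀ τ⁻¹ (fun x _ => by
      have h6 : τ⁻¹ * (τ * θ₀ * τ⁻¹) * τ⁻¹⁻¹ = θ₀ := by group
      rw [h6]) hfix
  have h7 := mstep2 ι E (Lf b (RF Ω b n' N₀) (p ^ (n + e)) (p ^ (n + J + e))) hE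
    (lf2_stable b _ hFst _ _) hLE (τ * θ₀ * τ⁻¹) τ' ρ hρ0 hρ1 s
    (Real.exp (-(2 * A * d * Real.log 2))) (Real.exp_pos _)
    (Real.exp_le_one_iff.2 (by
      have : 0 < 2 * A * d * Real.log 2 := by positivity
      linarith)) hs
    (fun x hx hx0 => h4 x (lf2_mono b _ _ _ _ _ dvd_rfl
      (pow_dvd_pow p (by omega)) (pow_pos hpp.pos _) hx) hx0)
    (Fin (p ^ e) × (Fin r → Fin (p ^ e))) R
    (fun σ => by
      obtain ⟨c, hc⟩ := hR σ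
      exact ⟨c, fun x hx => by rw [hc x hx, h1]⟩)
    γ y hγE hy hγ0 hy0 (hγ _) hne
  rw [Real.log_exp, neg_neg, ← hA, ← hd] at h7
  have h8 : A * d * (2 * (p : ℝ) ^ s * absLogHeight₁ (γ * y) + Real.log 2) <
      A * d * (2 * Real.log 2) := by
    apply mul_lt_mul_of_pos_left _ (by positivity)
    have h9 : absLogHeight₁ (γ * y) * (2 * (p : ℝ) ^ s) =
      2 * (p : ℝ) ^ s * absLogHeight₁ (γ * y) := by ring
    rw [h9] at hlt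
    linarith
  have h10 : 2 * A * d * Real.log 2 = A * d * (2 * Real.log 2) := by ring
  linarith

end Pool.Agent.H72.RG
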