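import Pool.Agent.H72.RM.MStep

/-!
# Module MStep2: the metric step, multiplicative form

The same proof as `mstep` (file `H72/RM/MStep.lean`), with these changes. `q = p^s`, `α = γ y`. For a good
`g` (restriction of `σ'` to `E`), `κ x = ι (σ' x)`, `t = κ y = ι (σ' y)`, `σ' y ∈ F`, `κ (θ y) = τ t`; with
`η = θ γ / γ` (a root of unity, `hη`): `κ (θ α) = κ(η γ) τ t`, `κ (η α) = κ(η γ) t`, so
`κ (θ α) / κ (η α) = τ t / t =: u`, `‖u - 1‖ ≤ ρ₀` by `hLL` (for `x = σ' y`), `‖u‖ = 1` (as `ρ₀ < 1`),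
`‖u^q - 1‖ ≤ B` by `hs`. Hypotheses of `metric` (module MetricB), for the set `Y` of all these embeddings:
`h1`: `‖κ (θ α)‖ = ‖κ (η α)‖ = ‖κ α‖` (`‖κ η‖ = 1`). `h2`: if `‖κ α‖ ≤ 1` then
`‖(κ (θ α))^q - (κ (η α))^q‖ = ‖κ α‖^q ‖u^q - 1‖ ≤ B`. `h3`: if `‖κ α‖ ≥ 1`:
`‖(κ (θ α))⁻¹^q - (κ (η α))⁻¹^q‖ = ‖κ α‖^(-q) ‖u^(-q) - 1‖ ≤ B` (`‖u^(-q) - 1‖ = ‖1 - u^q‖`).
Conclusion: `0 ≤ N log 2 + 2 q N h + |Y| log B`, `N = finrank ℚ E = finrank ℚ K * |G|`,
`|G| ≤ |J| |Y|`, `log B ≤ 0`, `h = absLogHeight₁ α`: multiply by `|J| / |G|`.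
-/

set_option autoImplicit false
set_option linter.unusedSectionVars false

open NumberField IntermediateField

namespace Pool.Agent.H72.RG

open Pool.Agent.H72.RM

variable {p : ℕ} [Fact p.Prime] {C : Type} [NormedField C] [NormedAlgebra ℚ_[p] C]
  [IsUltrametricDist C] [IsAlgClosed C] [Algebra.IsAlgebraic ℚ_[p] C] [IsoEnv p C]
  {K Ω : Type} [Field K] [NumberField K] [Field Ω] [CharZero Ω] [Algebra K Ω] [IsGalois K Ω]

theorem mstep2 (ι : Ω →+* C) (E F : IntermediateField K Ω) [FiniteDimensional K E]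
    (hE : ∀ σ : Ω ≃ₐ[K] Ω, ∀ x ∈ E, σ x ∈ E) (hF : ∀ σ : Ω ≃ₐ[K] Ω, ∀ x ∈ F, σ x ∈ F)
    (hFE : F ≤ E) (θ : Ω ≃ₐ[K] Ω) (τ : C ≃ₐ[ℚ_[p]] C) (ρ₀ : ℝ) (hρ0 : 0 < ρ₀) (hρ1 : ρ₀ < 1)
    (s : ℕ) (B : ℝ) (hB0 : 0 < B) (hB1 : B ≤ 1)
    (hs : ∀ u : C, ‖u - 1‖ ≤ ρ₀ → ‖u ^ (p ^ s) - 1‖ ≤ B)
    (hLL : ∀ x ∈ F, x ≠ 0 → ‖τ (ι x) / ι x - 1‖ ≤ ρ₀)
    (J : Type) [Fintype J] (ρ : J → (Ω ≃ₐ[K] Ω))
    (hρ : ∀ σ : Ω ≃ₐ[K] Ω, ∃ c : J, ∀ x ∈ F, ι ((ρ c * σ) (θ ((ρ c * σ).symm x))) = τ (ι x))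
    (γ y : Ω) (hγE : γ ∈ E) (hy : y ∈ F) (hγ0 : γ ≠ 0) (hy0 : y ≠ 0)
    (hη : ∃ n : ℕ, 1 ≤ n ∧ (θ γ) ^ n = γ ^ n) (hne : (θ y) ^ (p ^ s) ≠ y ^ (p ^ s)) :
    -Real.log B ≤ (Fintype.card J : ℝ) * (Module.finrank ℚ K : ℝ) *
      (2 * (p : ℝ) ^ s * absLogHeight₁ (γ * y) + Real.log 2) := by
  classical
  have hpp : p.Prime := Fact.out
  have hp1 : (1 : ℝ) < p := by exact_mod_cast hpp.one_lt
  have hN : Normal K E := by
    rw [IntermediateField.normal_iff_forall_map_le']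
    intro σ x hx
    obtain ⟨z, hz, rfl⟩ := hx
    exact hE σ z hz
  have hNF : NumberField E := NumberField.of_module_finite K E
  have hGal : IsGalois K E := ⟨⟩
  -- the restriction of `θ`
  set θE : E ≃+* E := (θ.restrictNormal E).toRingEquiv with hθE
  have hθE' : ∀ x : E, ((θE x : E) : Ω) = θ (x : Ω) := fun x =>
    AlgEquiv.restrictNormal_commutes θ E x
  let good : (E ≃ₐ[K] E) → Prop := fun g => ∃ σ' : Ω ≃ₐ[K] Ω,
    (∀ x ∈ F, ι (σ' (θ (σ'.symm x))) = τ (ι x)) ∧ ∀ x : E, ((g x : E) : Ω) = σ' (x : Ω)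
  let YG : Finset (E ≃ₐ[K] E) := Finset.univ.filter good
  let mk : (E ≃ₐ[K] E) → (E →+* C) := fun g => (ι.comp (algebraMap E Ω)).comp (g : E →+* E)
  have hmk : ∀ g (x : E), mk g x = ι ((g x : E) : Ω) := fun g x => rfl
  have hmkinj : Function.Injective mk := by
    intro g g' hgg
    apply AlgEquiv.ext
    intro x
    have h1 := congrArg (fun f : E →+* C => f x) hgg
    simp only [hmk] at h1
    exact Subtype.ext (ι.injective h1)
  let Y : Finset (E →+* C) := YG.image mk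
  have hYcard : Y.card = YG.card := Finset.card_image_of_injective _ hmkinj
  -- counting
  have hcount : Fintype.card (E ≃ₐ[K] E) ≤ Fintype.card J * YG.card := by
    have hch : ∀ g : E ≃ₐ[K] E, ∃ c : J, ((ρ c).restrictNormal E * g) ∈ YG := by
      intro g
      obtain ⟨c, hc⟩ := hρ (g.liftNormal Ω)
      refine ⟨c, ?_⟩
      rw [Finset.mem_filter]
      refine ⟨Finset.mem_univ _, ρ c * g.liftNormal Ω, hc, fun x => ?_⟩
      have h1 : ((((ρ c).restrictNormal E * g) x : E) : Ω) = ρ c ((g x : E) : Ω) :=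
        AlgEquiv.restrictNormal_commutes (ρ c) E (g x)
      rw [h1]
      have h2 : (g.liftNormal Ω) (x : Ω) = ((g x : E) : Ω) := AlgEquiv.liftNormal_commutes g Ω x
      rw [AlgEquiv.mul_apply, h2]
    choose c hc using hch
    have hinj : Function.Injective (fun g : E ≃ₐ[K] E =>
        ((c g, ⟨(ρ (c g)).restrictNormal E * g, hc g⟩) : J × YG)) := by
      intro g g' hgg
      simp only [Prod.mk.injEq, Subtype.mk.injEq] at hgg
      obtain ⟨h1, h2⟩ := hgg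
      rw [h1] at h2
      exact mul_left_cancel h2
    have h3 := Fintype.card_le_of_injective _ hinj
    rwa [Fintype.card_prod, Fintype.card_coe] at h3
  -- the data of `metric`
  have hθγ0 : θ γ ≠ 0 := by
    intro h
    exact hγ0 (by simpa using h)
  set α : E := ⟨γ * y, E.mul_mem hγE (hFE hy)⟩ with hα
  set η : E := ⟨θ γ / γ, E.div_mem (hE θ γ hγE) hγE⟩ with hηdef
  have hαΩ : ((α : E) : Ω) = γ * y := rfl
  have hηΩ : ((η : E) : Ω) = θ γ / γ := rfl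
  have hα0 : α ≠ 0 := by
    intro h
    have h1 := congrArg (fun z : E => (z : Ω)) h
    simp only [hαΩ] at h1
    exact mul_ne_zero hγ0 hy0 h1
  have hηα : (((η * α : E)) : Ω) = θ γ * y := by
    rw [MulMemClass.coe_mul, hαΩ, hηΩ]
    field_simp
  have hη1 : ∃ n : ℕ, 1 ≤ n ∧ η ^ n = 1 := by
    obtain ⟨n, hn, h⟩ := hη
    refine ⟨n, hn, ?_⟩
    apply Subtype.ext
    rw [SubmonoidClass.coe_pow, hηΩ, div_pow, h, div_self (pow_ne_zero _ hγ0)]
    rfl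
  have hne' : (θE α) ^ (p ^ s) ≠ (η * α) ^ (p ^ s) := by
    intro h
    have h1 := congrArg (fun z : E => (z : Ω)) h
    simp only [SubmonoidClass.coe_pow] at h1
    rw [hθE', hηα, hαΩ, map_mul, mul_pow, mul_pow] at h1
    exact hne (mul_left_cancel₀ (pow_ne_zero _ hθγ0) h1)
  obtain ⟨nη, hnη, hγn⟩ := hη
  have hgood : ∀ κ ∈ Y, ∃ (a u : C), a ≠ 0 ∧ ‖u‖ = 1 ∧ ‖u ^ (p ^ s) - 1‖ ≤ B ∧ ‖κ α‖ = ‖a‖ ∧
      κ (θE α) = u * a ∧ κ (η * α) = a := by
    intro κ hκ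
    obtain ⟨g, hg, rfl⟩ := Finset.mem_image.1 hκ
    obtain ⟨σ', h1, h2⟩ := (Finset.mem_filter.1 hg).2
    have hw0 : σ' y ≠ 0 := by
      intro h
      exact hy0 (by simpa using h)
    have hιw0 : ι (σ' y) ≠ 0 := by
      intro h
      exact hw0 (by simpa using h)
    have hv0 : ι (σ' (θ γ)) ≠ 0 := by
      intro h
      exact hγ0 (by simpa using h)
    have hwF : σ' y ∈ F := hF σ' y hy
    have hvn : ‖ι (σ' (θ γ))‖ = ‖ι (σ' γ)‖ := by
      have h3 : (ι (σ' (θ γ))) ^ nη = (ι (σ' γ)) ^ nη := by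
        calc (ι (σ' (θ γ))) ^ nη = ι (σ' ((θ γ) ^ nη)) := by rw [map_pow, map_pow]
          _ = (ι (σ' γ)) ^ nη := by rw [hγn, map_pow, map_pow]
      have h4 := congrArg norm h3
      rw [norm_pow, norm_pow] at h4
      exact (pow_left_inj₀ (norm_nonneg _) (norm_nonneg _) (by omega)).1 h4
    refine ⟨ι (σ' (θ γ)) * ι (σ' y), τ (ι (σ' y)) / ι (σ' y), mul_ne_zero hv0 hιw0, ?_, ?_, ?_,
      ?_, ?_⟩
    · rw [norm_div, IsoEnv.iso, div_self]
      rw [Ne, norm_eq_zero]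
      exact hιw0
    · exact hs _ (hLL _ hwF hw0)
    · rw [hmk, h2, hαΩ, map_mul, map_mul, norm_mul, norm_mul, hvn]
    · rw [hmk, h2, hθE', hαΩ, map_mul, map_mul, map_mul]
      have h3 := h1 (σ' y) hwF
      rw [AlgEquiv.symm_apply_apply] at h3
      rw [h3]
      field_simp
    · rw [hmk, h2, hηα, map_mul, map_mul]
  have hmet := metric (p := p) E α hα0 θE η hη1 (p ^ s) hne' Y B hB0
    (fun κ hκ => by
      obtain ⟨a, u, ha0, hu, huB, h1, h2, h3⟩ := hgood κ hκ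
      rw [h2, h1, norm_mul, hu, one_mul])
    (fun κ hκ hle => by
      obtain ⟨a, u, ha0, hu, huB, h1, h2, h3⟩ := hgood κ hκ
      rw [h1] at hle
      have h4 : (u * a) ^ (p ^ s) - a ^ (p ^ s) = (u ^ (p ^ s) - 1) * a ^ (p ^ s) := by
        rw [mul_pow]
        ring
      rw [h2, h3, h4, norm_mul, norm_pow]
      calc ‖u ^ (p ^ s) - 1‖ * ‖a‖ ^ (p ^ s) ≤ B * 1 :=
            mul_le_mul huB (pow_le_one₀ (norm_nonneg _) hle) (by positivity) hB0.le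
        _ = B := mul_one B)
    (fun κ hκ hle => by
      obtain ⟨a, u, ha0, hu, huB, h1, h2, h3⟩ := hgood κ hκ
      rw [h1] at hle
      have hu0 : u ≠ 0 := by
        intro h
        rw [h, norm_zero] at hu
        exact zero_ne_one hu
      have h4 : ‖a⁻¹‖ ≤ 1 := by
        rw [norm_inv]
        exact inv_le_one_of_one_le₀ hle
      have h5 : ((u * a)⁻¹) ^ (p ^ s) - (a⁻¹) ^ (p ^ s) =
          -((u ^ (p ^ s) - 1) * (u⁻¹) ^ (p ^ s) * (a⁻¹) ^ (p ^ s)) := by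
        have h6 : u ^ (p ^ s) * (u⁻¹) ^ (p ^ s) = 1 := by
          rw [← mul_pow, mul_inv_cancel₀ hu0, one_pow]
        rw [mul_inv, mul_pow]
        linear_combination (a⁻¹) ^ (p ^ s) * h6
      rw [h2, h3, h5, norm_neg, norm_mul, norm_mul, norm_pow, norm_pow, norm_inv, hu, inv_one,
        one_pow, mul_one]
      calc ‖u ^ (p ^ s) - 1‖ * ‖a⁻¹‖ ^ (p ^ s) ≤ B * 1 :=
            mul_le_mul huB (pow_le_one₀ (norm_nonneg _) h4) (by positivity) hB0.le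
        _ = B := mul_one B)
  -- conclusion
  have hh := Pool.Agent.H4.RR.absLogHeight_eq E Ω (algebraMap E Ω) α
  have hh2 : algebraMap E Ω α = γ * y := rfl
  rw [hh2] at hh
  have hn0 : 0 < Module.finrank ℚ E := Module.finrank_pos
  have hn0' : (0 : ℝ) < Module.finrank ℚ E := by exact_mod_cast hn0
  have hh3 : Height.logHeight₁ α = (Module.finrank ℚ E : ℝ) * absLogHeight₁ (γ * y) := by
    rw [hh]
    field_simp
  have hD : Module.finrank ℚ K * Module.finrank K E = Module.finrank ℚ E :=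
    Module.finrank_mul_finrank ℚ K E
  have hG : Fintype.card (E ≃ₐ[K] E) = Module.finrank K E := by
    rw [← Nat.card_eq_fintype_card]
    exact IsGalois.card_aut_eq_finrank K E
  rw [hYcard, hh3] at hmet
  rw [← hG] at hD
  have hG0 : 0 < Fintype.card (E ≃ₐ[K] E) := Fintype.card_pos
  have hG0' : (0 : ℝ) < Fintype.card (E ≃ₐ[K] E) := by exact_mod_cast hG0
  have hcount' : (Fintype.card (E ≃ₐ[K] E) : ℝ) ≤ Fintype.card J * YG.card := by
    exact_mod_cast hcount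
  have hD' : (Module.finrank ℚ K : ℝ) * Fintype.card (E ≃ₐ[K] E) = Module.finrank ℚ E := by
    exact_mod_cast hD
  rw [← hD'] at hmet
  push_cast at hmet
  have hlog : 0 ≤ -Real.log B := by
    have := Real.log_nonpos hB0.le hB1
    linarith
  have hJ0 : (0 : ℝ) ≤ Fintype.card J := Nat.cast_nonneg _
  have key : (Fintype.card (E ≃ₐ[K] E) : ℝ) * (-Real.log B) ≤
      (Fintype.card (E ≃ₐ[K] E) : ℝ) * ((Fintype.card J : ℝ) * (Module.finrank ℚ K : ℝ) *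
      (2 * (p : ℝ) ^ s * absLogHeight₁ (γ * y) + Real.log 2)) := by
    have h1 : (YG.card : ℝ) * (-Real.log B) ≤
        (Module.finrank ℚ K : ℝ) * Fintype.card (E ≃ₐ[K] E) *
          (2 * (p : ℝ) ^ s * absLogHeight₁ (γ * y) + Real.log 2) := by
      linarith
    calc (Fintype.card (E ≃ₐ[K] E) : ℝ) * (-Real.log B)
        ≤ (Fintype.card J * YG.card) * (-Real.log B) :=
          mul_le_mul_of_nonneg_right hcount' hlog
      _ = Fintype.card J * ((YG.card : ℝ) * (-Real.log B)) := by ring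
      _ ≤ Fintype.card J * ((Module.finrank ℚ K : ℝ) * Fintype.card (E ≃ₐ[K] E) *
          (2 * (p : ℝ) ^ s * absLogHeight₁ (γ * y) + Real.log 2)) :=
          mul_le_mul_of_nonneg_left h1 hJ0
      _ = _ := by ring
  exact le_of_mul_le_mul_left key hG0'

end Pool.Agent.H72.RG
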