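import Pool.Agent.H72.RG.RamE

/-!
# Module NonDiv: elements of infinite order are not infinitely `p`-divisible in a finite extension of `Wnr`

0. `discrete`: there is `ρ₀ < 1` with `‖x‖ ≤ ρ₀` for all `x ∈ X`, `‖x‖ < 1`: `ram_E` for
   `E = normalClosure (Wnr p C) X C` (finite and normal over `Wnr p C`, contains `X`), `ρ₀ = ‖π‖`
   (`RamData.unif`).
1. Torsion: there is `t` such that `ε ∈ X`, `ε^(p^s) = 1` (any `s`) implies `ε^(p^t) = 1`: if `ε` has exact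
   order `p^s`, `s ≥ 1`, then `‖ε - 1‖^(p^(s-1)(p-1)) = 1/p` (`norm_zeta_sub_one`), `‖ε - 1‖ < 1`, so
   `‖ε - 1‖ ≤ ρ₀` and `ρ₀^(p^(s-1)(p-1)) ≥ 1/p`, which bounds `s`.
2. Suppose the claim is false for every `κ`. Take `κ` arbitrary and `j, n, z` with `z ∈ X`,
   `z^(p^j) = b^n`, `p^j ∤ p^κ n`. So `n ≠ 0`; write `n = p^v n'`, `p ∤ n'`; then `κ + v < j`. Bezout
   `n' a + p^j a' = 1`: `b^(p^v) = (z^a b^(p^v a'))^(p^j) =: z₁^(p^j)`, `z₁ ∈ X`. So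
   `(z₁^(p^(j-v)) / b)^(p^v) = 1` and `ε = z₁^(p^(j-v)) / b ∈ X` satisfies `ε^(p^t) = 1` by 1. Hence
   `b^(p^t) = (z₁^(p^t))^(p^(j-v))`, with `j - v > κ`; so `c = b^(p^t)` satisfies: for all `κ` there is
   `y ∈ X` with `y^(p^κ) = c`.
3. `‖c‖ = 1`: otherwise (replace `c` by `c⁻¹`) `‖c‖ < 1`, `‖y‖ = ‖c‖^(1/p^κ) < 1` but `‖y‖ ≤ ρ₀`, so
   `‖c‖ ≤ ρ₀^(p^κ)` for all `κ`, contradiction to `c ≠ 0`.
   `c = ω u`, `ω ∈ tame p C`, `‖u - 1‖ < 1` (`res_tame`); let `ω^N = 1`, `p ∤ N`, `c' = c^N = u^N`,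
   `‖c' - 1‖ < 1`. For every `κ` there is `y ∈ X` with `y^(p^κ) = c'` (`N`-th power of the previous one).
   `‖y‖ = 1`, `‖y - ω'‖ < 1` with `ω' ∈ tame p C`; then `‖ω'^(p^κ) - 1‖ < 1`, so `ω'^(p^κ) = 1` (`tame_dist`)
   and `ω' = 1` (order prime to `p`). So `‖y - 1‖ ≤ ρ₀`, and
   `‖y^(p^κ) - 1‖ ≤ (max ρ₀ (1/p))^(κ+1)`-like bound: `‖u^p - 1‖ ≤ max (‖u-1‖^p) (‖u-1‖/p) ≤ θ ‖u - 1‖` with
   `θ = max (ρ₀^(p-1)) (1/p) < 1` if `‖u - 1‖ ≤ ρ₀` (binomial theorem, `norm_p`). Let `κ → ∞`: `c' = 1`, so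
   `b^(p^t N) = 1`, contradiction to `htor`.
-/

set_option autoImplicit false
set_option linter.unusedSectionVars false

open IntermediateField

namespace Pool.Agent.H72.RG

open Pool.Agent.H72.RM

variable {p : ℕ} [Fact p.Prime] {C : Type} [NormedField C] [NormedAlgebra ℚ_[p] C]
  [IsUltrametricDist C] [IsAlgClosed C] [Algebra.IsAlgebraic ℚ_[p] C] [IsoEnv p C]

theorem discrete (X : IntermediateField (Wnr p C) C) [FiniteDimensional (Wnr p C) X] :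
    ∃ ρ₀ : ℝ, 0 < ρ₀ ∧ ρ₀ < 1 ∧ ∀ x ∈ X, ‖x‖ < 1 → ‖x‖ ≤ ρ₀ := by
  have : IsGalois (Wnr p C) C := galW p C _
  have : Normal (Wnr p C) C := inferInstance
  set E : IntermediateField (Wnr p C) C := IntermediateField.normalClosure (Wnr p C) X C with hE
  haveI : FiniteDimensional (Wnr p C) E := inferInstance
  haveI : Normal (Wnr p C) E := inferInstance
  obtain ⟨π, D⟩ := ram_E E
  refine ⟨‖π‖, D.pos, D.lt_one, fun x hx hlt => ?_⟩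
  have hxE : x ∈ E := IntermediateField.le_normalClosure X hx
  exact D.unif ⟨x, hxE⟩ hlt

/-- bound for the `p`-power torsion -/
theorem nondiv_tors (X : IntermediateField (Wnr p C) C) (ρ₀ : ℝ) (h0 : 0 < ρ₀) (h1 : ρ₀ < 1)
    (hd : ∀ x ∈ X, ‖x‖ < 1 → ‖x‖ ≤ ρ₀) :
    ∃ t : ℕ, ∀ ε ∈ X, ∀ s : ℕ, ε ^ (p ^ s) = 1 → ε ^ (p ^ t) = 1 := by
  have hp : p.Prime := Fact.out
  have hp0 : (0 : ℝ) < p := by exact_mod_cast hp.pos
  obtain ⟨t, ht⟩ := exists_pow_lt_of_lt_one (show (0 : ℝ) < 1 / (p : ℝ) by positivity) h1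
  refine ⟨t, fun ε hε s hs => ?_⟩
  have hord : orderOf ε ∣ p ^ s := orderOf_dvd_of_pow_eq_one hs
  obtain ⟨i, _, hi⟩ := (Nat.dvd_prime_pow hp).1 hord
  have hprim : IsPrimitiveRoot ε (p ^ i) := hi ▸ IsPrimitiveRoot.orderOf ε
  have hit : i ≤ t := by
    by_contra hcon
    have hti : t + 1 ≤ i := by omega
    have hi1 : 1 ≤ i := by omega
    have e1 := norm_zeta_sub_one (p := p) i hi1 ε hprim
    have e2 : ‖ε - 1‖ < 1 := norm_pow_sub_one (p := p) i ε hprim.pow_eq_one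
    have e3 : ‖ε - 1‖ ≤ ρ₀ := hd _ (X.sub_mem hε X.one_mem) e2
    have e4 : ‖ε - 1‖ ^ (p ^ (i - 1) * (p - 1)) ≤ ρ₀ ^ (p ^ (i - 1) * (p - 1)) :=
      pow_le_pow_left₀ (norm_nonneg _) e3 _
    have e5 : t ≤ p ^ (i - 1) * (p - 1) := by
      have f1 : i - 1 < p ^ (i - 1) := Nat.lt_pow_self hp.one_lt
      have f2 : 1 ≤ p - 1 := by have := hp.two_le; omega
      calc t ≤ p ^ (i - 1) := by omega
        _ ≤ p ^ (i - 1) * (p - 1) := Nat.le_mul_of_pos_right _ (by omega)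
    have e6 : ρ₀ ^ (p ^ (i - 1) * (p - 1)) ≤ ρ₀ ^ t := pow_le_pow_of_le_one h0.le h1.le e5
    rw [e1] at e4
    linarith
  obtain ⟨d, hd'⟩ := pow_dvd_pow p hit
  rw [hd', pow_mul, hprim.pow_eq_one, one_pow]

/-- infinitely `p`-divisible elements have norm at least `1` -/
theorem nondiv_norm (X : IntermediateField (Wnr p C) C) (ρ₀ : ℝ) (h0 : 0 < ρ₀) (h1 : ρ₀ < 1)
    (hd : ∀ x ∈ X, ‖x‖ < 1 → ‖x‖ ≤ ρ₀) (c : C) (hc0 : c ≠ 0)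
    (hc : ∀ κ : ℕ, ∃ y ∈ X, y ^ (p ^ κ) = c) : 1 ≤ ‖c‖ := by
  have hp : p.Prime := Fact.out
  by_contra hcon
  have hlt : ‖c‖ < 1 := not_le.1 hcon
  have hpos : 0 < ‖c‖ := norm_pos_iff.2 hc0
  obtain ⟨κ, hκ⟩ := exists_pow_lt_of_lt_one hpos h1
  obtain ⟨y, hy, hyc⟩ := hc κ
  have e1 : ‖y‖ ^ (p ^ κ) = ‖c‖ := by rw [← norm_pow, hyc]
  have e2 : ‖y‖ < 1 := by
    by_contra h
    have := one_le_pow₀ (n := p ^ κ) (not_lt.1 h)
    rw [e1] at this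
    linarith
  have e3 := hd y hy e2
  have e4 : ‖y‖ ^ (p ^ κ) ≤ ρ₀ ^ (p ^ κ) := pow_le_pow_left₀ (norm_nonneg _) e3 _
  have e5 : ρ₀ ^ (p ^ κ) ≤ ρ₀ ^ κ :=
    pow_le_pow_of_le_one h0.le h1.le (Nat.lt_pow_self hp.one_lt).le
  rw [e1] at e4
  linarith

omit [IsAlgClosed C] [Algebra.IsAlgebraic ℚ_[p] C] [IsoEnv p C] in
/-- contraction of the `p`-th power map near `1` -/
theorem nondiv_contr (θ : ℝ) (hθ0 : 0 ≤ θ) (hθp : 1 / (p : ℝ) ≤ θ) (y : C) (hy1 : ‖y - 1‖ ≤ θ)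
    (hy : ‖y‖ ≤ 1) : ‖y ^ p - 1‖ ≤ θ * ‖y - 1‖ := by
  have e1 : y ^ p - 1 = (∑ i ∈ Finset.range p, y ^ i) * (y - 1) := by rw [geom_sum_mul]
  have e2 : ∑ i ∈ Finset.range p, y ^ i = (∑ i ∈ Finset.range p, (y ^ i - 1)) + (p : C) := by
    rw [Finset.sum_sub_distrib]
    simp
  have e3 : ‖∑ i ∈ Finset.range p, (y ^ i - 1)‖ ≤ θ := by
    refine IsUltrametricDist.norm_sum_le_of_forall_le_of_nonneg hθ0 fun i _ => ?_
    exact (norm_pow_sub_one_le y hy i).trans hy1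
  have e4 : ‖∑ i ∈ Finset.range p, y ^ i‖ ≤ θ := by
    rw [e2]
    refine (IsUltrametricDist.norm_add_le_max _ _).trans (max_le e3 ?_)
    rw [norm_p]
    exact hθp
  rw [e1, norm_mul]
  exact mul_le_mul_of_nonneg_right e4 (norm_nonneg _)

omit [IsAlgClosed C] [Algebra.IsAlgebraic ℚ_[p] C] [IsoEnv p C] in
theorem nondiv_contr_iter (θ : ℝ) (hθ0 : 0 ≤ θ) (hθ1 : θ < 1) (hθp : 1 / (p : ℝ) ≤ θ) (y : C)
    (hy1 : ‖y - 1‖ ≤ θ) (hy : ‖y‖ ≤ 1) (k : ℕ) :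
    ‖y ^ (p ^ k) - 1‖ ≤ θ ^ k * ‖y - 1‖ := by
  induction k with
  | zero => simp
  | succ k ih =>
    have a1 : ‖y ^ (p ^ k)‖ ≤ 1 := by rw [norm_pow]; exact pow_le_one₀ (norm_nonneg _) hy
    have a2 : ‖y ^ (p ^ k) - 1‖ ≤ θ := by
      refine ih.trans ?_
      have : θ ^ k ≤ 1 := pow_le_one₀ hθ0 hθ1.le
      calc θ ^ k * ‖y - 1‖ ≤ 1 * ‖y - 1‖ := mul_le_mul_of_nonneg_right this (norm_nonneg _)
        _ ≤ θ := by rw [one_mul]; exact hy1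
    have a3 := nondiv_contr (p := p) θ hθ0 hθp (y ^ (p ^ k)) a2 a1
    rw [← pow_mul, ← pow_succ] at a3
    calc ‖y ^ (p ^ (k + 1)) - 1‖ ≤ θ * ‖y ^ (p ^ k) - 1‖ := a3
      _ ≤ θ * (θ ^ k * ‖y - 1‖) := mul_le_mul_of_nonneg_left ih hθ0
      _ = θ ^ (k + 1) * ‖y - 1‖ := by ring

theorem non_div (X : IntermediateField (Wnr p C) C) [FiniteDimensional (Wnr p C) X] (b : C)
    (hb : b ∈ X) (hb0 : b ≠ 0) (htor : ∀ n : ℕ, 1 ≤ n → b ^ n ≠ 1) :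
    ∃ κ : ℕ, ∀ (j : ℕ) (n : ℤ) (z : C), z ∈ X → z ^ (p ^ j) = b ^ n → (p : ℤ) ^ j ∣ p ^ κ * n := by
  have hp : p.Prime := Fact.out
  obtain ⟨ρ₀, h0, h1, hd⟩ := discrete X
  obtain ⟨t, ht⟩ := nondiv_tors X ρ₀ h0 h1 hd
  by_contra hcon
  push Not at hcon
  -- divisibility of `c = b^(p^t)`
  have hdiv : ∀ κ : ℕ, ∃ y ∈ X, y ^ (p ^ κ) = b ^ (p ^ t) := by
    intro κ
    obtain ⟨j, n, z, hz, hzb, hndvd⟩ := hcon κ
    have hn0 : n ≠ 0 := by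
      rintro rfl
      exact hndvd (by simp)
    obtain ⟨v, n', hn', hnn⟩ : ∃ v : ℕ, ∃ n' : ℤ, ¬ (p : ℤ) ∣ n' ∧ n = (p : ℤ) ^ v * n' := by
      have hfin : FiniteMultiplicity (p : ℤ) n :=
        Int.finiteMultiplicity_iff.2 ⟨by simpa using hp.ne_one, hn0⟩
      obtain ⟨n', h2, h3⟩ := hfin.exists_eq_pow_mul_and_not_dvd
      exact ⟨_, n', h3, h2⟩
    have hvj : κ + v < j := by
      by_contra h
      apply hndvd
      rw [hnn, ← mul_assoc, ← pow_add]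
      exact Dvd.dvd.mul_right (pow_dvd_pow _ (by omega)) _
    have hcop : IsCoprime n' ((p : ℤ) ^ j) := by
      apply IsCoprime.pow_right
      rw [isCoprime_comm]
      exact (Prime.coprime_iff_not_dvd (Nat.prime_iff_prime_int.1 hp)).2 hn'
    obtain ⟨a, a', haa⟩ := hcop
    have hz0 : z ≠ 0 := by
      rintro rfl
      rw [zero_pow (pow_pos hp.pos j).ne'] at hzb
      exact (zpow_ne_zero n hb0) hzb.symm
    set z₁ : C := z ^ a * (b ^ (p ^ v)) ^ a' with hz₁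
    have hz₁X : z₁ ∈ X := X.mul_mem (zpow_mem hz a) (zpow_mem (pow_mem hb _) a')
    have hz₁p : z₁ ^ (p ^ j) = b ^ (p ^ v) := by
      rw [hz₁, mul_pow]
      have e1 : (z ^ a) ^ (p ^ j) = b ^ (n * a) := by
        rw [← zpow_natCast, ← zpow_mul, mul_comm a, zpow_mul, zpow_natCast, hzb, ← zpow_mul]
      have e2 : ((b ^ (p ^ v)) ^ a') ^ (p ^ j) = b ^ ((p : ℤ) ^ v * (a' * (p : ℤ) ^ j)) := by
        rw [← zpow_natCast, ← zpow_mul, ← zpow_natCast, ← zpow_mul]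
        push_cast
        rfl
      rw [e1, e2, ← zpow_add₀ hb0]
      have e3 : n * a + (p : ℤ) ^ v * (a' * (p : ℤ) ^ j) = ((p ^ v : ℕ) : ℤ) := by
        push_cast
        rw [hnn]
        linear_combination ((p : ℤ) ^ v) * haa
      rw [e3, zpow_natCast]
    have hz₁0 : z₁ ≠ 0 := by
      intro h
      rw [h, zero_pow (pow_pos hp.pos j).ne'] at hz₁p
      exact (pow_ne_zero _ hb0) hz₁p.symm
    set ε : C := z₁ ^ (p ^ (j - v)) / b with hε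
    have hεX : ε ∈ X := X.div_mem (pow_mem hz₁X _) hb
    have hεv : ε ^ (p ^ v) = 1 := by
      rw [hε, div_pow, ← pow_mul, ← pow_add, Nat.sub_add_cancel (by omega : v ≤ j), hz₁p,
        div_self (pow_ne_zero _ hb0)]
    have hεt := ht ε hεX v hεv
    have hfin : (z₁ ^ (p ^ (j - v))) ^ (p ^ t) = b ^ (p ^ t) := by
      rw [hε, div_pow, div_eq_one_iff_eq (pow_ne_zero _ hb0)] at hεt
      exact hεt
    refine ⟨(z₁ ^ (p ^ t)) ^ (p ^ (j - v - κ)), pow_mem (pow_mem hz₁X _) _, ?_⟩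
    rw [← hfin, ← pow_mul, ← pow_mul, ← pow_mul]
    congr 1
    have : p ^ (j - v) = p ^ (j - v - κ) * p ^ κ := by
      rw [← pow_add]
      congr 1
      omega
    rw [this]
    ring
  set c : C := b ^ (p ^ t) with hcdef
  have hc0 : c ≠ 0 := pow_ne_zero _ hb0
  have hn1 : 1 ≤ ‖c‖ := nondiv_norm X ρ₀ h0 h1 hd c hc0 hdiv
  have hn2 : 1 ≤ ‖c⁻¹‖ := by
    refine nondiv_norm X ρ₀ h0 h1 hd c⁻¹ (inv_ne_zero hc0) fun κ => ?_
    obtain ⟨y, hy, hyc⟩ := hdiv κ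
    exact ⟨y⁻¹, X.inv_mem hy, by rw [inv_pow, hyc]⟩
  have hcn : ‖c‖ = 1 := by
    rw [norm_inv] at hn2
    have : 0 < ‖c‖ := by linarith
    refine le_antisymm ?_ hn1
    rwa [le_inv_comm₀ one_pos this, inv_one] at hn2
  obtain ⟨ω, hω, hcω⟩ := res_tame (p := p) c hcn
  obtain ⟨N, hN, hωN⟩ := hω
  have hN0 : N ≠ 0 := by
    rintro rfl
    exact hN (dvd_zero p)
  have hωn : ‖ω‖ = 1 := norm_of_mem_tame ⟨N, hN, hωN⟩
  have hc' : ‖c ^ N - 1‖ < 1 := by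
    rw [← hωN]
    exact (mono_pow_sub hcn.le hωn.le N).trans_lt hcω
  -- roots of `c ^ N` close to one
  have hroots : ∀ κ : ℕ, ∃ y ∈ X, y ^ (p ^ κ) = c ^ N ∧ ‖y‖ = 1 ∧ ‖y - 1‖ ≤ ρ₀ := by
    intro κ
    obtain ⟨y₀, hy₀, hy₀c⟩ := hdiv κ
    have hyX : y₀ ^ N ∈ X := pow_mem hy₀ N
    have hyp : (y₀ ^ N) ^ (p ^ κ) = c ^ N := by rw [← pow_mul, mul_comm, pow_mul, hy₀c]
    have hyn : ‖y₀ ^ N‖ = 1 := by
      have e1 : ‖y₀ ^ N‖ ^ (p ^ κ) = 1 := by rw [← norm_pow, hyp, norm_pow, hcn, one_pow]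
      exact (pow_eq_one_iff_of_nonneg (norm_nonneg _) (pow_pos hp.pos κ).ne').1 e1
    obtain ⟨ω', hω', hyω'⟩ := res_tame (p := p) (y₀ ^ N) hyn
    have hω'n : ‖ω'‖ = 1 := norm_of_mem_tame hω'
    have e2 : ‖(y₀ ^ N) ^ (p ^ κ) - ω' ^ (p ^ κ)‖ < 1 :=
      (mono_pow_sub hyn.le hω'n.le _).trans_lt hyω'
    rw [hyp] at e2
    have e3 : ‖ω' ^ (p ^ κ) - 1‖ < 1 := by
      have e4 : ω' ^ (p ^ κ) - 1 = (c ^ N - 1) + -(c ^ N - ω' ^ (p ^ κ)) := by ring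
      rw [e4]
      refine (IsUltrametricDist.norm_add_le_max _ _).trans_lt (max_lt hc' ?_)
      rwa [norm_neg]
    obtain ⟨n₁, hn₁, hωn₁⟩ := hω'
    have e5 : ω' ^ (p ^ κ) = 1 := by
      refine tame_dist (p := p) _ ⟨n₁, hn₁, ?_⟩ e3
      rw [← pow_mul, mul_comm, pow_mul, hωn₁, one_pow]
    have e6 : ω' = 1 := by
      have hc1 : Nat.Coprime (p ^ κ) n₁ :=
        Nat.Coprime.pow_left κ ((Nat.Prime.coprime_iff_not_dvd hp).2 hn₁)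
      have h7 := pow_gcd_eq_one.2 ⟨e5, hωn₁⟩
      rw [hc1, pow_one] at h7
      exact h7
    rw [e6] at hyω'
    exact ⟨y₀ ^ N, hyX, hyp, hyn, hd _ (X.sub_mem hyX X.one_mem) hyω'⟩
  -- contraction
  set θ : ℝ := max ρ₀ (1 / (p : ℝ)) with hθ
  have hp1 : (1 : ℝ) < p := by exact_mod_cast hp.one_lt
  have hθ1 : θ < 1 := max_lt h1 (by rw [div_lt_one (by linarith)]; exact hp1)
  have hθ0 : 0 ≤ θ := h0.le.trans (le_max_left _ _)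
  have hcN : c ^ N = 1 := by
    by_contra hne
    have hpos : 0 < ‖c ^ N - 1‖ := norm_pos_iff.2 (sub_ne_zero.2 hne)
    obtain ⟨κ, hκ⟩ := exists_pow_lt_of_lt_one hpos hθ1
    obtain ⟨y, hy, hyc, hyn, hy1⟩ := hroots κ
    have e1 := nondiv_contr_iter (p := p) θ hθ0 hθ1 (le_max_right _ _) y
      (hy1.trans (le_max_left _ _)) hyn.le κ
    rw [hyc] at e1
    have e2 : θ ^ κ * ‖y - 1‖ ≤ θ ^ κ :=
      mul_le_of_le_one_right (pow_nonneg hθ0 _) (hy1.trans h1.le)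
    linarith
  refine htor (p ^ t * N) (Nat.mul_pos (pow_pos hp.pos t) (Nat.pos_of_ne_zero hN0)) ?_
  rw [pow_mul]
  exact hcN

end Pool.Agent.H72.RG
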