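import Pool.Agent.H72.RM.RamDown
import Pool.Agent.H72.RM.RamUp

/-!
# Sums of ramification numbers (definitions and basic facts)

`M` is a valued field with an action of a finite group `G` and ramification data `D : RamData M G π`
(module `Pool.Agent.H72.RM.Ram`). `nu π g = - log ‖g • π - π‖` (natural logarithm; `nu π 1 = 0` since
`Real.log 0 = 0`), and `nuS π P` is the sum of `nu π g` over all `g` with the property `P`.
-/

set_option autoImplicit false
set_option linter.unusedSectionVars false

namespace Pool.Agent.H72.RG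

open Pool.Agent.H72.RM

variable {M G : Type} [NormedField M] [Group G] [MulSemiringAction G M]

/-- the ramification number of `g` (natural logarithm) -/
noncomputable def nu (π : M) (g : G) : ℝ := -Real.log ‖g • π - π‖

open Classical in
/-- the sum of the ramification numbers of the elements with the property `P` -/
noncomputable def nuS [Fintype G] (π : M) (P : G → Prop) : ℝ :=
  ∑ g ∈ Finset.univ.filter P, nu π g

variable {π : M}

theorem nu_one : nu π (1 : G) = 0 := by
  unfold nu
  rw [one_smul, sub_self, norm_zero, Real.log_zero, neg_zero]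

theorem nu_nonneg (D : RamData M G π) (g : G) : 0 ≤ nu π g := by
  unfold nu
  have h1 := D.ram_le_one g
  have h2 := Real.log_nonpos (norm_nonneg _) h1
  linarith

theorem nu_conj (D : RamData M G π) (g h : G) : nu π (h * g * h⁻¹) = nu π g := by
  unfold nu
  rw [D.ram_conj]

theorem norm_eq_exp_nu (D : RamData M G π) (g : G) (hg : g ≠ 1) :
    ‖g • π - π‖ = Real.exp (-nu π g) := by
  unfold nu
  have h1 : 0 < ‖g • π - π‖ := by
    rw [norm_pos_iff, sub_ne_zero]
    intro h
    exact hg (D.ram_eq_zero g h)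
  rw [neg_neg, Real.exp_log h1]

section

variable [Fintype G]

open Classical in
theorem nuS_eq (P : G → Prop) : nuS π P = ∑ g : G, if P g then nu π g else 0 := by
  unfold nuS
  rw [Finset.sum_filter]

theorem nuS_nonneg (D : RamData M G π) (P : G → Prop) : 0 ≤ nuS π P :=
  Finset.sum_nonneg fun g _ => nu_nonneg D g

theorem nuS_mono (D : RamData M G π) (P Q : G → Prop) (h : ∀ g, P g → Q g) :
    nuS π P ≤ nuS π Q := by
  classical
  unfold nuS
  refine Finset.sum_le_sum_of_subset_of_nonneg ?_ fun g _ _ => nu_nonneg D g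
  intro g hg
  rw [Finset.mem_filter] at hg ⊢
  exact ⟨hg.1, h g hg.2⟩

theorem nuS_congr (P Q : G → Prop) (h : ∀ g, P g ↔ Q g) : nuS π P = nuS π Q := by
  have h1 : P = Q := funext fun g => propext (h g)
  rw [h1]

theorem nuS_split (P Q : G → Prop) :
    nuS π P = nuS π (fun g => P g ∧ Q g) + nuS π (fun g => P g ∧ ¬ Q g) := by
  classical
  rw [nuS_eq, nuS_eq, nuS_eq, ← Finset.sum_add_distrib]
  refine Finset.sum_congr rfl fun g _ => ?_
  by_cases h1 : P g <;> by_cases h2 : Q g <;> simp [h1, h2]

theorem nuS_le_add (D : RamData M G π) (P Q R : G → Prop) (h : ∀ g, P g → Q g ∨ R g) :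
    nuS π P ≤ nuS π Q + nuS π R := by
  classical
  rw [nuS_eq, nuS_eq, nuS_eq, ← Finset.sum_add_distrib]
  refine Finset.sum_le_sum fun g _ => ?_
  have h0 := nu_nonneg D g
  by_cases h1 : P g
  · rcases h g h1 with h2 | h2
    · by_cases h3 : R g <;> simp [h1, h2, h3, h0]
    · by_cases h3 : Q g <;> simp [h1, h2, h3, h0]
  · by_cases h2 : Q g <;> by_cases h3 : R g <;> simp [h1, h2, h3, h0]

theorem nuS_le_sum (D : RamData M G π) {I : Type} (s : Finset I) (P : G → Prop) (Q : I → G → Prop)
    (h : ∀ g, P g → ∃ i ∈ s, Q i g) : nuS π P ≤ ∑ i ∈ s, nuS π (Q i) := by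
  classical
  simp only [nuS_eq]
  rw [Finset.sum_comm]
  refine Finset.sum_le_sum fun g _ => ?_
  have h0 := nu_nonneg D g
  by_cases h1 : P g
  · obtain ⟨i, hi, hQ⟩ := h g h1
    rw [if_pos h1]
    calc nu π g = if Q i g then nu π g else 0 := by rw [if_pos hQ]
      _ ≤ ∑ i ∈ s, if Q i g then nu π g else 0 := by
          refine Finset.single_le_sum (f := fun i => if Q i g then nu π g else 0) ?_ hi
          intro j _
          split_ifs
          · exact h0
          · exact le_refl _
  · rw [if_neg h1]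
    refine Finset.sum_nonneg fun j _ => ?_
    split_ifs
    · exact h0
    · exact le_refl _

/-- disjoint pieces -/
theorem nuS_sum_le (D : RamData M G π) {I : Type} (s : Finset I) (P : G → Prop) (Q : I → G → Prop)
    (h : ∀ i ∈ s, ∀ g, Q i g → P g)
    (hdisj : ∀ i ∈ s, ∀ j ∈ s, i ≠ j → ∀ g, Q i g → ¬ Q j g) :
    ∑ i ∈ s, nuS π (Q i) ≤ nuS π P := by
  classical
  simp only [nuS_eq]
  rw [Finset.sum_comm]
  refine Finset.sum_le_sum fun g _ => ?_
  have h0 := nu_nonneg D g
  by_cases h1 : ∃ i ∈ s, Q i g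
  · obtain ⟨i, hi, hQ⟩ := h1
    rw [if_pos (h i hi g hQ), Finset.sum_eq_single i, if_pos hQ]
    · intro j hj hji
      rw [if_neg]
      exact fun hQj => hdisj i hi j hj hji.symm g hQ hQj
    · intro h2
      exact absurd hi h2
  · have h2 : ∑ i ∈ s, (if Q i g then nu π g else 0) = 0 := by
      refine Finset.sum_eq_zero fun i hi => ?_
      rw [if_neg]
      exact fun hQ => h1 ⟨i, hi, hQ⟩
    rw [h2]
    split_ifs
    · exact h0
    · exact le_refl _

/-- the sum over a conjugate set -/
theorem nuS_conj (D : RamData M G π) (t : G) (P : G → Prop) :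
    nuS π (fun g => P (t⁻¹ * g * t)) = nuS π P := by
  classical
  rw [nuS_eq, nuS_eq]
  refine Fintype.sum_equiv (MulAut.conj t⁻¹).toEquiv _ _ fun g => ?_
  have h1 : (MulAut.conj t⁻¹).toEquiv g = t⁻¹ * g * t := by
    simp
  rw [h1]
  have h2 : nu π g = nu π (t⁻¹ * g * t) := by
    have h3 := nu_conj D g t⁻¹
    rw [inv_inv] at h3
    exact h3.symm
  rw [h2]

end

end Pool.Agent.H72.RG
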