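import Pool.Agent.H72.RG.ZBound

/-!
# Module OneY: the elements fixing `ζ` and moving one radical `y`

`S(P) = nuS π P`. By `nuS_split` (several times)
`S(g ∈ Q, g ζ = ζ, g y ≠ y) = S(g ∈ Q, (g ζ ≠ ζ or g y ≠ y)) - S(g ∈ Q, g ζ ≠ ζ)`.
First term: `≤ S(g ∈ Q, g y ≠ y) + S(g ∈ Q, g y = y, g ζ ≠ ζ)`, the first of these is
`≤ -log ‖p^n‖ - log ‖y^(p^n)‖ = n log p - log ‖y^(p^n)‖` (`nu_rad`, `hp`), the second is `≤ (κ + 1) log p`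
(`z_bound`). Second term: `S(g ζ ≠ ζ) ≤ S(g ∈ Q, g ζ ≠ ζ) + S(g ∉ Q)` and `hlow`, `hQ`, so
`S(g ∈ Q, g ζ ≠ ζ) ≥ (n - 1) log p - DX`.
-/

set_option autoImplicit false
set_option linter.unusedSectionVars false

namespace Pool.Agent.H72.RG

open Pool.Agent.H72.RM

variable {M G : Type} [NormedField M] [Group G] [MulSemiringAction G M] [Fintype G] {π : M}

theorem one_y (D : RamData M G π) (p : ℕ) [Fact p.Prime] (hp : ‖(p : M)‖ = 1 / (p : ℝ))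
    (Q : Subgroup G) (DX : ℝ) (hQ : nuS π (fun g => g ∉ Q) ≤ DX) (n : ℕ) (ζ : M)
    (hζ : IsPrimitiveRoot ζ (p ^ n))
    (hlow : ((n : ℝ) - 1) * Real.log p ≤ nuS π (fun g : G => g • ζ ≠ ζ))
    (y : M) (hy0 : y ≠ 0) (hy : ‖y‖ ≤ 1) (hb : ∀ g ∈ Q, g • (y ^ (p ^ n)) = y ^ (p ^ n))
    (κ : ℕ) (hτ : ∀ k : ℕ, ∃ τ ∈ Q, τ • ζ = ζ ∧ τ • y = ζ ^ (p ^ κ * k) * y) :
    nuS π (fun g => g ∈ Q ∧ g • ζ = ζ ∧ g • y ≠ y) ≤
      -Real.log ‖y ^ (p ^ n)‖ + ((κ : ℝ) + 2) * Real.log p + DX := by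
  have hp0 : (0 : ℝ) < p := by exact_mod_cast (Fact.out : p.Prime).pos
  have h1 : nuS π (fun g => g ∈ Q ∧ (g • ζ ≠ ζ ∨ g • y ≠ y)) =
      nuS π (fun g => g ∈ Q ∧ g • ζ ≠ ζ) + nuS π (fun g => g ∈ Q ∧ g • ζ = ζ ∧ g • y ≠ y) := by
    rw [nuS_split (π := π) (fun g => g ∈ Q ∧ (g • ζ ≠ ζ ∨ g • y ≠ y)) (fun g => g • ζ ≠ ζ)]
    congr 1
    · apply nuS_congr
      intro g
      tauto
    · apply nuS_congr
      intro g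
      tauto
  have h2 : nuS π (fun g => g ∈ Q ∧ (g • ζ ≠ ζ ∨ g • y ≠ y)) ≤
      nuS π (fun g => g ∈ Q ∧ g • y ≠ y) + nuS π (fun g => g ∈ Q ∧ g • y = y ∧ g • ζ ≠ ζ) := by
    apply nuS_le_add D
    intro g hg
    by_cases h : g • y = y
    · right
      exact ⟨hg.1, h, by tauto⟩
    · left
      exact ⟨hg.1, h⟩
  have h3 : nuS π (fun g : G => g • ζ ≠ ζ) ≤
      nuS π (fun g => g ∈ Q ∧ g • ζ ≠ ζ) + nuS π (fun g => g ∉ Q) := by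
    apply nuS_le_add D
    intro g hg
    by_cases h : g ∈ Q
    · exact Or.inl ⟨h, hg⟩
    · exact Or.inr h
  have h4 := nu_rad D Q (p ^ n) (Nat.one_le_pow _ _ (Fact.out : p.Prime).pos) ζ hζ y hy0 hy hb
  have h5 := z_bound D p hp Q n ζ hζ y hy0 κ hτ
  have h6 : Real.log ‖((p ^ n : ℕ) : M)‖ = -((n : ℝ) * Real.log p) := by
    rw [Nat.cast_pow, norm_pow, hp, one_div, inv_pow, Real.log_inv, Real.log_pow]
  rw [h6] at h4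
  linarith

end Pool.Agent.H72.RG
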