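import Pool.Agent.H72.RG.NuMoved
import Pool.Agent.H72.RG.RootSum

/-!
# Module RadBound: upper bounds for radicals and roots of unity

`nu_rad`: for `g ∈ Q`, `(g • y)^N = g • (y^N) = y^N`, so `g • y = ζ^i y` with `i < N`
(`IsPrimitiveRoot.eq_pow_of_pow_eq_one`), and `i ≥ 1` if `g • y ≠ y`. Let
`R = (Finset.Ico 1 N).image (fun i => ζ^i * y)` (the map is injective there, `ζ^i ≠ ζ^j`). By
`nuS_mono` and `nu_orbit` the sum is at most
`∑_{1 ≤ i < N} -log ‖ζ^i y - y‖ = ∑ (-log ‖ζ^i - 1‖) - (N - 1) log ‖y‖`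
(`‖ζ‖ = 1`, `Finset.sum_image`), use `root_sum` and `-(N-1) log ‖y‖ ≤ -N log ‖y‖ = -log ‖y^N‖`.
`nu_ord`: `‖ζ‖ = 1` (root of unity). `R = (primitiveRoots (p^j) M).image (fun ω => ω * ζ)`, `ζ ∉ R` as `1` is
not a primitive `p^j`-th root of unity (`j ≥ 1`); `‖ω ζ - ζ‖ = ‖ω - 1‖`; `nu_orbit` and `root_sum_prime`
(a primitive `p^j`-th root of unity exists: `ζ^(p^(n-j))`, `IsPrimitiveRoot.pow`).
-/

set_option autoImplicit false
set_option linter.unusedSectionVars false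

namespace Pool.Agent.H72.RG

open Pool.Agent.H72.RM

variable {M G : Type} [NormedField M] [Group G] [MulSemiringAction G M] [Fintype G] {π : M}

/-- a root of unity has norm one -/
theorem norm_root_one (N : ℕ) (hN : 1 ≤ N) (ζ : M) (h : ζ ^ N = 1) : ‖ζ‖ = 1 := by
  have h1 := congrArg norm h
  rw [norm_pow, norm_one] at h1
  exact (pow_eq_one_iff_of_nonneg (norm_nonneg ζ) (by omega)).1 h1

theorem nu_rad (D : RamData M G π) (Q : Subgroup G) (N : ℕ) (hN : 1 ≤ N) (ζ : M)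
    (hζ : IsPrimitiveRoot ζ N) (y : M) (hy0 : y ≠ 0) (hy : ‖y‖ ≤ 1)
    (hb : ∀ g ∈ Q, g • (y ^ N) = y ^ N) :
    nuS π (fun g => g ∈ Q ∧ g • y ≠ y) ≤ -Real.log ‖(N : M)‖ - Real.log ‖y ^ N‖ := by
  classical
  have hζ1 : ‖ζ‖ = 1 := norm_root_one N hN ζ hζ.pow_eq_one
  have hny : 0 < ‖y‖ := norm_pos_iff.2 hy0
  have hlogy : Real.log ‖y‖ ≤ 0 := Real.log_nonpos hny.le hy
  have hinj : ∀ i ∈ Finset.Ico 1 N, ∀ j ∈ Finset.Ico 1 N, ζ ^ i * y = ζ ^ j * y → i = j := by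
    intro i hi j hj hij
    rw [Finset.mem_Ico] at hi hj
    exact hζ.pow_inj hi.2 hj.2 (mul_right_cancel₀ hy0 hij)
  set R : Finset M := (Finset.Ico 1 N).image (fun i => ζ ^ i * y) with hR
  have h1 : nuS π (fun g => g ∈ Q ∧ g • y ≠ y) ≤ nuS π (fun g => g ∈ Q ∧ g • y ∈ R) := by
    refine nuS_mono D _ _ ?_
    rintro g ⟨hgQ, hgy⟩
    refine ⟨hgQ, ?_⟩
    have h2 : (g • y / y) ^ N = 1 := by
      rw [div_pow, ← smul_pow', hb g hgQ, div_self (pow_ne_zero N hy0)]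
    haveI : NeZero N := ⟨by omega⟩
    obtain ⟨i, hi, hi2⟩ := hζ.eq_pow_of_pow_eq_one h2
    rw [hR, Finset.mem_image]
    refine ⟨i, ?_, ?_⟩
    · rw [Finset.mem_Ico]
      refine ⟨?_, hi⟩
      rcases Nat.eq_zero_or_pos i with h0 | h0
      · exfalso
        apply hgy
        rw [h0, pow_zero] at hi2
        field_simp at hi2
        exact hi2.symm
      · exact h0
    · show ζ ^ i * y = g • y
      rw [hi2, div_mul_cancel₀ _ hy0]
  have hyR : y ∉ R := by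
    rw [hR, Finset.mem_image]
    rintro ⟨i, hi, hi2⟩
    rw [Finset.mem_Ico] at hi
    have h3 : ζ ^ i = 1 := by
      have h4 : ζ ^ i * y = 1 * y := by rw [one_mul]; exact hi2
      exact mul_right_cancel₀ hy0 h4
    exact hζ.pow_ne_one_of_pos_of_lt (by omega) hi.2 h3
  have hRn : ∀ z ∈ R, ‖z‖ ≤ 1 := by
    intro z hz
    rw [hR, Finset.mem_image] at hz
    obtain ⟨i, _, rfl⟩ := hz
    rw [norm_mul, norm_pow, hζ1, one_pow, one_mul]
    exact hy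
  have h2 := nu_orbit D Q y hy R hyR hRn
  have h3 : ∑ z ∈ R, (-Real.log ‖z - y‖) =
      -Real.log ‖(N : M)‖ - ((N : ℝ) - 1) * Real.log ‖y‖ := by
    rw [hR, Finset.sum_image hinj]
    have h4 : ∀ i ∈ Finset.Ico 1 N, -Real.log ‖ζ ^ i * y - y‖ =
        -Real.log ‖ζ ^ i - 1‖ + -Real.log ‖y‖ := by
      intro i hi
      rw [Finset.mem_Ico] at hi
      have h5 : ζ ^ i - 1 ≠ 0 := sub_ne_zero.2 (hζ.pow_ne_one_of_pos_of_lt (by omega) hi.2)
      have h6 : ζ ^ i * y - y = (ζ ^ i - 1) * y := by ring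
      rw [h6, norm_mul, Real.log_mul (norm_ne_zero_iff.2 h5) (norm_ne_zero_iff.2 hy0)]
      ring
    rw [Finset.sum_congr rfl h4, Finset.sum_add_distrib, root_sum N hN ζ hζ, Finset.sum_const,
      Nat.card_Ico, nsmul_eq_mul, Nat.cast_sub hN, Nat.cast_one]
    ring
  have h5 : Real.log ‖y ^ N‖ = (N : ℝ) * Real.log ‖y‖ := by
    rw [norm_pow, Real.log_pow]
  rw [h5]
  rw [h3] at h2
  linarith

theorem nu_ord (D : RamData M G π) (Q : Subgroup G) (p : ℕ) [Fact p.Prime] (n j : ℕ) (hj : 1 ≤ j)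
    (hjn : j ≤ n) (ζ : M) (hζ : IsPrimitiveRoot ζ (p ^ n)) :
    nuS π (fun g => g ∈ Q ∧ IsPrimitiveRoot (g • ζ / ζ) (p ^ j)) ≤ -Real.log ‖(p : M)‖ := by
  classical
  have hp : p.Prime := Fact.out
  have hζ1 : ‖ζ‖ = 1 := norm_root_one (p ^ n) (Nat.one_le_pow _ _ hp.pos) ζ hζ.pow_eq_one
  have hζ0 : ζ ≠ 0 := by
    intro h
    rw [h, norm_zero] at hζ1
    exact zero_ne_one hζ1
  have hinj : ∀ a ∈ primitiveRoots (p ^ j) M, ∀ b ∈ primitiveRoots (p ^ j) M,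
      a * ζ = b * ζ → a = b := fun a _ b _ hab => mul_right_cancel₀ hζ0 hab
  have hω1 : ∀ ω ∈ primitiveRoots (p ^ j) M, ‖ω‖ = 1 := by
    intro ω hω
    exact norm_root_one (p ^ j) (Nat.one_le_pow _ _ hp.pos) ω
      (isPrimitiveRoot_of_mem_primitiveRoots hω).pow_eq_one
  set R : Finset M := (primitiveRoots (p ^ j) M).image (fun ω => ω * ζ) with hR
  have h1 : nuS π (fun g => g ∈ Q ∧ IsPrimitiveRoot (g • ζ / ζ) (p ^ j)) ≤
      nuS π (fun g => g ∈ Q ∧ g • ζ ∈ R) := by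
    refine nuS_mono D _ _ ?_
    rintro g ⟨hgQ, hgy⟩
    refine ⟨hgQ, ?_⟩
    rw [hR, Finset.mem_image]
    refine ⟨g • ζ / ζ, (mem_primitiveRoots (pow_pos hp.pos j)).2 hgy, ?_⟩
    show g • ζ / ζ * ζ = g • ζ
    rw [div_mul_cancel₀ _ hζ0]
  have hyR : ζ ∉ R := by
    rw [hR, Finset.mem_image]
    rintro ⟨ω, hω, hω2⟩
    have h3 : ω = 1 := by
      have h4 : ω * ζ = 1 * ζ := by rw [one_mul]; exact hω2
      exact mul_right_cancel₀ hζ0 h4
    have h4 := isPrimitiveRoot_of_mem_primitiveRoots hω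
    rw [h3] at h4
    have h5 := h4.eq_orderOf
    rw [orderOf_one] at h5
    have h6 : 1 < p ^ j := Nat.one_lt_pow (by omega) hp.one_lt
    omega
  have hRn : ∀ z ∈ R, ‖z‖ ≤ 1 := by
    intro z hz
    rw [hR, Finset.mem_image] at hz
    obtain ⟨ω, hω, rfl⟩ := hz
    rw [norm_mul, hω1 ω hω, hζ1, one_mul]
  have h2 := nu_orbit D Q ζ hζ1.le R hyR hRn
  have h3 : ∑ z ∈ R, (-Real.log ‖z - ζ‖) = -Real.log ‖(p : M)‖ := by
    rw [hR, Finset.sum_image hinj]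
    have hprim : IsPrimitiveRoot (ζ ^ (p ^ (n - j))) (p ^ j) := by
      refine hζ.pow (pow_pos hp.pos n) ?_
      rw [← pow_add]
      congr 1
      omega
    rw [← root_sum_prime p j hj _ hprim]
    refine Finset.sum_congr rfl fun ω hω => ?_
    have h6 : ω * ζ - ζ = (ω - 1) * ζ := by ring
    rw [h6, norm_mul, hζ1, mul_one]
  exact h1.trans (h2.trans h3.le)

end Pool.Agent.H72.RG
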