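import Pool.Agent.H72.RM.CycW
import Pool.Agent.H72.RM.Mono
import Pool.Agent.H72.RM.Res
import Pool.Agent.H72.RM.Ram

/-!
# Module RamE: finite normal extensions of `Wnr` carry ramification data

Generalisation of `Pool.Agent.H72.RM.LocalB` to an arbitrary finite normal extension `E` of
`W = Wnr p C` inside `C`.
-/

set_option autoImplicit false
set_option linter.unusedSectionVars false

open IntermediateField

namespace Pool.Agent.H72.RG

open Pool.Agent.H72.RM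

variable {p : ℕ} [Fact p.Prime] {C : Type} [NormedField C] [NormedAlgebra ℚ_[p] C]
  [IsUltrametricDist C] [IsAlgClosed C] [Algebra.IsAlgebraic ℚ_[p] C] [IsoEnv p C]

/-- an automorphism of `C` over `ℚ_p` fixing `tame p C` fixes `Wnr p C` -/
theorem fixes_W (σ : C ≃ₐ[ℚ_[p]] C) (hσ : ∀ ω ∈ tame p C, σ ω = ω) (x : C) (hx : x ∈ Wnr p C) :
    σ x = x :=
  fixed_of_mem_adjoin (tame p C) (σ : C →ₐ[ℚ_[p]] C) hσ x hx

/-- an automorphism of `C` over `ℚ_p` fixing `tame p C`, as an automorphism over `Wnr p C` -/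
theorem exists_overW (σ : C ≃ₐ[ℚ_[p]] C) (hσ : ∀ ω ∈ tame p C, σ ω = ω) :
    ∃ σ' : C ≃ₐ[Wnr p C] C, ∀ x, σ' x = σ x := by
  have hfix : ∀ r : Wnr p C, σ.toRingEquiv (algebraMap (Wnr p C) C r) = algebraMap (Wnr p C) C r :=
    fun r => fixes_W σ hσ (r : C) r.2
  exact ⟨AlgEquiv.ofRingEquiv (f := σ.toRingEquiv) hfix, fun x => rfl⟩

/-- an automorphism of `C` over `Wnr p C`, as an automorphism over `ℚ_p` fixing `tame p C` -/
theorem exists_overQ (σ : C ≃ₐ[Wnr p C] C) :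
    ∃ σ' : C ≃ₐ[ℚ_[p]] C, (∀ ω ∈ tame p C, σ' ω = ω) ∧ ∀ x, σ' x = σ x :=
  ⟨σ.restrictScalars ℚ_[p], fun ω hω => σ.commutes (⟨ω, tame_le_Wnr hω⟩ : Wnr p C), fun x => rfl⟩

/-- every automorphism of `E` over `W` extends to `C` -/
theorem lift_E (E : IntermediateField (Wnr p C) C) (g : E ≃ₐ[Wnr p C] E) :
    ∃ σ : C ≃ₐ[ℚ_[p]] C, (∀ ω ∈ tame p C, σ ω = ω) ∧ ∀ x : E, σ (x : C) = (g x : C) := by
  have : IsGalois (Wnr p C) C := galW p C _
  have : Normal (Wnr p C) C := inferInstance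
  refine ⟨(g.liftNormal C).restrictScalars ℚ_[p], fun ω hω => ?_, fun x => ?_⟩
  · exact (g.liftNormal C).commutes (⟨ω, tame_le_Wnr hω⟩ : Wnr p C)
  · exact g.liftNormal_commutes C x

/-- every automorphism of `C` over `W` restricts to `E` -/
theorem restrict_E (E : IntermediateField (Wnr p C) C) [Normal (Wnr p C) E]
    (σ : C ≃ₐ[ℚ_[p]] C) (hσ : ∀ ω ∈ tame p C, σ ω = ω) :
    ∃ g : E ≃ₐ[Wnr p C] E, ∀ x : E, σ (x : C) = (g x : C) := by
  obtain ⟨σ', hσ'⟩ := exists_overW σ hσ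
  refine ⟨σ'.restrictNormal E, fun x => ?_⟩
  rw [← hσ']
  exact (σ'.restrictNormal_commutes E x).symm

/-- Galois theory over `Wnr` -/
theorem mem_of_fixed_W (E : IntermediateField (Wnr p C) C) (x : C)
    (h : ∀ σ : C ≃ₐ[ℚ_[p]] C, (∀ ω ∈ tame p C, σ ω = ω) → (∀ y ∈ E, σ y = y) → σ x = x) :
    x ∈ E := by
  have : IsGalois (Wnr p C) C := galW p C _
  refine mem_of_fixed E x fun σ hσ => ?_
  obtain ⟨σ', h1, h2⟩ := exists_overQ σ
  rw [← h2 x]
  exact h σ' h1 fun y hy => by rw [h2, hσ y hy]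

theorem ram_E (E : IntermediateField (Wnr p C) C) [FiniteDimensional (Wnr p C) E]
    [Normal (Wnr p C) E] : ∃ π : E, RamData E (E ≃ₐ[Wnr p C] E) π := by
  have : CharZero C := charZero_C p C
  have hgal : IsGalois (Wnr p C) E := ⟨⟩
  have hpp : (1 : ℝ) < p := by exact_mod_cast (Fact.out : p.Prime).one_lt
  have hp0 : (0 : ℝ) < p := by linarith
  have hiso : ∀ (g : E ≃ₐ[Wnr p C] E) (x : E), ‖g x‖ = ‖x‖ := by
    intro g x
    obtain ⟨σ, _, hσ⟩ := lift_E E g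
    have h1 : ‖(g x : C)‖ = ‖(x : C)‖ := by rw [← hσ x, IsoEnv.iso]
    exact h1
  set N : ℕ := Fintype.card (E ≃ₐ[Wnr p C] E) with hN
  have hN1 : 0 < N := Fintype.card_pos
  have hval : ∀ x : E, x ≠ 0 → ∃ k : ℤ, ‖x‖ ^ N = (p : ℝ) ^ k := by
    intro x hx
    have h1 := Algebra.norm_eq_prod_automorphisms (Wnr p C) x
    have h2 : ((Algebra.norm (Wnr p C) x : Wnr p C) : C) ≠ 0 := by
      intro h
      have h3 : Algebra.norm (Wnr p C) x = 0 := by exact_mod_cast h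
      exact hx (Algebra.norm_eq_zero_iff.1 h3)
    obtain ⟨k, hk⟩ := unr_value ((Algebra.norm (Wnr p C) x : Wnr p C) : C)
      (Algebra.norm (Wnr p C) x).2 h2
    refine ⟨k, ?_⟩
    rw [← hk]
    have h4 : ‖(algebraMap (Wnr p C) E) (Algebra.norm (Wnr p C) x)‖ = ‖x‖ ^ N := by
      rw [h1, norm_prod]
      simp only [hiso]
      rw [Finset.prod_const, Finset.card_univ]
    rw [← h4]
    rfl
  -- the possible exponents
  have hex : ∃ j : ℕ, 1 ≤ j ∧ ∃ x : E, ‖x‖ ^ N = (p : ℝ) ^ (-(j : ℤ)) := by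
    refine ⟨N, hN1, (p : E), ?_⟩
    have h1 : ‖(p : E)‖ = 1 / (p : ℝ) := by
      have h2 : ‖(((p : E)) : C)‖ = 1 / (p : ℝ) := by
        push_cast
        exact norm_p
      exact h2
    rw [h1, one_div, inv_pow, zpow_neg, zpow_natCast]
  classical
  obtain ⟨hj1, π, hπ⟩ := Nat.find_spec hex
  set j : ℕ := Nat.find hex with hj
  have hpos : 0 < ‖π‖ := by
    by_contra h
    have h0 : ‖π‖ = 0 := le_antisymm (not_lt.1 h) (norm_nonneg π)
    rw [h0, zero_pow hN1.ne'] at hπ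
    exact (zpow_pos hp0 _).ne hπ
  refine ⟨π, ?_, ?_, ?_, ?_, hpos, ?_, ?_⟩
  · intro x y
    exact IsUltrametricDist.norm_add_le_max (x : C) (y : C)
  · intro g x
    exact hiso g x
  · intro g h
    exact AlgEquiv.ext h
  · intro x hx
    rcases lt_or_eq_of_le hx with hlt | heq
    · exact ⟨0, by rw [norm_zero]; exact zero_le_one, fun g => smul_zero g, by rwa [sub_zero]⟩
    · obtain ⟨ω, hω, hωx⟩ := res_tame (p := p) (x : C) heq
      refine ⟨algebraMap (Wnr p C) E ⟨ω, tame_le_Wnr hω⟩, ?_, fun g => g.commutes _, hωx⟩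
      exact (norm_of_mem_tame hω).le
  · by_contra h
    have h1 : 1 ≤ ‖π‖ ^ N := one_le_pow₀ (not_lt.1 h)
    rw [hπ] at h1
    have h2 : (p : ℝ) ^ (-(j : ℤ)) < 1 := zpow_lt_one_of_neg₀ hpp (by omega)
    linarith
  · intro x hx
    by_cases hx0 : x = 0
    · rw [hx0, norm_zero]
      exact norm_nonneg _
    obtain ⟨k, hk⟩ := hval x hx0
    have h1 : ‖x‖ ^ N < 1 := pow_lt_one₀ (norm_nonneg x) hx hN1.ne'
    rw [hk] at h1
    have hk0 : k < 0 := by
      by_contra h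
      have := one_le_zpow₀ hpp.le (not_lt.1 h)
      linarith
    obtain ⟨j', hj'⟩ : ∃ j' : ℕ, k = -(j' : ℤ) := ⟨k.natAbs, by omega⟩
    have hjj : j ≤ j' := by
      apply Nat.find_min'
      refine ⟨by omega, x, ?_⟩
      rw [hk, hj']
    have h2 : ‖x‖ ^ N ≤ ‖π‖ ^ N := by
      rw [hk, hπ, hj']
      exact zpow_le_zpow_right₀ hpp.le (by omega)
    exact (pow_le_pow_iff_left₀ (norm_nonneg x) (norm_nonneg π) hN1.ne').1 h2

end Pool.Agent.H72.RG
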