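import Pool.Agent.H72.RM.PStep
import Pool.Agent.H72.RG.LocalFin

/-!
# The global data at one prime `p` and the two-parameter level fields (definitions)

`K` is a number field, `Ω / K` an algebraic closure, `ι : Ω → C` an embedding into an algebraic closure
`C` of `ℚ_p`, `b : Fin r → K` a basis (modulo torsion) of a saturated finitely generated subgroup of
`K*`. `RF Ω b n N` is the field `K(μ_n, μ_N, b_i^(1/N))` (module `Pool.Agent.H72.RM.PData`).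
-/

set_option autoImplicit false
set_option linter.unusedSectionVars false

open NumberField IntermediateField

namespace Pool.Agent.H72.RG

open Pool.Agent.H72.RM

section

variable {K Ω : Type} [Field K] [Field Ω] [Algebra K Ω] {r : ℕ}

/-- the field `F(μ_M, b_i^(1/n))` -/
noncomputable def Lf (b : Fin r → K) (F : IntermediateField K Ω) (n M : ℕ) :
    IntermediateField K Ω :=
  IntermediateField.adjoin K
    ((F : Set Ω) ∪ ({x | x ^ M = 1} ∪ {x | ∃ i, x ^ n = algebraMap K Ω (b i)}))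

end

/-- the data at `p`: `ind` (the `b i` are a basis of a saturated group), `cyc` (cyclotomic
automorphisms), `loc` (the local theorem: automorphisms close to the identity, level by level) -/
structure SData (K Ω : Type) [Field K] [Field Ω] [Algebra K Ω] (p : ℕ) [Fact p.Prime] (C : Type)
    [NormedField C] [NormedAlgebra ℚ_[p] C] {r : ℕ} (b : Fin r → K) (ι : Ω →+* C) (h₀ J : ℕ) :
    Prop where
  ne : ∀ i, b i ≠ 0
  ind : ∀ N : ℕ, 1 ≤ N → ∀ (m : Fin r → ℤ) (y : K), y ^ N = ∏ i, (b i) ^ (m i) →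
    ∀ i, (N : ℤ) ∣ m i
  h_ge : 2 ≤ h₀
  cyc : ∀ m : ℕ, ∃ σ : Ω ≃ₐ[K] Ω, ∀ ζ : Ω, ζ ^ (p ^ m) = 1 → σ ζ = ζ ^ h₀
  loc : ∀ e : ℕ, ∃ ρ : ℝ, 0 < ρ ∧ ρ < 1 ∧ ∃ n₀ : ℕ, ∀ n : ℕ, n₀ ≤ n → ∀ n' N₀ : ℕ,
    1 ≤ n' → 1 ≤ N₀ → ¬ p ∣ n' → ¬ p ∣ N₀ →
    ∃ (τ : C ≃ₐ[ℚ_[p]] C) (θ : Ω ≃ₐ[K] Ω), (∀ x : Ω, ι (θ x) = τ (ι x)) ∧
      (∀ x ∈ Lf b (RF Ω b n' N₀) (p ^ n) (p ^ (n + J)), θ x = x) ∧
      (∀ ζ : Ω, IsPrimitiveRoot ζ (p ^ (n + J + 1)) → θ ζ ≠ ζ) ∧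
      ∀ x ∈ Lf b (RF Ω b n' N₀) (p ^ (n + e)) (p ^ (n + e + J + 1)), x ≠ 0 →
        ‖τ (ι x) / ι x - 1‖ ≤ ρ

end Pool.Agent.H72.RG
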