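import Pool.Agent.H72.RG.RadBound

/-!
# Module ZBound: the elements fixing `y` and moving `ζ`

For `g : G` the element `g • ζ / ζ` is a `p^n`-th root of unity, so it has order `p^j`, `0 ≤ j ≤ n`, and
`j ≥ 1` if `g • ζ ≠ ζ`. Let `Z_j = {g ∈ Q | g • y = y, g • ζ / ζ has order p^j}` and
`O_j = {g ∈ Q | g • ζ / ζ has order p^j}`. `nuS_le_sum`: the sum in question is at most
`∑_{1 ≤ j ≤ n} S(Z_j)`, and `S(Z_j) ≤ S(O_j) ≤ log p` by `nu_ord` and `hp`.
Let `j > κ`. Claim: `p^(j-κ) S(Z_j) ≤ log p`. Let `τ_k` be the element of `hτ` for `k < p^(j-κ)`. The sets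
`Z_j^k = {g | τ_k⁻¹ * g * τ_k ∈ Z_j}` (`k < p^(j-κ)`) are contained in `O_j` and disjoint: for
`g = τ_k g' τ_k⁻¹`, `g' ∈ Z_j`, `ω = g' • ζ / ζ`: `g • ζ = ω ζ` (`τ_k` fixes `ζ` and `ω`, which is a power of
`ζ`), and `τ_k⁻¹ • y = ζ^(-p^κ k) y`, `g' • ..`: `(ω ζ)^(-p^κ k) y`, `τ_k • ..`: `(ω ζ)^(-p^κ k) ζ^(p^κ k) y`,
i.e. `g • y = ω^(-p^κ k) y`. As `ω = g • ζ / ζ` has order `p^j`, this determines `p^κ k` modulo `p^j`, so
`k`. By `nuS_conj` `S(Z_j^k) = S(Z_j)`, so by `nuS_sum_le` `p^(j-κ) S(Z_j) ≤ S(O_j) ≤ log p`.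
Summation: `∑_{1 ≤ j ≤ n} S(Z_j) ≤ κ log p + ∑_{i ≥ 1} p^(-i) log p ≤ (κ + 1) log p`
(`∑_{1 ≤ i ≤ m} p^(-i) ≤ 1` for `p ≥ 2`, by induction or `≤ ∑ 2^(-i)`).
-/

set_option autoImplicit false
set_option linter.unusedSectionVars false

namespace Pool.Agent.H72.RG

open Pool.Agent.H72.RM

variable {M G : Type} [NormedField M] [Group G] [MulSemiringAction G M] [Fintype G] {π : M}

private theorem zb_sum_half (κ n : ℕ) :
    ∑ j ∈ Finset.range n, (1 / 2 : ℝ) ^ ((j + 1) - κ) ≤ (κ : ℝ) + 1 := by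
  have key : ∀ m : ℕ, ∑ j ∈ Finset.range (κ + m), (1 / 2 : ℝ) ^ ((j + 1) - κ) + (1 / 2 : ℝ) ^ m =
      (κ : ℝ) + 1 := by
    intro m
    induction m with
    | zero =>
      have h1 : ∑ j ∈ Finset.range (κ + 0), (1 / 2 : ℝ) ^ ((j + 1) - κ) = (κ : ℝ) := by
        rw [add_zero]
        have h2 : ∀ j ∈ Finset.range κ, (1 / 2 : ℝ) ^ ((j + 1) - κ) = 1 := by
          intro j hj
          rw [Finset.mem_range] at hj
          rw [show (j + 1) - κ = 0 by omega, pow_zero]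
        rw [Finset.sum_congr rfl h2, Finset.sum_const, Finset.card_range, nsmul_eq_mul, mul_one]
      rw [h1, pow_zero]
    | succ m ih =>
      rw [← ih, ← add_assoc, Finset.sum_range_succ, show (κ + m + 1) - κ = m + 1 by omega, pow_succ]
      ring
  have h1 : ∑ j ∈ Finset.range n, (1 / 2 : ℝ) ^ ((j + 1) - κ) ≤
      ∑ j ∈ Finset.range (κ + n), (1 / 2 : ℝ) ^ ((j + 1) - κ) := by
    refine Finset.sum_le_sum_of_subset_of_nonneg ?_ fun j _ _ => by positivity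
    intro j hj
    rw [Finset.mem_range] at hj ⊢
    omega
  have h2 := key n
  have h3 : (0 : ℝ) < (1 / 2 : ℝ) ^ n := by positivity
  linarith

theorem z_bound (D : RamData M G π) (p : ℕ) [Fact p.Prime] (hp : ‖(p : M)‖ = 1 / (p : ℝ))
    (Q : Subgroup G) (n : ℕ) (ζ : M) (hζ : IsPrimitiveRoot ζ (p ^ n)) (y : M) (hy0 : y ≠ 0)
    (κ : ℕ) (hτ : ∀ k : ℕ, ∃ τ ∈ Q, τ • ζ = ζ ∧ τ • y = ζ ^ (p ^ κ * k) * y) :
    nuS π (fun g => g ∈ Q ∧ g • y = y ∧ g • ζ ≠ ζ) ≤ ((κ : ℝ) + 1) * Real.log p := by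
  have hpp : p.Prime := Fact.out
  have hp2 : 2 ≤ p := hpp.two_le
  have hpR : (0 : ℝ) < p := by exact_mod_cast hpp.pos
  have hL : -Real.log ‖(p : M)‖ = Real.log p := by
    rw [hp, one_div, Real.log_inv, neg_neg]
  have hL0 : 0 ≤ Real.log p := Real.log_nonneg (by exact_mod_cast hpp.one_lt.le)
  have hζ0 : ζ ≠ 0 := hζ.ne_zero (pow_ne_zero n hpp.ne_zero)
  -- the order of `g • ζ / ζ`
  have hroot : ∀ g : G, (g • ζ / ζ) ^ (p ^ n) = 1 := by
    intro g
    rw [div_pow, ← smul_pow', hζ.pow_eq_one, smul_one, div_one]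
  have hord : ∀ g : G, ∃ j, j ≤ n ∧ IsPrimitiveRoot (g • ζ / ζ) (p ^ j) := by
    intro g
    have h1 : orderOf (g • ζ / ζ) ∣ p ^ n := orderOf_dvd_of_pow_eq_one (hroot g)
    obtain ⟨j, hj, h2⟩ := (Nat.dvd_prime_pow hpp).1 h1
    refine ⟨j, hj, ?_⟩
    rw [← h2]
    exact IsPrimitiveRoot.orderOf _
  set Z : ℕ → G → Prop := fun j g => g ∈ Q ∧ g • y = y ∧ IsPrimitiveRoot (g • ζ / ζ) (p ^ j) with hZ
  have hO : ∀ j, 1 ≤ j → j ≤ n →
      nuS π (fun g => g ∈ Q ∧ IsPrimitiveRoot (g • ζ / ζ) (p ^ j)) ≤ Real.log p := by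
    intro j h1 h2
    rw [← hL]
    exact nu_ord D Q p n j h1 h2 ζ hζ
  have hZ1 : ∀ j, 1 ≤ j → j ≤ n → nuS π (Z j) ≤ Real.log p := by
    intro j h1 h2
    refine (nuS_mono D _ _ ?_).trans (hO j h1 h2)
    intro g hg
    exact ⟨hg.1, hg.2.2⟩
  choose τ hτQ hτζ hτy using hτ
  have hconj : ∀ (j k : ℕ) (g : G), Z j ((τ k)⁻¹ * g * τ k) →
      (g ∈ Q ∧ IsPrimitiveRoot (g • ζ / ζ) (p ^ j)) ∧
        (g • ζ / ζ) ^ (p ^ κ * k) * (g • y) = y := by
    intro j k g hg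
    obtain ⟨h1, h2, h3⟩ := hg
    set g' : G := (τ k)⁻¹ * g * τ k with hg'
    have hgg : g = τ k * g' * (τ k)⁻¹ := by
      rw [hg']
      group
    have hinvζ : (τ k)⁻¹ • ζ = ζ := by
      rw [inv_smul_eq_iff]
      exact (hτζ k).symm
    set w : M := g' • ζ / ζ with hw
    have hw1 : g' • ζ = w * ζ := by
      rw [hw, div_mul_cancel₀ _ hζ0]
    have hwτ : τ k • w = w := by
      have : NeZero (p ^ n) := ⟨pow_ne_zero n hpp.ne_zero⟩
      obtain ⟨i, _, hi⟩ := hζ.eq_pow_of_pow_eq_one (hroot g')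
      rw [← hw] at hi
      rw [← hi, smul_pow', hτζ]
    have hgζ : g • ζ = w * ζ := by
      rw [hgg, mul_smul, mul_smul, hinvζ, hw1, smul_mul', hwτ, hτζ]
    have hgw : g • ζ / ζ = w := by
      rw [hgζ, mul_div_assoc, div_self hζ0, mul_one]
    refine ⟨⟨?_, ?_⟩, ?_⟩
    · rw [hgg]
      exact Q.mul_mem (Q.mul_mem (hτQ k) h1) (Q.inv_mem (hτQ k))
    · rw [hgw]
      exact h3
    · rw [hgw]
      set a : ℕ := p ^ κ * k with ha
      have e1 : ζ ^ a * ((τ k)⁻¹ • y) = y := by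
        have e2 : (τ k)⁻¹ • (τ k • y) = y := inv_smul_smul _ _
        rw [hτy, smul_mul', smul_pow', hinvζ] at e2
        exact e2
      have e3 : (w * ζ) ^ a * (g' • ((τ k)⁻¹ • y)) = y := by
        have e4 := congrArg (fun x => g' • x) e1
        simp only [smul_mul', smul_pow'] at e4
        rw [hw1, h2] at e4
        exact e4
      have e5 : (w * ζ) ^ a * (g • y) = ζ ^ a * y := by
        have e6 := congrArg (fun x => τ k • x) e3
        simp only [smul_mul', smul_pow'] at e6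
        rw [hwτ, hτζ, hτy] at e6
        rw [hgg, mul_smul, mul_smul]
        exact e6
      rw [mul_pow] at e5
      have e7 : ζ ^ a * (w ^ a * (g • y)) = ζ ^ a * y := by
        rw [← e5]
        ring
      exact mul_left_cancel₀ (pow_ne_zero a hζ0) e7
  have hZ2 : ∀ j, κ < j → j ≤ n → ((p : ℝ) ^ (j - κ)) * nuS π (Z j) ≤ Real.log p := by
    intro j h1 h2
    have h3 := nuS_sum_le D (Finset.range (p ^ (j - κ)))
      (fun g => g ∈ Q ∧ IsPrimitiveRoot (g • ζ / ζ) (p ^ j))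
      (fun k g => Z j ((τ k)⁻¹ * g * τ k)) (fun k _ g hg => (hconj j k g hg).1) ?_
    · have h4 : ∀ k ∈ Finset.range (p ^ (j - κ)),
          nuS π (fun g => Z j ((τ k)⁻¹ * g * τ k)) = nuS π (Z j) := by
        intro k _
        exact nuS_conj D (τ k) (Z j)
      rw [Finset.sum_congr rfl h4, Finset.sum_const, Finset.card_range, nsmul_eq_mul] at h3
      have h5 := h3.trans (hO j (by omega) h2)
      push_cast at h5
      exact h5
    · intro k hk l hl hkl g hgk hgl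
      obtain ⟨⟨_, hprim⟩, e1⟩ := hconj j k g hgk
      obtain ⟨_, e2⟩ := hconj j l g hgl
      apply hkl
      have hgy : g • y ≠ 0 := by
        intro h0
        apply hy0
        rw [← e1, h0, mul_zero]
      have e3 : (g • ζ / ζ) ^ (p ^ κ * k) = (g • ζ / ζ) ^ (p ^ κ * l) :=
        mul_right_cancel₀ hgy (e1.trans e2.symm)
      rw [Finset.mem_range] at hk hl
      have hpow : p ^ κ * p ^ (j - κ) = p ^ j := by
        rw [← pow_add]
        congr 1
        omega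
      have hpos : 0 < p ^ κ := pow_pos hpp.pos κ
      have e4 : p ^ κ * k = p ^ κ * l := by
        refine hprim.pow_inj ?_ ?_ e3
        · rw [← hpow]
          exact Nat.mul_lt_mul_of_pos_left hk hpos
        · rw [← hpow]
          exact Nat.mul_lt_mul_of_pos_left hl hpos
      exact Nat.eq_of_mul_eq_mul_left hpos e4
  have hZ3 : ∀ j, j < n → nuS π (Z (j + 1)) ≤ Real.log p * (1 / 2 : ℝ) ^ ((j + 1) - κ) := by
    intro j hj
    by_cases h1 : κ < j + 1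
    · have h2 := hZ2 (j + 1) h1 hj
      have h3 : (2 : ℝ) ^ ((j + 1) - κ) ≤ (p : ℝ) ^ ((j + 1) - κ) :=
        pow_le_pow_left₀ (by norm_num) (by exact_mod_cast hp2) _
      have h4 : (2 : ℝ) ^ ((j + 1) - κ) * nuS π (Z (j + 1)) ≤ Real.log p :=
        (mul_le_mul_of_nonneg_right h3 (nuS_nonneg D _)).trans h2
      rw [one_div, inv_pow, ← div_eq_mul_inv, le_div_iff₀ (by positivity), mul_comm]
      exact h4
    · rw [show (j + 1) - κ = 0 by omega, pow_zero, mul_one]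
      exact hZ1 (j + 1) (by omega) hj
  have hmain := nuS_le_sum D (Finset.range n) (fun g => g ∈ Q ∧ g • y = y ∧ g • ζ ≠ ζ)
    (fun j => Z (j + 1)) ?_
  · refine hmain.trans ?_
    calc ∑ j ∈ Finset.range n, nuS π (Z (j + 1))
        ≤ ∑ j ∈ Finset.range n, Real.log p * (1 / 2 : ℝ) ^ ((j + 1) - κ) :=
          Finset.sum_le_sum fun j hj => hZ3 j (Finset.mem_range.1 hj)
      _ = Real.log p * ∑ j ∈ Finset.range n, (1 / 2 : ℝ) ^ ((j + 1) - κ) := by
          rw [Finset.mul_sum]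
      _ ≤ Real.log p * ((κ : ℝ) + 1) := mul_le_mul_of_nonneg_left (zb_sum_half κ n) hL0
      _ = ((κ : ℝ) + 1) * Real.log p := mul_comm _ _
  · intro g hg
    obtain ⟨h1, h2, h3⟩ := hg
    obtain ⟨j, hj, h4⟩ := hord g
    have hj0 : j ≠ 0 := by
      intro h0
      apply h3
      rw [h0, pow_zero] at h4
      have h5 : g • ζ / ζ = 1 := IsPrimitiveRoot.one_right_iff.1 h4
      rw [div_eq_one_iff_eq hζ0] at h5
      exact h5
    refine ⟨j - 1, Finset.mem_range.2 (by omega), h1, h2, ?_⟩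
    rw [show j - 1 + 1 = j by omega]
    exact h4

end Pool.Agent.H72.RG
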